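import Pool.Agent.Helper47.LTLocal

open MeasureTheory FourierTransform Filter Topology Real
open scoped ENNReal RealInnerProductSpace

namespace Pool.Agent.Helper47.LT

variable {n : ℕ}

/-- Cauchy-Schwarz for sums in `[0,∞]` with weights -/
lemma tsum_cs' {ι : Type*} [Countable ι] (c d : ι → ℝ≥0∞) :
    (∑' k, c k * d k) ^ 2 ≤ (∑' k, c k) * ∑' k, c k * d k ^ 2 := by
  let _ : MeasurableSpace ι := ⊤
  have _ : MeasurableSingletonClass ι := ⟨fun _ => trivial⟩
  have h := ENNReal.lintegral_mul_le_Lp_mul_Lq (Measure.count : Measure ι) (p := 2) (q := 2)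
    Real.HolderConjugate.two_two
    (f := fun k => c k ^ (1 / 2 : ℝ)) (g := fun k => c k ^ (1 / 2 : ℝ) * d k)
    (measurable_of_countable _).aemeasurable (measurable_of_countable _).aemeasurable
  simp only [Pi.mul_apply, lintegral_count] at h
  have hc : ∀ x : ℝ≥0∞, x ^ (1 / 2 : ℝ) * x ^ (1 / 2 : ℝ) = x := by
    intro x
    rw [← ENNReal.rpow_add_of_nonneg _ _ (by norm_num) (by norm_num)]
    norm_num
  have hc2 : ∀ x : ℝ≥0∞, (x ^ (1 / 2 : ℝ)) ^ (2 : ℝ) = x := by
    intro x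
    rw [← ENNReal.rpow_mul]; norm_num
  have e1 : ∀ k, c k ^ (1 / 2 : ℝ) * (c k ^ (1 / 2 : ℝ) * d k) = c k * d k := by
    intro k; rw [← mul_assoc, hc]
  have e2 : ∀ k, (c k ^ (1 / 2 : ℝ) * d k) ^ (2 : ℝ) = c k * d k ^ 2 := by
    intro k
    rw [ENNReal.mul_rpow_of_nonneg _ _ (by norm_num), hc2, ENNReal.rpow_ofNat]
  simp only [e1, e2, hc2] at h
  calc (∑' k, c k * d k) ^ 2
      ≤ ((∑' k, c k) ^ (1 / 2 : ℝ) * (∑' k, c k * d k ^ 2) ^ (1 / 2 : ℝ)) ^ 2 := by gcongr
    _ = (∑' k, c k) * ∑' k, c k * d k ^ 2 := by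
        rw [mul_pow, ← ENNReal.rpow_ofNat, ← ENNReal.rpow_ofNat, hc2, hc2]

/-! ### The counting lemma -/

lemma exists_subball {c y : EuclideanSpace ℝ (Fin n)} {r δ : ℝ} (hr : 0 < r) (hδ : 0 < δ)
    (hy : y ∈ Metric.closedBall c (r + δ)) :
    ∃ x', Metric.closedBall x' (min r δ) ⊆ Metric.closedBall c r ∧
      Metric.closedBall x' (min r δ) ⊆ Metric.closedBall y (3 * δ) := by
  set ρ := min r δ with hρ
  have hρr : ρ ≤ r := min_le_left _ _
  have hρδ : ρ ≤ δ := min_le_right _ _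
  have hρ0 : 0 < ρ := lt_min hr hδ
  set d := dist y c with hd
  have hdle : d ≤ r + δ := hy
  obtain ⟨x', hx1, hx2⟩ : ∃ x', dist x' c ≤ r - ρ ∧ dist x' y ≤ 2 * δ := by
    by_cases h : d ≤ r - ρ
    · exact ⟨y, h, by simp; positivity⟩
    · push Not at h
      have hd0 : 0 < d := by linarith
      have hdn : ‖y - c‖ = d := by rw [hd, dist_eq_norm]
      refine ⟨c + ((r - ρ) / d) • (y - c), ?_, ?_⟩
      · rw [dist_eq_norm, add_sub_cancel_left, norm_smul, hdn,
          Real.norm_of_nonneg (by apply div_nonneg <;> linarith), div_mul_cancel₀ _ hd0.ne']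
      · have e : c + ((r - ρ) / d) • (y - c) - y = (-(1 - (r - ρ) / d)) • (y - c) := by
          rw [neg_smul, sub_smul, one_smul]; abel
        have h1 : (r - ρ) / d ≤ 1 := by rw [div_le_one hd0]; linarith
        rw [dist_eq_norm, e, norm_smul, norm_neg, hdn,
          Real.norm_of_nonneg (by linarith)]
        have : (1 - (r - ρ) / d) * d = d - (r - ρ) := by field_simp
        rw [this]; linarith
  refine ⟨x', ?_, ?_⟩
  · intro z hz
    have := dist_triangle z x' c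
    rw [Metric.mem_closedBall] at *
    linarith
  · intro z hz
    have := dist_triangle z x' y
    rw [Metric.mem_closedBall] at *
    linarith

lemma counting_pointwise {ι : Type*} (t : Finset ι) (c : ι → EuclideanSpace ℝ (Fin n))
    (r : ι → ℝ) (hr : ∀ i ∈ t, 0 < r i)
    (hdisj : (t : Set ι).PairwiseDisjoint fun i => Metric.closedBall (c i) (r i))
    {δ : ℝ} (hδ : 0 < δ) (y : EuclideanSpace ℝ (Fin n)) :
    ∑ i ∈ t, (Metric.closedBall (c i) (r i + δ)).indicator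
      (fun _ => volume (Metric.closedBall (0 : EuclideanSpace ℝ (Fin n)) (min (r i) δ))) y ≤
      volume (Metric.closedBall (0 : EuclideanSpace ℝ (Fin n)) (3 * δ)) := by
  classical
  have hx : ∀ i, ∃ x', i ∈ t → y ∈ Metric.closedBall (c i) (r i + δ) →
      Metric.closedBall x' (min (r i) δ) ⊆ Metric.closedBall (c i) (r i) ∧
      Metric.closedBall x' (min (r i) δ) ⊆ Metric.closedBall y (3 * δ) := by
    intro i
    by_cases h : i ∈ t ∧ y ∈ Metric.closedBall (c i) (r i + δ)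
    · obtain ⟨x', h'⟩ := exists_subball (hr i h.1) hδ h.2
      exact ⟨x', fun _ _ => h'⟩
    · exact ⟨0, fun h1 h2 => absurd ⟨h1, h2⟩ h⟩
  choose x' hx' using hx
  set t' := t.filter fun i => y ∈ Metric.closedBall (c i) (r i + δ) with ht'
  have e1 : ∑ i ∈ t, (Metric.closedBall (c i) (r i + δ)).indicator
      (fun _ => volume (Metric.closedBall (0 : EuclideanSpace ℝ (Fin n)) (min (r i) δ))) y =
      ∑ i ∈ t', volume (Metric.closedBall (x' i) (min (r i) δ)) := by
    rw [ht', Finset.sum_filter]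
    refine Finset.sum_congr rfl fun i _ => ?_
    rw [Set.indicator_apply]
    split_ifs
    · exact (Measure.addHaar_closedBall_center volume (x' i) _).symm
    · rfl
  rw [e1]
  have hdisj' : (t' : Set ι).PairwiseDisjoint fun i => Metric.closedBall (x' i) (min (r i) δ) := by
    intro i hi j hj hij
    simp only [ht', Finset.coe_filter, Set.mem_ofPred_eq] at hi hj
    exact (hdisj hi.1 hj.1 hij).mono (hx' i hi.1 hi.2).1 (hx' j hj.1 hj.2).1
  rw [← measure_biUnion_finset hdisj' fun i _ => measurableSet_closedBall]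
  rw [← Measure.addHaar_closedBall_center volume y]
  refine measure_mono (Set.iUnion₂_subset fun i hi => ?_)
  simp only [ht', Finset.mem_filter] at hi
  exact (hx' i hi.1 hi.2).2

lemma counting {ι : Type*} (t : Finset ι) (c : ι → EuclideanSpace ℝ (Fin n))
    (r : ι → ℝ) (hr : ∀ i ∈ t, 0 < r i)
    (hdisj : (t : Set ι).PairwiseDisjoint fun i => Metric.closedBall (c i) (r i))
    {δ : ℝ} (hδ : 0 < δ) (W : EuclideanSpace ℝ (Fin n) → ℝ≥0∞) (hW : Measurable W) :
    ∑ i ∈ t, volume (Metric.closedBall (0 : EuclideanSpace ℝ (Fin n)) (min (r i) δ)) *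
      ∫⁻ y in Metric.closedBall (c i) (r i + δ), W y ≤
      volume (Metric.closedBall (0 : EuclideanSpace ℝ (Fin n)) (3 * δ)) * ∫⁻ y, W y := by
  calc ∑ i ∈ t, volume (Metric.closedBall (0 : EuclideanSpace ℝ (Fin n)) (min (r i) δ)) *
      ∫⁻ y in Metric.closedBall (c i) (r i + δ), W y
      = ∫⁻ y, ∑ i ∈ t, (Metric.closedBall (c i) (r i + δ)).indicator (fun _ => volume
          (Metric.closedBall (0 : EuclideanSpace ℝ (Fin n)) (min (r i) δ))) y * W y := by
        rw [lintegral_finsetSum]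
        · refine Finset.sum_congr rfl fun i _ => ?_
          rw [← lintegral_indicator measurableSet_closedBall,
            ← lintegral_const_mul _ (hW.indicator measurableSet_closedBall)]
          congr 1
          ext y
          by_cases hy : y ∈ Metric.closedBall (c i) (r i + δ)
          · rw [Set.indicator_of_mem hy, Set.indicator_of_mem hy]
          · rw [Set.indicator_of_notMem hy, Set.indicator_of_notMem hy]; simp
        · intro i _
          exact (measurable_const.indicator measurableSet_closedBall).mul hW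
    _ ≤ ∫⁻ y, volume (Metric.closedBall (0 : EuclideanSpace ℝ (Fin n)) (3 * δ)) * W y := by
        refine lintegral_mono fun y => ?_
        rw [← Finset.sum_mul]
        exact mul_le_mul' (counting_pointwise t c r hr hdisj hδ y) le_rfl
    _ = _ := by rw [lintegral_const_mul _ hW]

/-! ### Shells -/

/-- dyadic frequency shells -/
def shell (n : ℕ) (j : ℤ) : Set (EuclideanSpace ℝ (Fin n)) :=
  {ξ | 1 / 2 < 4 * π * ‖ξ‖ * (2 : ℝ) ^ j ∧ 4 * π * ‖ξ‖ * (2 : ℝ) ^ j ≤ 1}

lemma measurableSet_shell (j : ℤ) : MeasurableSet (shell n j) := by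
  have hc : Continuous fun ξ : EuclideanSpace ℝ (Fin n) => 4 * π * ‖ξ‖ * (2 : ℝ) ^ j := by
    fun_prop
  exact (measurableSet_lt measurable_const hc.measurable).inter
    (measurableSet_le hc.measurable measurable_const)

lemma shell_disjoint : Pairwise (Function.onFun Disjoint (shell n)) := by
  have key : ∀ i j : ℤ, i < j → Disjoint (shell n i) (shell n j) := by
    intro i j hij
    rw [Set.disjoint_left]
    intro ξ hi hj
    have h1 := hi.1
    have h2 := hj.2
    have h3 : (2 : ℝ) ^ (i + 1) ≤ (2 : ℝ) ^ j := zpow_le_zpow_right₀ (by norm_num) hij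
    rw [zpow_add_one₀ (by norm_num)] at h3
    have h4 : 0 ≤ 4 * π * ‖ξ‖ := by positivity
    nlinarith
  intro i j hij
  rcases lt_or_gt_of_ne hij with h | h
  · exact key i j h
  · exact (key j i h).symm

lemma exists_zpow_near {a : ℝ} (ha : 0 < a) : ∃ j : ℤ, (2 : ℝ) ^ j ≤ a ∧ a < (2 : ℝ) ^ (j + 1) :=
  exists_mem_Ico_zpow ha (by norm_num)

lemma mem_shell_of_ne {ξ : EuclideanSpace ℝ (Fin n)} (hξ : ξ ≠ 0) : ∃ j, ξ ∈ shell n j := by
  have hn : 0 < ‖ξ‖ := norm_pos_iff.mpr hξ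
  obtain ⟨j, h1, h2⟩ := exists_zpow_near (a := 1 / (4 * π * ‖ξ‖)) (by positivity)
  refine ⟨j, ?_, ?_⟩
  · rw [zpow_add_one₀ (by norm_num), div_lt_iff₀ (by positivity)] at h2
    linarith
  · rw [le_div_iff₀ (by positivity)] at h1
    linarith

/-- the low frequencies for the radius `r` -/
def low (n : ℕ) (r : ℝ) : Set (EuclideanSpace ℝ (Fin n)) :=
  ⋃ j ∈ {j : ℤ | r < (2 : ℝ) ^ j}, shell n j

lemma measurableSet_low (r : ℝ) : MeasurableSet (low n r) :=
  MeasurableSet.biUnion (Set.to_countable _) fun j _ => measurableSet_shell j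

lemma mem_low_iff {r : ℝ} {j : ℤ} {ξ : EuclideanSpace ℝ (Fin n)} (h : ξ ∈ shell n j) :
    ξ ∈ low n r ↔ r < (2 : ℝ) ^ j := by
  constructor
  · intro h'
    simp only [low, Set.mem_iUnion] at h'
    obtain ⟨i, hi, hξ⟩ := h'
    by_cases hij : i = j
    · rw [← hij]; exact hi
    · exact absurd h (Set.disjoint_left.mp (shell_disjoint hij) hξ)
  · intro h'
    simp only [low, Set.mem_iUnion]
    exact ⟨j, h', h⟩

lemma low_bound {r : ℝ} (hr : 0 < r) {ξ : EuclideanSpace ℝ (Fin n)} (h : ξ ∈ low n r) :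
    4 * π * ‖ξ‖ * r ≤ 1 := by
  simp only [low, Set.mem_iUnion] at h
  obtain ⟨i, hi, hξ⟩ := h
  have hi' : r < (2 : ℝ) ^ i := hi
  calc 4 * π * ‖ξ‖ * r ≤ 4 * π * ‖ξ‖ * (2 : ℝ) ^ i := by gcongr
    _ ≤ 1 := hξ.2

/-- The moment conditions of order `< M` at the ball of centre `x₀` and radius `r`. -/
def MomentZero (M : ℕ) (g : EuclideanSpace ℝ (Fin n) → ℂ) (x₀ : EuclideanSpace ℝ (Fin n))
    (r : ℝ) : Prop :=
  ∀ k < M, ∀ w : Fin k → Fin n, ∫ ξ in low n r, g ξ * ph ξ x₀ * (wd w ξ : ℂ) = 0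

/-- the modified integrand -/
noncomputable def Gmod (M : ℕ) (g : EuclideanSpace ℝ (Fin n) → ℂ) (x₀ x : EuclideanSpace ℝ (Fin n))
    (r : ℝ) (ξ : EuclideanSpace ℝ (Fin n)) : ℂ :=
  g ξ * ph ξ x - (low n r).indicator (fun ξ => ∑ k ∈ Finset.range M,
    g ξ * ph ξ x₀ * ((((2 * π * ⟪ξ, x - x₀⟫ : ℝ) : ℂ) * Complex.I) ^ k / (k.factorial : ℂ))) ξ

lemma ph_add (ξ x y : EuclideanSpace ℝ (Fin n)) :
    ph ξ y = ph ξ x * Complex.exp (((2 * π * ⟪ξ, y - x⟫ : ℝ) : ℂ) * Complex.I) := by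
  unfold ph
  rw [← Complex.exp_add]
  congr 1
  rw [inner_sub_right]
  push_cast
  ring

lemma Gmod_of_mem {M : ℕ} {g : EuclideanSpace ℝ (Fin n) → ℂ} {x₀ x : EuclideanSpace ℝ (Fin n)}
    {r : ℝ} {ξ : EuclideanSpace ℝ (Fin n)} (h : ξ ∈ low n r) :
    Gmod M g x₀ x r ξ = g ξ * ph ξ x₀ * R M (((2 * π * ⟪ξ, x - x₀⟫ : ℝ) : ℂ) * Complex.I) := by
  rw [Gmod, Set.indicator_of_mem h, ph_add ξ x₀ x, R, ← Finset.mul_sum]
  ring

lemma Gmod_of_notMem {M : ℕ} {g : EuclideanSpace ℝ (Fin n) → ℂ}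
    {x₀ x : EuclideanSpace ℝ (Fin n)} {r : ℝ} {ξ : EuclideanSpace ℝ (Fin n)} (h : ξ ∉ low n r) :
    Gmod M g x₀ x r ξ = g ξ * ph ξ x := by
  rw [Gmod, Set.indicator_of_notMem h, sub_zero]

lemma taylor_summand_integrable {g : EuclideanSpace ℝ (Fin n) → ℂ} (h1 : Integrable g)
    {x₀ x : EuclideanSpace ℝ (Fin n)} {r : ℝ} (hr : 0 < r) (hx : x ∈ Metric.closedBall x₀ r)
    (k : ℕ) :
    Integrable ((low n r).indicator fun ξ => g ξ * ph ξ x₀ *
      ((((2 * π * ⟪ξ, x - x₀⟫ : ℝ) : ℂ) * Complex.I) ^ k / (k.factorial : ℂ))) := by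
  have hm : AEStronglyMeasurable (fun ξ => g ξ * ph ξ x₀ *
      ((((2 * π * ⟪ξ, x - x₀⟫ : ℝ) : ℂ) * Complex.I) ^ k / (k.factorial : ℂ))) volume := by
    refine (h1.aestronglyMeasurable.mul (ph_continuous x₀).aestronglyMeasurable).mul ?_
    refine Continuous.aestronglyMeasurable ?_
    fun_prop
  refine h1.norm.mono' (hm.indicator (measurableSet_low r)) (Eventually.of_forall fun ξ => ?_)
  by_cases hξ : ξ ∈ low n r
  · rw [Set.indicator_of_mem hξ, norm_mul, norm_mul, ph_norm, mul_one]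
    have h3 : ‖(((2 * π * ⟪ξ, x - x₀⟫ : ℝ) : ℂ) * Complex.I) ^ k / (k.factorial : ℂ)‖ ≤ 1 := by
      rw [norm_div, norm_pow, Complex.norm_natCast, div_le_one (by positivity)]
      have h4 : ‖((2 * π * ⟪ξ, x - x₀⟫ : ℝ) : ℂ) * Complex.I‖ ≤ 1 := by
        rw [norm_mul, Complex.norm_I, mul_one, Complex.norm_real, Real.norm_eq_abs, abs_mul,
          abs_of_pos (by positivity : (0 : ℝ) < 2 * π)]
        have h5 : |⟪ξ, x - x₀⟫| ≤ ‖ξ‖ * r := by
          refine (abs_real_inner_le_norm ξ (x - x₀)).trans ?_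
          gcongr
          rw [← dist_eq_norm]; exact hx
        have h6 := low_bound hr hξ
        have h7 : 0 ≤ ‖ξ‖ * r := by positivity
        calc 2 * π * |⟪ξ, x - x₀⟫| ≤ 2 * π * (‖ξ‖ * r) := by gcongr
          _ ≤ 1 := by nlinarith [Real.pi_pos]
      calc ‖((2 * π * ⟪ξ, x - x₀⟫ : ℝ) : ℂ) * Complex.I‖ ^ k ≤ 1 ^ k := by gcongr
        _ = 1 := one_pow _
        _ ≤ (k.factorial : ℝ) := by
          exact_mod_cast Nat.one_le_iff_ne_zero.mpr (Nat.factorial_ne_zero _)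
    calc ‖g ξ‖ * _ ≤ ‖g ξ‖ * 1 := by gcongr
      _ = ‖g ξ‖ := mul_one _
  · rw [Set.indicator_of_notMem hξ, norm_zero]; exact norm_nonneg _

lemma indicator_sum_eq {M : ℕ} {g : EuclideanSpace ℝ (Fin n) → ℂ}
    {x₀ x : EuclideanSpace ℝ (Fin n)} {r : ℝ} :
    ((low n r).indicator (fun ξ => ∑ k ∈ Finset.range M,
      g ξ * ph ξ x₀ * ((((2 * π * ⟪ξ, x - x₀⟫ : ℝ) : ℂ) * Complex.I) ^ k / (k.factorial : ℂ)))) =
    fun ξ => ∑ k ∈ Finset.range M, (low n r).indicator (fun ξ => g ξ * ph ξ x₀ *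
      ((((2 * π * ⟪ξ, x - x₀⟫ : ℝ) : ℂ) * Complex.I) ^ k / (k.factorial : ℂ))) ξ := by
  ext ξ
  by_cases hξ : ξ ∈ low n r
  · simp only [Set.indicator_of_mem hξ]
  · simp only [Set.indicator_of_notMem hξ, Finset.sum_const_zero]

lemma g_ph_integrable {g : EuclideanSpace ℝ (Fin n) → ℂ} (h1 : Integrable g)
    (x : EuclideanSpace ℝ (Fin n)) : Integrable fun ξ => g ξ * ph ξ x := by
  refine h1.norm.mono' (h1.aestronglyMeasurable.mul (ph_continuous x).aestronglyMeasurable)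
    (Eventually.of_forall fun ξ => ?_)
  rw [norm_mul, ph_norm, mul_one]

lemma Gmod_integrable {M : ℕ} {g : EuclideanSpace ℝ (Fin n) → ℂ} (h1 : Integrable g)
    {x₀ x : EuclideanSpace ℝ (Fin n)} {r : ℝ} (hr : 0 < r) (hx : x ∈ Metric.closedBall x₀ r) :
    Integrable (Gmod M g x₀ x r) := by
  unfold Gmod
  refine (g_ph_integrable h1 x).sub ?_
  have e := indicator_sum_eq (M := M) (g := g) (x₀ := x₀) (x := x) (r := r)
  rw [e]
  exact integrable_finsetSum _ fun k _ => taylor_summand_integrable h1 hr hx k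

lemma fourierInv_eq_ph (g : EuclideanSpace ℝ (Fin n) → ℂ) (x : EuclideanSpace ℝ (Fin n)) :
    𝓕⁻ g x = ∫ ξ, g ξ * ph ξ x := by
  rw [fourierInv_eq']
  congr 1
  ext ξ
  rw [smul_eq_mul, mul_comm]
  rfl

lemma integral_Gmod {M : ℕ} {g : EuclideanSpace ℝ (Fin n) → ℂ} (h1 : Integrable g)
    {x₀ x : EuclideanSpace ℝ (Fin n)} {r : ℝ} (hr : 0 < r) (hx : x ∈ Metric.closedBall x₀ r)
    (hz : MomentZero M g x₀ r) : ∫ ξ, Gmod M g x₀ x r ξ = 𝓕⁻ g x := by
  unfold Gmod
  have e := indicator_sum_eq (M := M) (g := g) (x₀ := x₀) (x := x) (r := r)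
  rw [integral_sub (g_ph_integrable h1 x) (by
    rw [e]
    exact integrable_finsetSum _ fun k _ => taylor_summand_integrable h1 hr hx k), e,
    integral_finsetSum _ fun k _ => taylor_summand_integrable h1 hr hx k, ← fourierInv_eq_ph]
  have : ∀ k ∈ Finset.range M, ∫ ξ, (low n r).indicator (fun ξ => g ξ * ph ξ x₀ *
      ((((2 * π * ⟪ξ, x - x₀⟫ : ℝ) : ℂ) * Complex.I) ^ k / (k.factorial : ℂ))) ξ = 0 := by
    intro k hk
    rw [integral_indicator (measurableSet_low r)]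
    have e2 : ∀ ξ, g ξ * ph ξ x₀ *
        ((((2 * π * ⟪ξ, x - x₀⟫ : ℝ) : ℂ) * Complex.I) ^ k / (k.factorial : ℂ)) =
        ∑ w : Fin k → Fin n, ((((2 * π : ℝ) : ℂ) * Complex.I) ^ k / (k.factorial : ℂ) *
          (wd w (x - x₀) : ℂ)) * (g ξ * ph ξ x₀ * (wd w ξ : ℂ)) := by
      intro ξ
      have e3 : ((⟪ξ, x - x₀⟫ : ℝ) : ℂ) ^ k =
          ∑ w : Fin k → Fin n, (wd w ξ : ℂ) * (wd w (x - x₀) : ℂ) := by
        rw [← Complex.ofReal_pow, ← sum_wd_mul, Complex.ofReal_sum]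
        push_cast
        rfl
      calc _ = g ξ * ph ξ x₀ * (((2 * π : ℝ) : ℂ) * Complex.I) ^ k / (k.factorial : ℂ) *
            ((⟪ξ, x - x₀⟫ : ℝ) : ℂ) ^ k := by push_cast; ring
        _ = _ := by
          rw [e3, Finset.mul_sum]
          refine Finset.sum_congr rfl fun w _ => by ring
    simp_rw [e2]
    rw [integral_finsetSum]
    · refine Finset.sum_eq_zero fun w _ => ?_
      rw [integral_const_mul, hz k (Finset.mem_range.mp hk) w, mul_zero]
    · intro w _
      refine Integrable.const_mul ?_ _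
      -- integrability of g ph wd on low
      have hm : AEStronglyMeasurable (fun ξ => g ξ * ph ξ x₀ * (wd w ξ : ℂ)) volume :=
        (h1.aestronglyMeasurable.mul (ph_continuous x₀).aestronglyMeasurable).mul
          (Complex.continuous_ofReal.comp (wd_continuous w)).aestronglyMeasurable
      refine ((h1.norm.mul_const ((1 / r) ^ k)).integrableOn (s := low n r)).mono' hm.restrict ?_
      rw [ae_restrict_iff' (measurableSet_low r)]
      refine Eventually.of_forall fun ξ hξ => ?_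
      rw [norm_mul, norm_mul, ph_norm, mul_one, Complex.norm_real, Real.norm_eq_abs]
      gcongr
      refine (abs_wd_le w ξ).trans ?_
      gcongr
      have h6 := low_bound hr hξ
      rw [le_div_iff₀ hr]
      have h7 : 0 ≤ ‖ξ‖ * r := by positivity
      nlinarith [Real.pi_gt_three]
  rw [Finset.sum_eq_zero this, sub_zero]

end Pool.Agent.Helper47.LT
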