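import Pool.Agent.Helper47.LTCover

open MeasureTheory FourierTransform Filter Topology Real
open scoped ENNReal RealInnerProductSpace

namespace Pool.Agent.Helper47.LT

variable {n : ℕ}

lemma exists_kernel {ι κ : Type*} [Fintype ι] [Fintype κ]
    (h : Fintype.card κ < Fintype.card ι) (L : κ → ι → ℂ) :
    ∃ a : ι → ℂ, a ≠ 0 ∧ ∀ k, ∑ i, L k i * a i = 0 := by
  classical
  let f : (ι → ℂ) →ₗ[ℂ] (κ → ℂ) := (Matrix.of L).mulVecLin
  have hk : LinearMap.ker f ≠ ⊥ := by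
    apply LinearMap.ker_ne_bot_of_finrank_lt
    simpa using h
  obtain ⟨a, ha, ha0⟩ := (Submodule.ne_bot_iff _).mp hk
  refine ⟨a, ha0, fun k => ?_⟩
  have h1 : f a = 0 := LinearMap.mem_ker.mp ha
  have h2 := congrFun h1 k
  simpa [f, Matrix.mulVec, dotProduct] using h2

/-- a combinatorial consequence of Hall's theorem -/
lemma hall_sum {ι β : Type*} [Fintype ι] (k : ℕ) (B : Finset β) (e : ι → ℝ) (a : β → ℝ)
    (f : ℝ → ℝ) (hf0 : ∀ b ∈ B, 0 ≤ f (a b)) (hf : ∀ i, ∀ b ∈ B, e i < a b → f (e i) ≤ f (a b))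
    (h : ∀ i, (Finset.univ.filter fun i' => e i ≤ e i').card ≤ k * (B.filter fun b => e i < a b).card) :
    ∑ i, f (e i) ≤ k * ∑ b ∈ B, f (a b) := by
  classical
  let t : ι → Finset (β × Fin k) := fun i => (B.filter fun b => e i < a b) ×ˢ Finset.univ
  have hall : ∀ s : Finset ι, s.card ≤ (s.biUnion t).card := by
    intro s
    rcases s.eq_empty_or_nonempty with rfl | hs
    · simp
    · obtain ⟨i, hi, hmin⟩ := s.exists_min_image e hs
      calc s.card ≤ (Finset.univ.filter fun i' => e i ≤ e i').card := by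
            apply Finset.card_le_card
            intro i' hi'
            simp [hmin i' hi']
        _ ≤ k * (B.filter fun b => e i < a b).card := h i
        _ = (t i).card := by simp [t, mul_comm]
        _ ≤ (s.biUnion t).card := Finset.card_le_card (Finset.subset_biUnion_of_mem t hi)
  obtain ⟨F, hFinj, hF⟩ := (Finset.all_card_le_biUnion_card_iff_exists_injective t).mp hall
  have hF1 : ∀ i, (F i).1 ∈ B ∧ e i < a (F i).1 := by
    intro i
    have := hF i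
    simpa [t] using this
  calc ∑ i, f (e i) ≤ ∑ i, f (a (F i).1) :=
        Finset.sum_le_sum fun i _ => hf i _ (hF1 i).1 (hF1 i).2
    _ = ∑ p ∈ Finset.univ.image F, f (a p.1) := by
        rw [Finset.sum_image fun x _ y _ h => hFinj h]
    _ ≤ ∑ p ∈ B ×ˢ (Finset.univ : Finset (Fin k)), f (a p.1) := by
        apply Finset.sum_le_sum_of_subset_of_nonneg
        · intro p hp
          obtain ⟨i, _, rfl⟩ := Finset.mem_image.mp hp
          exact Finset.mem_product.mpr ⟨(hF1 i).1, Finset.mem_univ _⟩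
        · intro p hp _
          exact hf0 _ (Finset.mem_product.mp hp).1
    _ = k * ∑ b ∈ B, f (a b) := by
        rw [Finset.sum_product]
        simp [Finset.mul_sum]

/-- The Fourier transform of a function in `H^s`, `s > n/2`, is integrable. -/
lemma integrable_of_kinetic {s : ℝ} (hs : (n : ℝ) < 2 * s) {g : EuclideanSpace ℝ (Fin n) → ℂ}
    (h2 : MemLp g 2)
    (hT : Integrable fun ξ => (2 * π * ‖ξ‖) ^ (2 * s) * ‖g ξ‖ ^ 2) : Integrable g := by
  have hs0 : 0 < s := by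
    have : (0 : ℝ) ≤ n := by positivity
    linarith
  have hg2 : Integrable fun ξ => ‖g ξ‖ ^ 2 := h2.integrable_norm_pow (by norm_num)
  have hw : Integrable fun ξ : EuclideanSpace ℝ (Fin n) => ((1 : ℝ) + ‖ξ‖ ^ 2) ^ (-(2 * s) / 2) := by
    apply integrable_rpow_neg_one_add_norm_sq
    rw [finrank_euclideanSpace_fin]; exact hs
  -- pointwise bound ‖g‖ ≤ w + (1+|ξ|²)^s ‖g‖²
  have hb : ∀ ξ : EuclideanSpace ℝ (Fin n), ‖g ξ‖ ≤ ((1 : ℝ) + ‖ξ‖ ^ 2) ^ (-(2 * s) / 2) +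
      2 ^ s * (‖g ξ‖ ^ 2 + (2 * π * ‖ξ‖) ^ (2 * s) * ‖g ξ‖ ^ 2) := by
    intro ξ
    set p : ℝ := (1 + ‖ξ‖ ^ 2) ^ s with hp
    have hp0 : 0 < p := by positivity
    have hpinv : ((1 : ℝ) + ‖ξ‖ ^ 2) ^ (-(2 * s) / 2) = p⁻¹ := by
      rw [hp, ← Real.rpow_neg (by positivity)]
      congr 1; ring
    have h1 : ‖g ξ‖ ≤ p⁻¹ + p * ‖g ξ‖ ^ 2 := by
      have : 0 ≤ (1 - p * ‖g ξ‖) ^ 2 + p * ‖g ξ‖ := by positivity
      have h3 : p * ‖g ξ‖ ≤ 1 + p ^ 2 * ‖g ξ‖ ^ 2 := by nlinarith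
      calc ‖g ξ‖ = p⁻¹ * (p * ‖g ξ‖) := by field_simp
        _ ≤ p⁻¹ * (1 + p ^ 2 * ‖g ξ‖ ^ 2) := by gcongr
        _ = p⁻¹ + p * ‖g ξ‖ ^ 2 := by field_simp
    have h2 : p ≤ 2 ^ s * (1 + (2 * π * ‖ξ‖) ^ (2 * s)) := by
      rcases le_total ‖ξ‖ 1 with h | h
      · calc p ≤ 2 ^ s := by
              rw [hp]
              gcongr
              nlinarith [norm_nonneg ξ]
          _ ≤ 2 ^ s * (1 + (2 * π * ‖ξ‖) ^ (2 * s)) := by
              have : 0 ≤ (2 * π * ‖ξ‖) ^ (2 * s) := by positivity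
              have h2s : (0 : ℝ) < 2 ^ s := by positivity
              nlinarith
      · calc p ≤ (2 * ‖ξ‖ ^ 2) ^ s := by
              rw [hp]
              gcongr
              nlinarith
          _ = 2 ^ s * ‖ξ‖ ^ (2 * s) := by
              rw [Real.mul_rpow (by norm_num) (by positivity), ← Real.rpow_natCast,
                ← Real.rpow_mul (norm_nonneg _)]
              norm_num
          _ ≤ 2 ^ s * (1 + (2 * π * ‖ξ‖) ^ (2 * s)) := by
              gcongr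
              have : ‖ξ‖ ^ (2 * s) ≤ (2 * π * ‖ξ‖) ^ (2 * s) := by
                gcongr
                nlinarith [Real.pi_gt_three, norm_nonneg ξ]
              linarith
    calc ‖g ξ‖ ≤ p⁻¹ + p * ‖g ξ‖ ^ 2 := h1
      _ ≤ p⁻¹ + 2 ^ s * (1 + (2 * π * ‖ξ‖) ^ (2 * s)) * ‖g ξ‖ ^ 2 := by gcongr
      _ = _ := by rw [hpinv]; ring
  exact (hw.add ((hg2.add hT).const_mul (2 ^ s))).mono' h2.aestronglyMeasurable
    (Eventually.of_forall hb)

lemma moment_integrable {g : EuclideanSpace ℝ (Fin n) → ℂ} (h1 : Integrable g)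
    (x₀ : EuclideanSpace ℝ (Fin n)) {r : ℝ} (hr : 0 < r) {k : ℕ} (w : Fin k → Fin n) :
    IntegrableOn (fun ξ => g ξ * ph ξ x₀ * (wd w ξ : ℂ)) (low n r) := by
  have hm : AEStronglyMeasurable (fun ξ => g ξ * ph ξ x₀ * (wd w ξ : ℂ)) volume :=
    (h1.aestronglyMeasurable.mul (ph_continuous x₀).aestronglyMeasurable).mul
      (Complex.continuous_ofReal.comp (wd_continuous w)).aestronglyMeasurable
  refine ((h1.norm.mul_const ((1 / r) ^ k)).integrableOn (s := low n r)).mono' hm.restrict ?_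
  rw [ae_restrict_iff' (measurableSet_low r)]
  refine Eventually.of_forall fun ξ hξ => ?_
  rw [norm_mul, norm_mul, ph_norm, mul_one, Complex.norm_real, Real.norm_eq_abs]
  gcongr
  refine (abs_wd_le w ξ).trans ?_
  gcongr
  have h6 := low_bound hr hξ
  rw [le_div_iff₀ hr]
  have h7 : 0 ≤ ‖ξ‖ * r := by positivity
  nlinarith [Real.pi_gt_three]

/-- number of words of length `< M` -/
def kCount (n M : ℕ) : ℕ := Fintype.card (Σ k : Fin M, (Fin k → Fin n))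

lemma exists_moment_combination {ι β : Type*} [Fintype ι] (M : ℕ) (S : Finset β)
    (c : β → EuclideanSpace ℝ (Fin n)) (r : β → ℝ) (hr : ∀ b ∈ S, 0 < r b)
    (g : ι → EuclideanSpace ℝ (Fin n) → ℂ) (h1 : ∀ i, Integrable (g i))
    (hcard : kCount n M * S.card < Fintype.card ι) :
    ∃ a : ι → ℂ, a ≠ 0 ∧ ∀ b ∈ S, MomentZero M (fun ξ => ∑ i, a i * g i ξ) (c b) (r b) := by
  classical
  obtain ⟨a, ha0, ha⟩ := exists_kernel (ι := ι)
    (κ := (Σ k : Fin M, (Fin k → Fin n)) × S) (by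
      rw [Fintype.card_prod, Fintype.card_coe]; exact hcard)
    (fun p i => ∫ ξ in low n (r p.2), g i ξ * ph ξ (c p.2) * (wd p.1.2 ξ : ℂ))
  refine ⟨a, ha0, fun b hb k hk w => ?_⟩
  have h2 := ha (⟨⟨k, hk⟩, w⟩, ⟨b, hb⟩)
  simp only at h2
  have e : ∀ ξ, (∑ i, a i * g i ξ) * ph ξ (c b) * (wd w ξ : ℂ) =
      ∑ i, a i * (g i ξ * ph ξ (c b) * (wd w ξ : ℂ)) := by
    intro ξ
    rw [Finset.sum_mul, Finset.sum_mul]
    refine Finset.sum_congr rfl fun i _ => by ring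
  simp_rw [e]
  rw [integral_finsetSum _ fun i _ => (moment_integrable (h1 i) (c b) (hr b hb) w).const_mul _]
  simp_rw [integral_const_mul]
  rw [← h2]
  refine Finset.sum_congr rfl fun i _ => by ring

/-- The potential term is controlled on a large ball. -/
theorem potential_bound (hn : 0 < n) {s : ℝ} {M : ℕ} {ε : ℝ} (hε : 0 < ε) (hε1 : ε ≤ 2 * s - n)
    (hε2 : ε ≤ 2 * M - 2 * s) {w : EuclideanSpace ℝ (Fin n) → ℝ≥0∞} (hwm : AEMeasurable w)
    {N : ℕ} (S : Fin N → Finset (EuclideanSpace ℝ (Fin n)))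
    (r : EuclideanSpace ℝ (Fin n) → ℝ) (hr : ∀ x, 0 < r x)
    (hdisj : ∀ l, (S l : Set (EuclideanSpace ℝ (Fin n))).PairwiseDisjoint
        fun x => Metric.closedBall x (r x)) {R c₀ : ℝ} (hc₀ : 0 ≤ c₀)
    (hcov : Metric.closedBall 0 R ⊆ ⋃ l, ⋃ x ∈ S l, Metric.closedBall x (r x))
    (hmass : ∀ x, ∫⁻ y in Metric.closedBall x (r x), w y =
      ENNReal.ofReal (c₀ * r x ^ (-(2 * s - n))))
    {g : EuclideanSpace ℝ (Fin n) → ℂ} (h1 : Integrable g)
    (h2 : MemLp g 2) {ρ : ℝ} (hρ : 0 < ρ)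
    (hz : ∀ l, ∀ x ∈ S l, r x < ρ → MomentZero M g x (r x)) :
    ∫⁻ x in Metric.closedBall 0 R, w x * ‖𝓕⁻ g x‖ₑ ^ 2 ≤
      ENNReal.ofReal c₀ * (N * (3 * coreC n s M ε *
        (∫⁻ ξ, ENNReal.ofReal ((2 * π * ‖ξ‖) ^ (2 * s)) * ‖g ξ‖ₑ ^ 2) +
        lowC n * ENNReal.ofReal (ρ ^ (-2 * s)) * ∫⁻ ξ, ‖g ξ‖ₑ ^ 2)) := by
  set X := 3 * coreC n s M ε *
        (∫⁻ ξ, ENNReal.ofReal ((2 * π * ‖ξ‖) ^ (2 * s)) * ‖g ξ‖ₑ ^ 2) +
        lowC n * ENNReal.ofReal (ρ ^ (-2 * s)) * ∫⁻ ξ, ‖g ξ‖ₑ ^ 2 with hX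
  choose b hb hbs using fun l => form_bound hn hε hε1 hε2 h1 h2 (S l) (fun x => x) r
    (fun x _ => hr x) (hdisj l) hρ (hz l)
  calc ∫⁻ x in Metric.closedBall 0 R, w x * ‖𝓕⁻ g x‖ₑ ^ 2
      ≤ ∫⁻ x in ⋃ l, ⋃ x ∈ S l, Metric.closedBall x (r x), w x * ‖𝓕⁻ g x‖ₑ ^ 2 :=
        lintegral_mono_set hcov
    _ ≤ ∑' l, ∫⁻ x in ⋃ x ∈ S l, Metric.closedBall x (r x), w x * ‖𝓕⁻ g x‖ₑ ^ 2 :=
        lintegral_iUnion_le _ _
    _ = ∑ l, ∑ x ∈ S l, ∫⁻ y in Metric.closedBall x (r x), w y * ‖𝓕⁻ g y‖ₑ ^ 2 := by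
        rw [tsum_fintype]
        refine Finset.sum_congr rfl fun l _ => ?_
        rw [lintegral_biUnion_finset (hdisj l) fun x _ => measurableSet_closedBall]
    _ ≤ ∑ l, ∑ x ∈ S l, ENNReal.ofReal c₀ *
          (ENNReal.ofReal (r x ^ ((n : ℝ) - 2 * s)) * b l x) := by
        refine Finset.sum_le_sum fun l _ => Finset.sum_le_sum fun x hx => ?_
        calc ∫⁻ y in Metric.closedBall x (r x), w y * ‖𝓕⁻ g y‖ₑ ^ 2
            ≤ ∫⁻ y in Metric.closedBall x (r x), b l x * w y := by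
              refine setLIntegral_mono' measurableSet_closedBall fun y hy => ?_
              rw [mul_comm]
              exact mul_le_mul' (hb l x hx y hy) le_rfl
          _ = b l x * ∫⁻ y in Metric.closedBall x (r x), w y :=
              lintegral_const_mul'' _ hwm.restrict
          _ = _ := by
              rw [hmass x, ENNReal.ofReal_mul hc₀, neg_sub]
              ring
    _ = ∑ l : Fin N, ENNReal.ofReal c₀ *
          ∑ x ∈ S l, (ENNReal.ofReal (r x ^ ((n : ℝ) - 2 * s)) * b l x) := by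
        refine Finset.sum_congr rfl fun l _ => ?_
        rw [Finset.mul_sum]
    _ ≤ ∑ l : Fin N, ENNReal.ofReal c₀ * X :=
        Finset.sum_le_sum fun l _ => mul_le_mul' le_rfl (hbs l)
    _ = _ := by
        rw [Finset.sum_const, Finset.card_univ, Fintype.card_fin, nsmul_eq_mul]
        ring

end Pool.Agent.Helper47.LT
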