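import Pool.Agent.Helper47.LTMain

open MeasureTheory Filter Topology Real
open scoped ENNReal

namespace Pool.Agent.Helper47.LT

variable {n : ℕ}

lemma measure_ball_continuous (hn : 0 < n) (μ : Measure (EuclideanSpace ℝ (Fin n)))
    [IsFiniteMeasure μ] (hac : μ ≪ volume) (x : EuclideanSpace ℝ (Fin n)) :
    Continuous fun r : ℝ => (μ (Metric.closedBall x r)).toReal := by
  classical
  have hnt : Nontrivial (EuclideanSpace ℝ (Fin n)) := by
    have : NeZero n := ⟨hn.ne'⟩
    infer_instance
  have e : (fun r : ℝ => (μ (Metric.closedBall x r)).toReal) =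
      fun r : ℝ => ∫ y, (Metric.closedBall x r).indicator (fun _ => (1 : ℝ)) y ∂μ := by
    ext r
    rw [integral_indicator measurableSet_closedBall]
    simp [measureReal_def]
  rw [e, continuous_iff_continuousAt]
  intro r₀
  apply continuousAt_of_dominated (bound := fun _ => (1 : ℝ))
  · exact Eventually.of_forall fun r =>
      (measurable_const.indicator measurableSet_closedBall).aestronglyMeasurable
  · refine Eventually.of_forall fun r => Eventually.of_forall fun y => ?_
    rw [Set.indicator_apply]
    split_ifs <;> simp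
  · exact integrable_const _
  · have h0 : μ (Metric.sphere x r₀) = 0 := hac (Measure.addHaar_sphere volume x r₀)
    have h1 : ∀ᵐ y ∂μ, y ∉ Metric.sphere x r₀ := measure_eq_zero_iff_ae_notMem.mp h0
    filter_upwards [h1] with y hy
    have hy' : dist y x ≠ r₀ := hy
    rcases lt_or_gt_of_ne hy' with h | h
    · have : (fun r : ℝ => (Metric.closedBall x r).indicator (fun _ => (1 : ℝ)) y) =ᶠ[𝓝 r₀]
          fun _ => 1 := by
        filter_upwards [eventually_gt_nhds h] with r hr
        exact Set.indicator_of_mem (Metric.mem_closedBall.mpr hr.le) _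
      exact this.continuousAt
    · have : (fun r : ℝ => (Metric.closedBall x r).indicator (fun _ => (1 : ℝ)) y) =ᶠ[𝓝 r₀]
          fun _ => 0 := by
        filter_upwards [eventually_lt_nhds h] with r hr
        exact Set.indicator_of_notMem (by rw [Metric.mem_closedBall]; exact not_le.mpr hr) _
      exact this.continuousAt

lemma exists_big_ball (μ : Measure (EuclideanSpace ℝ (Fin n))) [IsFiniteMeasure μ]
    (hμ : μ Set.univ ≠ 0) : ∃ R₁ : ℝ, 0 ≤ R₁ ∧ (μ Set.univ).toReal / 2 ≤
      (μ (Metric.closedBall 0 R₁)).toReal := by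
  have h1 : Tendsto (fun k : ℕ => μ (Metric.closedBall (0 : EuclideanSpace ℝ (Fin n)) k)) atTop
      (𝓝 (μ (⋃ k : ℕ, Metric.closedBall (0 : EuclideanSpace ℝ (Fin n)) k))) := by
    apply tendsto_measure_iUnion_atTop
    intro i j hij
    exact Metric.closedBall_subset_closedBall (by exact_mod_cast hij)
  rw [Metric.iUnion_closedBall_nat] at h1
  have h2 := (ENNReal.tendsto_toReal (measure_ne_top μ _)).comp h1
  have hpos : 0 < (μ Set.univ).toReal := ENNReal.toReal_pos hμ (measure_ne_top _ _)
  have h3 : ∀ᶠ k : ℕ in atTop, (μ Set.univ).toReal / 2 <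
      (μ (Metric.closedBall (0 : EuclideanSpace ℝ (Fin n)) k)).toReal :=
    h2.eventually (lt_mem_nhds (by linarith))
  obtain ⟨k, hk⟩ := h3.exists
  exact ⟨k, by positivity, hk.le⟩

lemma exists_radius (hn : 0 < n) (μ : Measure (EuclideanSpace ℝ (Fin n)))
    [IsFiniteMeasure μ] (hac : μ ≪ volume) (hμ : μ Set.univ ≠ 0) {a c₀ : ℝ} (ha : 0 < a)
    (hc : 0 < c₀) (x : EuclideanSpace ℝ (Fin n)) :
    ∃ r : ℝ, 0 < r ∧ r ^ a * (μ (Metric.closedBall x r)).toReal = c₀ := by
  obtain ⟨R₁, hR₁, hbig⟩ := exists_big_ball μ hμ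
  have hpos : 0 < (μ Set.univ).toReal := ENNReal.toReal_pos hμ (measure_ne_top _ _)
  set B : ℝ := max (R₁ + ‖x‖) ((2 * c₀ / (μ Set.univ).toReal) ^ (1 / a)) with hB
  have hB0 : 0 ≤ B := le_max_of_le_left (by positivity)
  have hcont : ContinuousOn (fun r : ℝ => r ^ a * (μ (Metric.closedBall x r)).toReal)
      (Set.Icc 0 B) :=
    ((Real.continuous_rpow_const ha.le).mul
      (measure_ball_continuous hn μ hac x)).continuousOn
  have hlow : (fun r : ℝ => r ^ a * (μ (Metric.closedBall x r)).toReal) 0 = 0 := by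
    simp [Real.zero_rpow ha.ne']
  have hhigh : c₀ ≤ (fun r : ℝ => r ^ a * (μ (Metric.closedBall x r)).toReal) B := by
    simp only
    have h1 : (μ (Metric.closedBall (0 : EuclideanSpace ℝ (Fin n)) R₁)).toReal ≤
        (μ (Metric.closedBall x B)).toReal := by
      apply ENNReal.toReal_mono (measure_ne_top _ _)
      apply measure_mono
      apply Metric.closedBall_subset_closedBall'
      rw [dist_zero_left]
      exact le_max_left _ _
    have h2 : 2 * c₀ / (μ Set.univ).toReal ≤ B ^ a := by
      calc 2 * c₀ / (μ Set.univ).toReal = ((2 * c₀ / (μ Set.univ).toReal) ^ (1 / a)) ^ a := by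
            rw [← Real.rpow_mul (by positivity), one_div_mul_cancel ha.ne', Real.rpow_one]
        _ ≤ B ^ a := by
            gcongr
            exact le_max_right _ _
    calc c₀ = (2 * c₀ / (μ Set.univ).toReal) * ((μ Set.univ).toReal / 2) := by
          field_simp
      _ ≤ B ^ a * (μ (Metric.closedBall x B)).toReal := by
          gcongr
          exact hbig.trans h1
  have hmem : c₀ ∈ Set.Icc ((fun r : ℝ => r ^ a * (μ (Metric.closedBall x r)).toReal) 0)
      ((fun r : ℝ => r ^ a * (μ (Metric.closedBall x r)).toReal) B) :=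
    ⟨by rw [hlow]; exact hc.le, hhigh⟩
  obtain ⟨r, hr, hrc⟩ := intermediate_value_Icc hB0 hcont hmem
  refine ⟨r, ?_, hrc⟩
  rcases hr.1.lt_or_eq with h | h
  · exact h
  · exfalso
    rw [← h] at hrc
    rw [hlow] at hrc
    exact hc.ne hrc

theorem exists_cover (hn : 0 < n) (μ : Measure (EuclideanSpace ℝ (Fin n)))
    [IsFiniteMeasure μ] (hac : μ ≪ volume) (hμ : μ Set.univ ≠ 0) {a c₀ : ℝ} (ha : 0 < a)
    (hc : 0 < c₀) (R : ℝ) :
    ∃ (s : Fin (Besicovitch.multiplicity (EuclideanSpace ℝ (Fin n))) →
        Finset (EuclideanSpace ℝ (Fin n))) (r : EuclideanSpace ℝ (Fin n) → ℝ),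
      (∀ x, 0 < r x) ∧
      (∀ l, (s l : Set (EuclideanSpace ℝ (Fin n))).PairwiseDisjoint
        fun x => Metric.closedBall x (r x)) ∧
      (Metric.closedBall 0 R ⊆ ⋃ l, ⋃ x ∈ s l, Metric.closedBall x (r x)) ∧
      ∀ x, μ (Metric.closedBall x (r x)) = ENNReal.ofReal (c₀ * r x ^ (-a)) := by
  classical
  choose r hr0 hr using exists_radius hn μ hac hμ ha hc
  have hpos : 0 < (μ Set.univ).toReal := ENNReal.toReal_pos hμ (measure_ne_top _ _)
  obtain ⟨R₁, hR₁, hbig⟩ := exists_big_ball μ hμ
  set B : ℝ := max (R₁ + |R|) ((2 * c₀ / (μ Set.univ).toReal) ^ (1 / a)) with hB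
  -- upper bound for the radii
  have hupper : ∀ x ∈ Metric.closedBall (0 : EuclideanSpace ℝ (Fin n)) R, r x ≤ B := by
    intro x hx
    by_contra hlt
    push Not at hlt
    have hxR : ‖x‖ ≤ |R| := by
      have : ‖x‖ ≤ R := by simpa using hx
      exact this.trans (le_abs_self R)
    have h1 : (μ (Metric.closedBall (0 : EuclideanSpace ℝ (Fin n)) R₁)).toReal ≤
        (μ (Metric.closedBall x (r x))).toReal := by
      apply ENNReal.toReal_mono (measure_ne_top _ _)
      apply measure_mono
      apply Metric.closedBall_subset_closedBall'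
      rw [dist_zero_left]
      have : R₁ + |R| ≤ B := le_max_left _ _
      linarith
    have h2 : (2 * c₀ / (μ Set.univ).toReal) < r x ^ a := by
      calc 2 * c₀ / (μ Set.univ).toReal = ((2 * c₀ / (μ Set.univ).toReal) ^ (1 / a)) ^ a := by
            rw [← Real.rpow_mul (by positivity), one_div_mul_cancel ha.ne', Real.rpow_one]
        _ ≤ B ^ a := by
            gcongr
            exact le_max_right _ _
        _ < r x ^ a := by
            apply Real.rpow_lt_rpow _ hlt ha
            exact le_max_of_le_left (by positivity)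
    have h3 : c₀ < r x ^ a * (μ (Metric.closedBall x (r x))).toReal := by
      calc c₀ = (2 * c₀ / (μ Set.univ).toReal) * ((μ Set.univ).toReal / 2) := by
            field_simp
        _ < r x ^ a * ((μ Set.univ).toReal / 2) := by gcongr
        _ ≤ _ := by
            have := Real.rpow_nonneg (hr0 x).le a
            gcongr
            exact hbig.trans h1
    rw [hr x] at h3
    exact lt_irrefl _ h3
  -- lower bound for the radii
  set b : ℝ := (c₀ / (μ Set.univ).toReal) ^ (1 / a) with hb
  have hb0 : 0 < b := by positivity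
  have hlower : ∀ x, b ≤ r x := by
    intro x
    have h1 : (μ (Metric.closedBall x (r x))).toReal ≤ (μ Set.univ).toReal :=
      ENNReal.toReal_mono (measure_ne_top _ _) (measure_mono (Set.subset_univ _))
    have h2 : c₀ / (μ Set.univ).toReal ≤ r x ^ a := by
      rw [div_le_iff₀ hpos, ← hr x]
      have := Real.rpow_nonneg (hr0 x).le a
      gcongr
    calc b ≤ (r x ^ a) ^ (1 / a) := by
          rw [hb]; gcongr
      _ = r x := by
          rw [← Real.rpow_mul (hr0 x).le, mul_one_div_cancel ha.ne', Real.rpow_one]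
  -- Besicovitch
  let q : Besicovitch.BallPackage (Metric.closedBall (0 : EuclideanSpace ℝ (Fin n)) R)
      (EuclideanSpace ℝ (Fin n)) :=
    { c := fun x => x
      r := fun x => r x
      rpos := fun x => hr0 x
      r_bound := B
      r_le := fun x => hupper x x.2 }
  obtain ⟨s, hs1, hs2⟩ := Besicovitch.exist_disjoint_covering_families
    (Besicovitch.one_lt_goodτ (EuclideanSpace ℝ (Fin n)))
    (Besicovitch.isEmpty_satelliteConfig_multiplicity (EuclideanSpace ℝ (Fin n))) q
  have hfin : ∀ l, (s l).Finite := by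
    intro l
    set ε := volume (Metric.closedBall (0 : EuclideanSpace ℝ (Fin n)) b) with hε
    have hε0 : 0 < ε := Metric.measure_closedBall_pos _ _ hb0
    have hmain := Measure.finite_const_le_meas_of_disjoint_iUnion
      (volume : Measure (EuclideanSpace ℝ (Fin n))) (ι := s l) (ε := ε) hε0
      (As := fun x => Metric.closedBall ((x : Metric.closedBall (0 : EuclideanSpace ℝ (Fin n)) R)
        : EuclideanSpace ℝ (Fin n)) (r x)) (fun x => measurableSet_closedBall) (by
        intro x y hxy
        exact hs1 l x.2 y.2 (fun h => hxy (Subtype.ext h))) (by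
        refine ne_top_of_le_ne_top (measure_closedBall_lt_top (x := 0) (r := |R| + B)).ne
          (measure_mono (Set.iUnion_subset fun x => ?_))
        apply Metric.closedBall_subset_closedBall'
        have h1 := hupper x x.1.2
        have h2 : dist ((x : Metric.closedBall (0 : EuclideanSpace ℝ (Fin n)) R)
          : EuclideanSpace ℝ (Fin n)) 0 ≤ R := x.1.2
        have h3 := le_abs_self R
        linarith)
    have huniv : {x : s l | ε ≤ volume (Metric.closedBall
        ((x : Metric.closedBall (0 : EuclideanSpace ℝ (Fin n)) R)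
        : EuclideanSpace ℝ (Fin n)) (r x))} = Set.univ := by
      ext x
      simp only [Set.mem_univ, iff_true]
      change ε ≤ _
      rw [hε, ← Measure.addHaar_closedBall_center volume
        ((x : Metric.closedBall (0 : EuclideanSpace ℝ (Fin n)) R) : EuclideanSpace ℝ (Fin n)) b]
      exact measure_mono (Metric.closedBall_subset_closedBall (hlower _))
    rw [huniv] at hmain
    have := Set.finite_univ_iff.mp hmain
    exact Set.toFinite _
  refine ⟨fun l => ((hfin l).toFinset).image Subtype.val, r, hr0, ?_, ?_, ?_⟩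
  · intro l x hx y hy hxy
    simp only [Finset.coe_image, Set.mem_image, SetLike.mem_coe, Set.Finite.mem_toFinset] at hx hy
    obtain ⟨x', hx', rfl⟩ := hx
    obtain ⟨y', hy', rfl⟩ := hy
    exact hs1 l hx' hy' (fun h => hxy (by rw [h]))
  · intro x hx
    have h1 : x ∈ Set.range q.c := ⟨⟨x, hx⟩, rfl⟩
    have h2 := hs2 h1
    simp only [Set.mem_iUnion] at h2 ⊢
    obtain ⟨l, y, hy, hxy⟩ := h2
    refine ⟨l, y, ?_, Metric.ball_subset_closedBall hxy⟩
    exact Finset.mem_image.mpr ⟨y, (hfin l).mem_toFinset.mpr hy, rfl⟩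
  · intro x
    rw [← ENNReal.ofReal_toReal (measure_ne_top μ (Metric.closedBall x (r x)))]
    congr 1
    have h1 : r x ^ (-a) * r x ^ a = 1 := by
      rw [← Real.rpow_add (hr0 x)]; simp
    calc (μ (Metric.closedBall x (r x))).toReal = (r x ^ (-a) * r x ^ a) *
          (μ (Metric.closedBall x (r x))).toReal := by rw [h1, one_mul]
      _ = c₀ * r x ^ (-a) := by rw [← hr x]; ring

end Pool.Agent.Helper47.LT
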