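import Mathlib
import Pool.Agent.Helper47.LTCount

open MeasureTheory FourierTransform Filter Topology Real
open scoped ENNReal ComplexConjugate

namespace Pool.Agent.Helper47.LTFinal

/-- `ℝⁿ` with the Euclidean norm. -/
abbrev Rn (n : ℕ) := EuclideanSpace ℝ (Fin n)

/-- The complex Hilbert space `L²(ℝⁿ)`. -/
noncomputable abbrev L2 (n : ℕ) := Lp ℂ 2 (volume : Measure (Rn n))

/-- The symbol of `(-Δ)^s` in terms of the Mathlib Fourier transform
`𝓕 u (ξ) = ∫ e^{-2πi⟨x,ξ⟩} u(x) dx`: it is `(2π|ξ|)^(2s)`. -/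
noncomputable def symb {n : ℕ} (s : ℝ) (ξ : Rn n) : ℝ := (2 * π * ‖ξ‖) ^ (2 * s)

/-- Admissible potentials: `V₊ ∈ L¹(ℝⁿ)` and `V₋` locally integrable. -/
structure Admissible {n : ℕ} (V : Rn n → ℝ) : Prop where
  pos : Integrable fun x => max (V x) 0
  neg : LocallyIntegrable fun x => max (-V x) 0

/-- The domain of the quadratic form of `(-Δ)^s - V`: all `u ∈ L²` with
`∫ (2π|ξ|)^(2s) |û(ξ)|² dξ < ∞` and `∫ V₋ |u|² < ∞`. -/
def formDomain {n : ℕ} (s : ℝ) (V : Rn n → ℝ) : Set (L2 n) :=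
  {u | Integrable (fun ξ => symb s ξ * ‖(𝓕 u : L2 n) ξ‖ ^ 2) ∧
    Integrable (fun x => max (-V x) 0 * ‖u x‖ ^ 2)}

/-- The sesquilinear form of `(-Δ)^s - V` (conjugate linear in the first variable):
`∫ (2π|ξ|)^(2s) conj(v̂(ξ)) û(ξ) dξ - ∫ V(x) conj(v(x)) u(x) dx`. -/
noncomputable def form {n : ℕ} (s : ℝ) (V : Rn n → ℝ) (v u : L2 n) : ℂ :=
  (∫ ξ, (symb s ξ : ℂ) * (conj ((𝓕 v : L2 n) ξ) * (𝓕 u : L2 n) ξ)) -
    ∫ x, (V x : ℂ) * (conj (v x) * u x)

/-- `H u = E u` for the operator `H = (-Δ)^s - V` defined by its quadratic form: `u` belongs to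
the form domain and `h(v,u) = E ⟨v,u⟩` for all `v` in the form domain. -/
def IsEigenfunction {n : ℕ} (s : ℝ) (V : Rn n → ℝ) (E : ℝ) (u : L2 n) : Prop :=
  u ∈ formDomain s V ∧ ∀ v ∈ formDomain s V, form s V v u = E * inner ℂ v u

/-- The eigenspace of `H = (-Δ)^s - V` for the number `E` (for admissible `V` and `2s > n` the set
of the solutions of `H u = E u` is already a linear subspace). -/
noncomputable def eigenspace {n : ℕ} (s : ℝ) (V : Rn n → ℝ) (E : ℝ) : Submodule ℂ (L2 n) :=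
  Submodule.span ℂ {u | IsEigenfunction s V E u}

/-- The multiplicity of `E` as an eigenvalue of `H = (-Δ)^s - V`, in `{0,1,2,…,∞}`
(it is `0` when `E` is not an eigenvalue). -/
noncomputable def multiplicity {n : ℕ} (s : ℝ) (V : Rn n → ℝ) (E : ℝ) : ℕ∞ :=
  Cardinal.toENat (Module.rank ℂ (eigenspace s V E))

/-- `tr H_-^γ = ∑_j |E_j|^γ` over the negative eigenvalues of `H = (-Δ)^s - V`, counted with
multiplicity, in `[0,∞]`. -/
noncomputable def traceNeg {n : ℕ} (s : ℝ) (V : Rn n → ℝ) (γ : ℝ) : ℝ≥0∞ :=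
  ∑' E : Set.Iio (0 : ℝ), ((multiplicity s V E : ℕ∞) : ℝ≥0∞) * ENNReal.ofReal (|(E : ℝ)| ^ γ)

open Pool.Agent.Helper47.LT

section

variable {n : ℕ} {s : ℝ} {V : Rn n → ℝ}

lemma fourier_integrable (hs : (n : ℝ) < 2 * s) {u : L2 n} (hu : u ∈ formDomain s V) :
    Integrable ((𝓕 u : L2 n) : Rn n → ℂ) :=
  integrable_of_kinetic hs (Lp.memLp _) hu.1

/-- elements of the form domain are given by the inverse Fourier integral -/
lemma ae_eq_fourierInv {u : L2 n} {g : Rn n → ℂ} (hg1 : Integrable g)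
    (hg : ((𝓕 u : L2 n) : Rn n → ℂ) =ᵐ[volume] g) : (u : Rn n → ℂ) =ᵐ[volume] 𝓕⁻ g := by
  have h2 : MemLp ((𝓕 u : L2 n) : Rn n → ℂ) 2 := Lp.memLp _
  have h1 : Integrable ((𝓕 u : L2 n) : Rn n → ℂ) := hg1.congr hg.symm
  have h := fourierInv_toLp_ae h1 h2
  rw [Lp.toLp_coeFn, FourierPair.fourierInv_fourier_eq] at h
  refine h.trans (Eventually.of_forall fun x => ?_)
  exact Real.fourierInv_congr_ae hg x

lemma posPart_integrable (hs : (n : ℝ) < 2 * s) (hV : Admissible V) {u : L2 n}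
    (hu : u ∈ formDomain s V) : Integrable fun x => max (V x) 0 * ‖u x‖ ^ 2 := by
  have h1 := fourier_integrable hs hu
  have h2 := ae_eq_fourierInv h1 (u := u) (Eventually.of_forall fun _ => rfl)
  set C := ∫ ξ, ‖(𝓕 u : L2 n) ξ‖ with hC
  refine (hV.pos.mul_const (C ^ 2)).mono' ?_ ?_
  · exact hV.pos.aestronglyMeasurable.mul ((Lp.aestronglyMeasurable u).norm.pow 2)
  · filter_upwards [h2] with x hx
    rw [norm_mul, norm_pow, norm_norm, Real.norm_of_nonneg (le_max_right _ _)]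
    have h3 := norm_fourierInv_le (g := ((𝓕 u : L2 n) : Rn n → ℂ)) x
    rw [← hx] at h3
    gcongr

lemma abs_eq_max (a : ℝ) : |a| = max a 0 + max (-a) 0 := by
  rcases le_total 0 a with h | h
  · rw [abs_of_nonneg h, max_eq_left h, max_eq_right (by linarith)]; ring
  · rw [abs_of_nonpos h, max_eq_right h, max_eq_left (by linarith)]; ring

lemma eq_max_sub (a : ℝ) : a = max a 0 - max (-a) 0 := by
  rcases le_total 0 a with h | h
  · rw [max_eq_left h, max_eq_right (by linarith)]; ring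
  · rw [max_eq_right h, max_eq_left (by linarith)]; ring

lemma V_measurable (hV : Admissible V) : AEStronglyMeasurable V volume := by
  have : V = fun x => max (V x) 0 - max (-V x) 0 := funext fun x => eq_max_sub (V x)
  rw [this]
  exact hV.pos.aestronglyMeasurable.sub hV.neg.aestronglyMeasurable

lemma absV_integrable (hs : (n : ℝ) < 2 * s) (hV : Admissible V) {u : L2 n}
    (hu : u ∈ formDomain s V) : Integrable fun x => |V x| * ‖u x‖ ^ 2 := by
  have := (posPart_integrable hs hV hu).add hu.2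
  refine this.congr (Eventually.of_forall fun x => ?_)
  simp only [Pi.add_apply]
  rw [abs_eq_max]; ring

lemma kinetic_integrable {u v : L2 n} (hu : u ∈ formDomain s V) (hv : v ∈ formDomain s V) :
    Integrable fun ξ => (symb s ξ : ℂ) * (conj ((𝓕 v : L2 n) ξ) * (𝓕 u : L2 n) ξ) := by
  have hm : Measurable fun ξ : Rn n => (symb s ξ : ℂ) := by
    unfold symb
    fun_prop
  refine (hu.1.add hv.1).mono' ?_ (Eventually.of_forall fun ξ => ?_)
  · refine hm.aestronglyMeasurable.mul ?_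
    exact (Lp.aestronglyMeasurable (𝓕 v : L2 n)).star.mul (Lp.aestronglyMeasurable (𝓕 u : L2 n))
  · have h0 : 0 ≤ symb s ξ := by unfold symb; positivity
    rw [norm_mul, norm_mul, Complex.norm_real, Real.norm_of_nonneg h0, RCLike.norm_conj,
      Pi.add_apply, ← mul_add]
    gcongr
    nlinarith [sq_nonneg (‖(𝓕 u : L2 n) ξ‖ - ‖(𝓕 v : L2 n) ξ‖), norm_nonneg ((𝓕 u : L2 n) ξ),
      norm_nonneg ((𝓕 v : L2 n) ξ)]

lemma potential_integrable (hs : (n : ℝ) < 2 * s) (hV : Admissible V) {u v : L2 n}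
    (hu : u ∈ formDomain s V) (hv : v ∈ formDomain s V) :
    Integrable fun x => (V x : ℂ) * (conj (v x) * u x) := by
  refine ((absV_integrable hs hV hu).add (absV_integrable hs hV hv)).mono' ?_
    (Eventually.of_forall fun x => ?_)
  · refine (Complex.continuous_ofReal.comp_aestronglyMeasurable (V_measurable hV)).mul ?_
    exact (Lp.aestronglyMeasurable v).star.mul (Lp.aestronglyMeasurable u)
  · rw [norm_mul, norm_mul, Complex.norm_real, RCLike.norm_conj, Real.norm_eq_abs,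
      Pi.add_apply, ← mul_add]
    gcongr
    nlinarith [sq_nonneg (‖u x‖ - ‖v x‖), norm_nonneg (u x), norm_nonneg (v x)]

lemma zero_mem : (0 : L2 n) ∈ formDomain s V := by
  constructor
  · have h : (𝓕 (0 : L2 n) : L2 n) = 0 := (Lp.fourierTransformₗᵢ (Rn n) ℂ).map_zero
    rw [h]
    refine (integrable_zero _ _ _).congr ?_
    filter_upwards [Lp.coeFn_zero ℂ 2 (volume : Measure (Rn n))] with ξ hξ
    rw [hξ]; simp
  · refine (integrable_zero _ _ _).congr ?_
    filter_upwards [Lp.coeFn_zero ℂ 2 (volume : Measure (Rn n))] with ξ hξ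
    rw [hξ]; simp

lemma add_mem' {u v : L2 n} (hu : u ∈ formDomain s V) (hv : v ∈ formDomain s V)
    (hVm : AEStronglyMeasurable V volume) :
    u + v ∈ formDomain s V := by
  have key : ∀ a b : ℂ, ‖a + b‖ ^ 2 ≤ 2 * ‖a‖ ^ 2 + 2 * ‖b‖ ^ 2 := by
    intro a b
    have := norm_add_le a b
    nlinarith [norm_nonneg (a + b), norm_nonneg a, norm_nonneg b, sq_nonneg (‖a‖ - ‖b‖)]
  constructor
  · have h : (𝓕 (u + v) : L2 n) = 𝓕 u + 𝓕 v := (Lp.fourierTransformₗᵢ (Rn n) ℂ).map_add u v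
    have hm : Measurable fun ξ : Rn n => symb s ξ := by unfold symb; fun_prop
    refine ((hu.1.const_mul 2).add (hv.1.const_mul 2)).mono' ?_ ?_
    · exact hm.aestronglyMeasurable.mul ((Lp.aestronglyMeasurable _).norm.pow 2)
    · rw [h]
      filter_upwards [Lp.coeFn_add (𝓕 u : L2 n) (𝓕 v : L2 n)] with ξ hξ
      have h0 : 0 ≤ symb s ξ := by unfold symb; positivity
      rw [hξ, norm_mul, norm_pow, norm_norm, Real.norm_of_nonneg h0]
      simp only [Pi.add_apply]
      have := mul_le_mul_of_nonneg_left (key ((𝓕 u : L2 n) ξ) ((𝓕 v : L2 n) ξ)) h0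
      linarith
  · refine ((hu.2.const_mul 2).add (hv.2.const_mul 2)).mono' ?_ ?_
    · refine AEStronglyMeasurable.mul ?_ ((Lp.aestronglyMeasurable _).norm.pow 2)
      exact (continuous_id.max continuous_const).comp_aestronglyMeasurable hVm.neg
    · filter_upwards [Lp.coeFn_add u v] with x hx
      have h0 : 0 ≤ max (-V x) 0 := le_max_right _ _
      rw [hx, norm_mul, norm_pow, norm_norm, Real.norm_of_nonneg h0]
      simp only [Pi.add_apply]
      have := mul_le_mul_of_nonneg_left (key (u x) (v x)) h0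
      linarith

lemma smul_mem' {u : L2 n} (hu : u ∈ formDomain s V) (c : ℂ) : c • u ∈ formDomain s V := by
  constructor
  · have h : (𝓕 (c • u) : L2 n) = c • 𝓕 u := (Lp.fourierTransformₗᵢ (Rn n) ℂ).map_smul c u
    rw [h]
    refine (hu.1.const_mul (‖c‖ ^ 2)).congr ?_
    filter_upwards [Lp.coeFn_smul c (𝓕 u : L2 n)] with ξ hξ
    rw [hξ, Pi.smul_apply, smul_eq_mul, norm_mul]
    ring
  · refine (hu.2.const_mul (‖c‖ ^ 2)).congr ?_
    filter_upwards [Lp.coeFn_smul c u] with x hx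
    rw [hx, Pi.smul_apply, smul_eq_mul, norm_mul]
    ring

lemma form_add_right (hs : (n : ℝ) < 2 * s) (hV : Admissible V) {u u' v : L2 n}
    (hu : u ∈ formDomain s V) (hu' : u' ∈ formDomain s V) (hv : v ∈ formDomain s V) :
    form s V v (u + u') = form s V v u + form s V v u' := by
  unfold form
  have h : (𝓕 (u + u') : L2 n) = 𝓕 u + 𝓕 u' := (Lp.fourierTransformₗᵢ (Rn n) ℂ).map_add u u'
  have e1 : ∫ ξ, (symb s ξ : ℂ) * (conj ((𝓕 v : L2 n) ξ) * (𝓕 (u + u') : L2 n) ξ) =
      (∫ ξ, (symb s ξ : ℂ) * (conj ((𝓕 v : L2 n) ξ) * (𝓕 u : L2 n) ξ)) +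
      ∫ ξ, (symb s ξ : ℂ) * (conj ((𝓕 v : L2 n) ξ) * (𝓕 u' : L2 n) ξ) := by
    rw [← integral_add (kinetic_integrable hu hv) (kinetic_integrable hu' hv), h]
    apply integral_congr_ae
    filter_upwards [Lp.coeFn_add (𝓕 u : L2 n) (𝓕 u' : L2 n)] with ξ hξ
    rw [hξ, Pi.add_apply]; ring
  have e2 : ∫ x, (V x : ℂ) * (conj (v x) * (u + u' : L2 n) x) =
      (∫ x, (V x : ℂ) * (conj (v x) * u x)) + ∫ x, (V x : ℂ) * (conj (v x) * u' x) := by
    rw [← integral_add (potential_integrable hs hV hu hv) (potential_integrable hs hV hu' hv)]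
    apply integral_congr_ae
    filter_upwards [Lp.coeFn_add u u'] with x hx
    rw [hx, Pi.add_apply]; ring
  rw [e1, e2]; ring

lemma form_smul_right {u v : L2 n} (c : ℂ) :
    form s V v (c • u) = c * form s V v u := by
  unfold form
  have h : (𝓕 (c • u) : L2 n) = c • 𝓕 u := (Lp.fourierTransformₗᵢ (Rn n) ℂ).map_smul c u
  rw [mul_sub, ← integral_const_mul, ← integral_const_mul, h]
  congr 1
  · apply integral_congr_ae
    filter_upwards [Lp.coeFn_smul c (𝓕 u : L2 n)] with ξ hξ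
    rw [hξ, Pi.smul_apply, smul_eq_mul]; ring
  · apply integral_congr_ae
    filter_upwards [Lp.coeFn_smul c u] with x hx
    rw [hx, Pi.smul_apply, smul_eq_mul]; ring

lemma form_conj (u v : L2 n) : conj (form s V v u) = form s V u v := by
  unfold form
  rw [map_sub, ← integral_conj, ← integral_conj]
  congr 1
  · congr 1; ext ξ
    simp only [map_mul, Complex.conj_ofReal, Complex.conj_conj]; ring
  · congr 1; ext ξ
    simp only [map_mul, Complex.conj_ofReal, Complex.conj_conj]; ring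

lemma isEigenfunction_add (hs : (n : ℝ) < 2 * s) (hV : Admissible V) {E : ℝ} {u u' : L2 n}
    (hu : IsEigenfunction s V E u) (hu' : IsEigenfunction s V E u') :
    IsEigenfunction s V E (u + u') := by
  refine ⟨add_mem' hu.1 hu'.1 (V_measurable hV), fun v hv => ?_⟩
  rw [form_add_right hs hV hu.1 hu'.1 hv, hu.2 v hv, hu'.2 v hv, inner_add_right]
  ring

lemma isEigenfunction_smul {E : ℝ} {u : L2 n} (hu : IsEigenfunction s V E u) (c : ℂ) :
    IsEigenfunction s V E (c • u) := by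
  refine ⟨smul_mem' hu.1 c, fun v hv => ?_⟩
  rw [form_smul_right, hu.2 v hv, inner_smul_right]
  ring

lemma isEigenfunction_zero {E : ℝ} : IsEigenfunction s V E (0 : L2 n) := by
  refine ⟨zero_mem, fun v _ => ?_⟩
  have h : form s V v (0 : L2 n) = 0 := by
    have := form_smul_right (s := s) (V := V) (u := (0 : L2 n)) (v := v) 0
    simpa using this
  rw [h, inner_zero_right, mul_zero]

lemma mem_eigenspace_iff (hs : (n : ℝ) < 2 * s) (hV : Admissible V) {E : ℝ} {u : L2 n} :
    u ∈ eigenspace s V E ↔ IsEigenfunction s V E u := by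
  constructor
  · intro h
    refine Submodule.span_induction (p := fun u _ => IsEigenfunction s V E u) (fun u hu => hu)
      isEigenfunction_zero (fun u v _ _ hu hv => isEigenfunction_add hs hV hu hv)
      (fun c u _ hu => isEigenfunction_smul hu c) h
  · exact fun h => Submodule.subset_span h

lemma orthogonal_of_ne {E E' : ℝ} (hE : E ≠ E') {u v : L2 n} (hu : IsEigenfunction s V E u)
    (hv : IsEigenfunction s V E' v) : inner ℂ v u = 0 := by
  have h1 := hu.2 v hv.1
  have h2 := hv.2 u hu.1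
  have h3 := form_conj (s := s) (V := V) v u
  rw [h2, h1] at h3
  simp only [map_mul, Complex.conj_ofReal, inner_conj_symm] at h3
  have h4 : ((E' : ℂ) - E) * inner ℂ v u = 0 := by rw [sub_mul, h3, sub_self]
  rcases mul_eq_zero.mp h4 with h | h
  · exfalso
    apply hE
    have : (E' : ℂ) = E := sub_eq_zero.mp h
    exact_mod_cast this.symm
  · exact h

lemma lintegral_Lp_sq (f : L2 n) : ∫⁻ x, ‖f x‖ₑ ^ 2 = ENNReal.ofReal (‖f‖ ^ 2) := by
  have := eLpNorm_nnreal_pow_eq_lintegral (μ := (volume : Measure (Rn n))) (f := (f : Rn n → ℂ))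
    (p := 2) (by norm_num)
  simp only [NNReal.coe_ofNat, ENNReal.coe_ofNat, ENNReal.rpow_ofNat] at this
  rw [← this, ENNReal.ofReal_pow (norm_nonneg _), ofReal_norm, Lp.enorm_def]

lemma enorm_sq_eq (z : ℂ) : ‖z‖ₑ ^ 2 = ENNReal.ofReal (‖z‖ ^ 2) := by
  rw [ENNReal.ofReal_pow (norm_nonneg _), ofReal_norm]

/-- the real part of the form on the diagonal -/
lemma form_self_ge (hs : (n : ℝ) < 2 * s) (hV : Admissible V) {u : L2 n}
    (hu : u ∈ formDomain s V) :
    (∫ ξ, symb s ξ * ‖(𝓕 u : L2 n) ξ‖ ^ 2) - ∫ x, max (V x) 0 * ‖u x‖ ^ 2 ≤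
      (form s V u u).re := by
  have hc : ∀ z : ℂ, conj z * z = ((‖z‖ ^ 2 : ℝ) : ℂ) := by
    intro z; rw [← Complex.normSq_eq_conj_mul_self, Complex.normSq_eq_norm_sq]
  have e1 : ∫ ξ, (symb s ξ : ℂ) * (conj ((𝓕 u : L2 n) ξ) * (𝓕 u : L2 n) ξ) =
      ((∫ ξ, symb s ξ * ‖(𝓕 u : L2 n) ξ‖ ^ 2 : ℝ) : ℂ) := by
    rw [← integral_complex_ofReal]
    congr 1; ext ξ; rw [hc]; push_cast; rfl
  have e2 : ∫ x, (V x : ℂ) * (conj (u x) * u x) = ((∫ x, V x * ‖u x‖ ^ 2 : ℝ) : ℂ) := by
    rw [← integral_complex_ofReal]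
    congr 1; ext ξ; rw [hc]; push_cast; rfl
  have e3 : ∫ x, V x * ‖u x‖ ^ 2 ≤ ∫ x, max (V x) 0 * ‖u x‖ ^ 2 := by
    apply integral_mono
    · refine (absV_integrable hs hV hu).mono' ?_ (Eventually.of_forall fun x => ?_)
      · exact (V_measurable hV).mul ((Lp.aestronglyMeasurable u).norm.pow 2)
      · rw [norm_mul, norm_pow, norm_norm, Real.norm_eq_abs]
    · exact posPart_integrable hs hV hu
    · intro x
      simp only
      gcongr
      exact le_max_left _ _
  unfold form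
  rw [e1, e2, ← Complex.ofReal_sub, Complex.ofReal_re]
  linarith

/-- finite linear combinations -/
lemma fourier_combination {ι : Type*} [Fintype ι] (a : ι → ℂ) (u : ι → L2 n) :
    ((𝓕 (∑ i, a i • u i : L2 n) : L2 n) : Rn n → ℂ) =ᵐ[volume]
      fun ξ => ∑ i, a i * (𝓕 (u i) : L2 n) ξ := by
  have h : (𝓕 (∑ i, a i • u i : L2 n) : L2 n) = ∑ i, a i • (𝓕 (u i) : L2 n) := by
    change (Lp.fourierTransformₗᵢ (Rn n) ℂ) (∑ i, a i • u i) =
      ∑ i, a i • (Lp.fourierTransformₗᵢ (Rn n) ℂ) (u i)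
    rw [map_sum]
    refine Finset.sum_congr rfl fun i _ => ?_
    rw [map_smul]
  rw [h]
  refine (Lp.coeFn_finsetSum _ _).trans ?_
  have h2 : ∀ᵐ ξ ∂(volume : Measure (Rn n)), ∀ i, (a i • (𝓕 (u i) : L2 n) : L2 n) ξ =
      a i * (𝓕 (u i) : L2 n) ξ := by
    rw [ae_all_iff]
    intro i
    filter_upwards [Lp.coeFn_smul (a i) (𝓕 (u i) : L2 n)] with ξ hξ
    rw [hξ]; rfl
  filter_upwards [h2] with ξ hξ
  simp [hξ]

lemma combination_mem {ι : Type*} (t : Finset ι) (a : ι → ℂ) (u : ι → L2 n)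
    (hV : Admissible V) (hu : ∀ i, u i ∈ formDomain s V) : ∑ i ∈ t, a i • u i ∈ formDomain s V := by
  classical
  induction t using Finset.induction_on with
  | empty => simpa using zero_mem
  | insert i t hi ih =>
    rw [Finset.sum_insert hi]
    exact add_mem' (smul_mem' (hu i) (a i)) ih (V_measurable hV)

lemma form_combination {ι : Type*} (hs : (n : ℝ) < 2 * s) (t : Finset ι) (a : ι → ℂ)
    (u : ι → L2 n) (hV : Admissible V) (hu : ∀ i, u i ∈ formDomain s V) {v : L2 n}
    (hv : v ∈ formDomain s V) :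
    form s V v (∑ i ∈ t, a i • u i) = ∑ i ∈ t, a i * form s V v (u i) := by
  classical
  induction t using Finset.induction_on with
  | empty =>
    have := form_smul_right (s := s) (V := V) (u := (0 : L2 n)) (v := v) 0
    simpa using this
  | insert i t hi ih =>
    rw [Finset.sum_insert hi, Finset.sum_insert hi,
      form_add_right hs hV (smul_mem' (hu i) (a i)) (combination_mem t a u hV hu) hv,
      form_smul_right, ih]

end

/-! ### The constants -/

/-- order of the moment conditions -/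
noncomputable def Mord (s : ℝ) : ℕ := ⌊s⌋₊ + 1

/-- exponent of the geometric weights -/
noncomputable def epsExp (n : ℕ) (s : ℝ) : ℝ := min (2 * s - n) (2 * (Mord s : ℝ) - 2 * s)

/-- Besicovitch constant -/
noncomputable def Nm (n : ℕ) : ℕ := Besicovitch.multiplicity (Rn n)

/-- constant in front of the kinetic energy -/
noncomputable def C1 (n : ℕ) (s : ℝ) : ℝ :=
  ((Nm n : ℝ≥0∞) * (3 * coreC n s (Mord s) (epsExp n s))).toReal

/-- constant in front of the mass -/
noncomputable def C2 (n : ℕ) : ℝ := ((Nm n : ℝ≥0∞) * lowC n).toReal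

/-- the normalisation of the balls -/
noncomputable def c0 (n : ℕ) (s : ℝ) : ℝ := 1 / (C1 n s + 1)

/-- the energy constant -/
noncomputable def K0 (n : ℕ) (s : ℝ) : ℝ := 2 * c0 n s * C2 n + 1

/-- the final constant -/
noncomputable def Lconst (n : ℕ) (s : ℝ) : ℝ :=
  (kCount n (Mord s)) * (K0 n s ^ (1 - n / (2 * s)) * (c0 n s)⁻¹ * Nm n)

section

variable {n : ℕ} {s : ℝ} {V : Rn n → ℝ}

lemma C1_nonneg : 0 ≤ C1 n s := ENNReal.toReal_nonneg
lemma C2_nonneg : 0 ≤ C2 n := ENNReal.toReal_nonneg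
lemma c0_pos : 0 < c0 n s := by
  have := C1_nonneg (n := n) (s := s)
  unfold c0; positivity
lemma K0_pos : 0 < K0 n s := by
  have := c0_pos (n := n) (s := s)
  have := C2_nonneg (n := n)
  unfold K0; positivity
lemma c0_C1 : c0 n s * C1 n s ≤ 1 := by
  have := C1_nonneg (n := n) (s := s)
  unfold c0
  rw [one_div, inv_mul_le_iff₀ (by positivity)]
  linarith
lemma c0_C2 : c0 n s * C2 n / K0 n s ≤ 1 / 2 := by
  have h := K0_pos (n := n) (s := s)
  rw [div_le_iff₀ h]
  unfold K0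
  linarith

lemma s_lt_Mord (hs0 : 0 ≤ s) : s < Mord s := by
  unfold Mord
  push_cast
  exact Nat.lt_floor_add_one s

lemma epsExp_pos (hs0 : 0 ≤ s) (hs : (n : ℝ) < 2 * s) : 0 < epsExp n s := by
  have := s_lt_Mord hs0
  unfold epsExp
  apply lt_min <;> linarith

lemma C1_eq (hs0 : 0 ≤ s) (hs : (n : ℝ) < 2 * s) :
    (Nm n : ℝ≥0∞) * (3 * coreC n s (Mord s) (epsExp n s)) = ENNReal.ofReal (C1 n s) := by
  unfold C1
  rw [ENNReal.ofReal_toReal]
  have := coreC_ne_top (n := n) (s := s) (M := Mord s) (epsExp_pos hs0 hs)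
  finiteness

lemma C2_eq : (Nm n : ℝ≥0∞) * lowC n = ENNReal.ofReal (C2 n) := by
  unfold C2
  rw [ENNReal.ofReal_toReal]
  have := lowC_ne_top (n := n)
  finiteness

/-- The contradiction argument: a nontrivial combination of eigenfunctions with eigenvalues
`≤ -lam` cannot satisfy all the moment conditions at the small balls. -/
lemma no_combination (hn : 0 < n) (hs : (n : ℝ) < 2 * s) (hV : Admissible V)
    {ι : Type*} [Fintype ι] (u : ι → L2 n) (hu : Orthonormal ℂ u) (E : ι → ℝ) {lam : ℝ}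
    (hlam : 0 < lam) (hE : ∀ i, E i ≤ -lam) (heig : ∀ i, IsEigenfunction s V (E i) (u i))
    (Sf : Fin (Nm n) → Finset (Rn n)) (r : Rn n → ℝ) (hr : ∀ x, 0 < r x)
    (hdisj : ∀ l, (Sf l : Set (Rn n)).PairwiseDisjoint fun x => Metric.closedBall x (r x))
    {R : ℝ} (hcov : Metric.closedBall 0 R ⊆ ⋃ l, ⋃ x ∈ Sf l, Metric.closedBall x (r x))
    (hmass : ∀ x, ∫⁻ y in Metric.closedBall x (r x), ENNReal.ofReal (max (V y) 0) =
      ENNReal.ofReal (c0 n s * r x ^ (-(2 * s - n))))
    {Sg : ℝ} (hSg : ∑ i, (∫ ξ, ‖(𝓕 (u i) : L2 n) ξ‖) ^ 2 ≤ Sg)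
    (htail : ENNReal.ofReal Sg * ∫⁻ y in (Metric.closedBall 0 R)ᶜ, ENNReal.ofReal (max (V y) 0) ≤
      ENNReal.ofReal (lam / 4))
    (a : ι → ℂ) (ha : a ≠ 0)
    (hz : ∀ l, ∀ x ∈ Sf l, r x < (K0 n s / lam) ^ (1 / (2 * s)) →
      MomentZero (Mord s) (fun ξ => ∑ i, a i * (𝓕 (u i) : L2 n) ξ) x (r x)) : False := by
  have hs0 : 0 < s := by
    have : (0 : ℝ) ≤ n := by positivity
    linarith
  set us : L2 n := ∑ i, a i • u i with hus
  set gs : Rn n → ℂ := fun ξ => ∑ i, a i * (𝓕 (u i) : L2 n) ξ with hgs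
  have hui : ∀ i, u i ∈ formDomain s V := fun i => (heig i).1
  have husd : us ∈ formDomain s V := combination_mem Finset.univ a u hV hui
  have hae : ((𝓕 us : L2 n) : Rn n → ℂ) =ᵐ[volume] gs := fourier_combination a u
  have hg1i : ∀ i, Integrable ((𝓕 (u i) : L2 n) : Rn n → ℂ) :=
    fun i => fourier_integrable hs (hui i)
  have hg1 : Integrable gs := (fourier_integrable hs husd).congr hae
  have hg2 : MemLp gs 2 := (memLp_congr_ae hae).mp (Lp.memLp _)
  have hut : (us : Rn n → ℂ) =ᵐ[volume] 𝓕⁻ gs := ae_eq_fourierInv hg1 hae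
  -- Q
  set Q : ℝ := ∑ i, ‖a i‖ ^ 2 with hQ
  have hQ0 : 0 < Q := by
    obtain ⟨i, hi⟩ := Function.ne_iff.mp ha
    have hi' : a i ≠ 0 := hi
    refine Finset.sum_pos' (fun i _ => by positivity) ⟨i, Finset.mem_univ _, ?_⟩
    positivity
  have hinner : ∀ i, inner ℂ us (u i) = conj (a i) := by
    intro i
    rw [hus]
    exact hu.inner_left_fintype a i
  have hnorm : ‖us‖ ^ 2 = Q := by
    have h1 : inner ℂ us us = ((Q : ℝ) : ℂ) := by
      have h2 : inner ℂ us us = ∑ i, a i * inner ℂ us (u i) := by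
        conv_lhs => rw [hus]
        rw [← hus, inner_sum]
        refine Finset.sum_congr rfl fun i _ => by rw [inner_smul_right]
      rw [h2, hQ]
      push_cast
      refine Finset.sum_congr rfl fun i _ => ?_
      rw [hinner i, mul_comm, ← Complex.normSq_eq_conj_mul_self, Complex.normSq_eq_norm_sq]
      push_cast; rfl
    have h3 := inner_self_eq_norm_sq_to_K (𝕜 := ℂ) us
    rw [h1] at h3
    have h4 : ((‖us‖ ^ 2 : ℝ) : ℂ) = ((Q : ℝ) : ℂ) := by
      rw [h3]; push_cast; rfl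
    exact_mod_cast h4
  -- the form
  have hform : (form s V us us).re ≤ -lam * Q := by
    have h1 : form s V us us = ((∑ i, E i * ‖a i‖ ^ 2 : ℝ) : ℂ) := by
      conv_lhs => rw [hus]
      rw [← hus, form_combination hs Finset.univ a u hV hui husd]
      push_cast
      refine Finset.sum_congr rfl fun i _ => ?_
      rw [(heig i).2 us husd, hinner i]
      have : conj (a i) * a i = ((‖a i‖ ^ 2 : ℝ) : ℂ) := by
        rw [← Complex.normSq_eq_conj_mul_self, Complex.normSq_eq_norm_sq]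
      calc a i * ((E i : ℂ) * conj (a i)) = (E i : ℂ) * (conj (a i) * a i) := by ring
        _ = _ := by rw [this]; push_cast; rfl
    rw [h1, Complex.ofReal_re, hQ, Finset.mul_sum]
    exact Finset.sum_le_sum fun i _ => mul_le_mul_of_nonneg_right (hE i) (by positivity)
  have hge := form_self_ge hs hV husd
  set T : ℝ := ∫ ξ, symb s ξ * ‖(𝓕 us : L2 n) ξ‖ ^ 2 with hT
  have hT0 : 0 ≤ T := integral_nonneg fun ξ => by unfold symb; positivity
  -- the two energies in `[0,∞]`
  have hTe : ∫⁻ ξ, ENNReal.ofReal ((2 * π * ‖ξ‖) ^ (2 * s)) * ‖gs ξ‖ₑ ^ 2 = ENNReal.ofReal T := by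
    rw [hT, ofReal_integral_eq_lintegral_ofReal husd.1
      (Eventually.of_forall fun ξ => by unfold symb; positivity)]
    apply lintegral_congr_ae
    filter_upwards [hae] with ξ hξ
    rw [ENNReal.ofReal_mul (by unfold symb; positivity), enorm_sq_eq, hξ]
    rfl
  have hQe : ∫⁻ ξ, ‖gs ξ‖ₑ ^ 2 = ENNReal.ofReal Q := by
    have h1 : ‖(𝓕 us : L2 n)‖ = ‖us‖ := Lp.norm_fourier_eq us
    rw [← hnorm, ← h1, ← lintegral_Lp_sq]
    apply lintegral_congr_ae
    filter_upwards [hae] with ξ hξ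
    rw [hξ]
  -- potential energy
  set w : Rn n → ℝ≥0∞ := fun y => ENNReal.ofReal (max (V y) 0) with hw
  have hwm : AEMeasurable w := hV.pos.aestronglyMeasurable.aemeasurable.ennreal_ofReal
  have hρ : 0 < (K0 n s / lam) ^ (1 / (2 * s)) := by
    have := K0_pos (n := n) (s := s)
    positivity
  have hρ2 : ((K0 n s / lam) ^ (1 / (2 * s))) ^ (-2 * s) = lam / K0 n s := by
    have := K0_pos (n := n) (s := s)
    rw [← Real.rpow_mul (by positivity)]
    have : 1 / (2 * s) * (-2 * s) = -1 := by field_simp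
    rw [this, Real.rpow_neg_one, inv_div]
  have hball : ∫⁻ x in Metric.closedBall 0 R, w x * ‖𝓕⁻ gs x‖ₑ ^ 2 ≤
      ENNReal.ofReal (T + lam / 2 * Q) := by
    have h1 := potential_bound hn (epsExp_pos hs0.le hs) (min_le_left _ _) (min_le_right _ _) hwm
      Sf r hr hdisj c0_pos.le hcov hmass hg1 hg2 hρ hz
    refine h1.trans ?_
    rw [hTe, hQe, hρ2]
    have h2 : (Nm n : ℝ≥0∞) * (3 * coreC n s (Mord s) (epsExp n s) * ENNReal.ofReal T +
        lowC n * ENNReal.ofReal (lam / K0 n s) * ENNReal.ofReal Q) =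
        ENNReal.ofReal (C1 n s * T + C2 n * (lam / K0 n s) * Q) := by
      have hK := K0_pos (n := n) (s := s)
      have hC1 := C1_nonneg (n := n) (s := s)
      have hC2 := C2_nonneg (n := n)
      rw [ENNReal.ofReal_add (by positivity) (by positivity), ENNReal.ofReal_mul (by positivity),
        ENNReal.ofReal_mul (by positivity), ENNReal.ofReal_mul (by positivity),
        ← C1_eq hs0.le hs, ← C2_eq]
      ring
    rw [h2, ← ENNReal.ofReal_mul c0_pos.le]
    apply ENNReal.ofReal_le_ofReal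
    have h3 := c0_C1 (n := n) (s := s)
    have h4 := c0_C2 (n := n) (s := s)
    calc c0 n s * (C1 n s * T + C2 n * (lam / K0 n s) * Q)
        = (c0 n s * C1 n s) * T + (c0 n s * C2 n / K0 n s) * (lam * Q) := by ring
      _ ≤ 1 * T + 1 / 2 * (lam * Q) := by gcongr
      _ = _ := by ring
  have hsup : ∀ x, ‖𝓕⁻ gs x‖ ^ 2 ≤ Q * Sg := by
    intro x
    have h1 : ‖𝓕⁻ gs x‖ ≤ ∑ i, ‖a i‖ * ∫ ξ, ‖(𝓕 (u i) : L2 n) ξ‖ := by
      refine (norm_fourierInv_le x).trans ?_
      calc ∫ ξ, ‖gs ξ‖ ≤ ∫ ξ, ∑ i, ‖a i‖ * ‖(𝓕 (u i) : L2 n) ξ‖ := by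
            apply integral_mono hg1.norm
            · exact integrable_finsetSum _ fun i _ => (hg1i i).norm.const_mul _
            · intro ξ
              refine (norm_sum_le _ _).trans (le_of_eq ?_)
              refine Finset.sum_congr rfl fun i _ => norm_mul _ _
        _ = _ := by
            rw [integral_finsetSum _ fun i _ => (hg1i i).norm.const_mul _]
            refine Finset.sum_congr rfl fun i _ => integral_const_mul _ _
    calc ‖𝓕⁻ gs x‖ ^ 2 ≤ (∑ i, ‖a i‖ * ∫ ξ, ‖(𝓕 (u i) : L2 n) ξ‖) ^ 2 := by gcongr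
      _ ≤ (∑ i, ‖a i‖ ^ 2) * ∑ i, (∫ ξ, ‖(𝓕 (u i) : L2 n) ξ‖) ^ 2 :=
          Finset.sum_mul_sq_le_sq_mul_sq _ _ _
      _ ≤ Q * Sg := by gcongr
  have hout : ∫⁻ x in (Metric.closedBall 0 R)ᶜ, w x * ‖𝓕⁻ gs x‖ₑ ^ 2 ≤
      ENNReal.ofReal (lam / 4 * Q) := by
    calc ∫⁻ x in (Metric.closedBall 0 R)ᶜ, w x * ‖𝓕⁻ gs x‖ₑ ^ 2
        ≤ ∫⁻ x in (Metric.closedBall 0 R)ᶜ, ENNReal.ofReal (Q * Sg) * w x := by
          refine lintegral_mono fun x => ?_
          rw [mul_comm, enorm_sq_eq]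
          exact mul_le_mul' (ENNReal.ofReal_le_ofReal (hsup x)) le_rfl
      _ = ENNReal.ofReal (Q * Sg) * ∫⁻ x in (Metric.closedBall 0 R)ᶜ, w x :=
          lintegral_const_mul'' _ hwm.restrict
      _ = ENNReal.ofReal Q * (ENNReal.ofReal Sg * ∫⁻ x in (Metric.closedBall 0 R)ᶜ, w x) := by
          rw [ENNReal.ofReal_mul hQ0.le]; ring
      _ ≤ ENNReal.ofReal Q * ENNReal.ofReal (lam / 4) := mul_le_mul' le_rfl htail
      _ = _ := by rw [← ENNReal.ofReal_mul hQ0.le, mul_comm]
  have hpot : ∫ x, max (V x) 0 * ‖us x‖ ^ 2 ≤ (T + lam / 2 * Q) + lam / 4 * Q := by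
    have h1 : ENNReal.ofReal (∫ x, max (V x) 0 * ‖us x‖ ^ 2) =
        ∫⁻ x, w x * ‖𝓕⁻ gs x‖ₑ ^ 2 := by
      rw [ofReal_integral_eq_lintegral_ofReal (posPart_integrable hs hV husd)
        (Eventually.of_forall fun ξ => by positivity)]
      apply lintegral_congr_ae
      filter_upwards [hut] with x hx
      rw [ENNReal.ofReal_mul (le_max_right _ _), enorm_sq_eq, hx]
    have h2 : ∫⁻ x, w x * ‖𝓕⁻ gs x‖ₑ ^ 2 ≤ ENNReal.ofReal ((T + lam / 2 * Q) + lam / 4 * Q) := by
      rw [← lintegral_add_compl _ (measurableSet_closedBall (x := (0 : Rn n)) (ε := R)),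
        ENNReal.ofReal_add (by positivity) (by positivity)]
      exact add_le_add hball hout
    rw [← h1] at h2
    exact (ENNReal.ofReal_le_ofReal_iff (by positivity)).mp h2
  have : 0 < lam * Q := by positivity
  linarith

/-- The inequality for finite orthonormal families of eigenfunctions. -/
theorem finite_family (hn : 0 < n) (hs : (n : ℝ) < 2 * s) (hV : Admissible V)
    {ι : Type*} [Fintype ι] (u : ι → L2 n) (hu : Orthonormal ℂ u) (E : ι → ℝ)
    (hE : ∀ i, E i < 0) (heig : ∀ i, IsEigenfunction s V (E i) (u i)) :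
    ∑ i, |E i| ^ (1 - n / (2 * s)) ≤ Lconst n s * ∫ x, max (V x) 0 := by
  classical
  have hs0 : 0 < s := by
    have : (0 : ℝ) ≤ n := by positivity
    linarith
  set γ : ℝ := 1 - n / (2 * s) with hγ
  have hγ0 : 0 ≤ γ := by
    rw [hγ, sub_nonneg, div_le_one (by positivity)]; exact hs.le
  have hI0 : 0 ≤ ∫ x, max (V x) 0 := integral_nonneg fun x => le_max_right _ _
  have hc0 := c0_pos (n := n) (s := s)
  have hK0 := K0_pos (n := n) (s := s)
  have hL0 : 0 ≤ Lconst n s := by unfold Lconst; positivity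
  set w : Rn n → ℝ≥0∞ := fun y => ENNReal.ofReal (max (V y) 0) with hw
  have hwm : AEMeasurable w := hV.pos.aestronglyMeasurable.aemeasurable.ennreal_ofReal
  have hwI : ∫⁻ x, w x = ENNReal.ofReal (∫ x, max (V x) 0) := by
    rw [ofReal_integral_eq_lintegral_ofReal hV.pos (Eventually.of_forall fun x => le_max_right _ _)]
  have hwfin : ∫⁻ x, w x ≠ ∞ := by rw [hwI]; exact ENNReal.ofReal_ne_top
  set μ : Measure (Rn n) := volume.withDensity w with hμdef
  have hμfin : IsFiniteMeasure μ := isFiniteMeasure_withDensity hwfin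
  have hac : μ ≪ volume := withDensity_absolutelyContinuous _ _
  have hμA : ∀ A : Set (Rn n), MeasurableSet A → μ A = ∫⁻ x in A, w x :=
    fun A hA => withDensity_apply w hA
  by_cases hμ : μ Set.univ = 0
  · -- no positive part at all
    have hempty : IsEmpty ι := by
      rw [← not_nonempty_iff]
      rintro ⟨i⟩
      have hge := form_self_ge hs hV (heig i).1
      have hval := (heig i).2 (u i) (heig i).1
      have h1 : inner ℂ (u i) (u i) = (1 : ℂ) := by
        have := inner_self_eq_norm_sq_to_K (𝕜 := ℂ) (u i)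
        rw [hu.1 i] at this
        simpa using this
      rw [h1, mul_one] at hval
      rw [hval, Complex.ofReal_re] at hge
      have hT0 : 0 ≤ ∫ ξ, symb s ξ * ‖(𝓕 (u i) : L2 n) ξ‖ ^ 2 :=
        integral_nonneg fun ξ => by unfold symb; positivity
      have hw0 : ∫⁻ x, w x = 0 := by
        rw [← hμ, hμA _ MeasurableSet.univ, setLIntegral_univ]
      have hae0 : w =ᵐ[volume] 0 := (lintegral_eq_zero_iff' hwm).mp hw0
      have hP : ∫ x, max (V x) 0 * ‖u i x‖ ^ 2 = 0 := by
        apply integral_eq_zero_of_ae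
        filter_upwards [hae0] with x hx
        have h2 : ENNReal.ofReal (max (V x) 0) = 0 := hx
        have h3 : max (V x) 0 = 0 :=
          le_antisymm (ENNReal.ofReal_eq_zero.mp h2) (le_max_right _ _)
        rw [h3, zero_mul]; rfl
      have := hE i
      linarith
    rw [Finset.univ_eq_empty, Finset.sum_empty]
    positivity
  -- the main case
  set Sg : ℝ := ∑ i, (∫ ξ, ‖(𝓕 (u i) : L2 n) ξ‖) ^ 2 with hSg
  obtain ⟨R, htail⟩ : ∃ R : ℝ, ∀ i, ENNReal.ofReal Sg *
      ∫⁻ y in (Metric.closedBall (0 : Rn n) R)ᶜ, w y ≤ ENNReal.ofReal (|E i| / 4) := by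
    have h1 : Tendsto (fun k : ℕ => μ (Metric.closedBall (0 : Rn n) k)ᶜ) atTop (𝓝 0) := by
      have h2 := tendsto_measure_iInter_atTop (μ := μ)
        (s := fun k : ℕ => (Metric.closedBall (0 : Rn n) k)ᶜ)
        (fun k => measurableSet_closedBall.compl.nullMeasurableSet) (by
          intro i j hij
          exact Set.compl_subset_compl.mpr
            (Metric.closedBall_subset_closedBall (by exact_mod_cast hij)))
        ⟨0, measure_ne_top _ _⟩
      rw [← Set.compl_iUnion, Metric.iUnion_closedBall_nat, Set.compl_univ, measure_empty] at h2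
      exact h2
    have h3 : Tendsto (fun k : ℕ => ENNReal.ofReal Sg * μ (Metric.closedBall (0 : Rn n) k)ᶜ) atTop
        (𝓝 0) := by
      have := ENNReal.Tendsto.const_mul h1 (Or.inr ENNReal.ofReal_ne_top) (a := ENNReal.ofReal Sg)
      simpa using this
    have h4 : ∀ᶠ k : ℕ in atTop, ∀ i, ENNReal.ofReal Sg * μ (Metric.closedBall (0 : Rn n) k)ᶜ ≤
        ENNReal.ofReal (|E i| / 4) := by
      rw [eventually_all]
      intro i
      have hpos : (0 : ℝ≥0∞) < ENNReal.ofReal (|E i| / 4) := by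
        rw [ENNReal.ofReal_pos]
        have := abs_pos.mpr (hE i).ne
        positivity
      filter_upwards [h3.eventually (gt_mem_nhds hpos)] with k hk using hk.le
    obtain ⟨k, hk⟩ := h4.exists
    refine ⟨k, fun i => ?_⟩
    rw [← hμA _ measurableSet_closedBall.compl]
    exact hk i
  obtain ⟨Sf, r, hr, hdisj, hcov, hmass⟩ : ∃ (Sf : Fin (Nm n) → Finset (Rn n)) (r : Rn n → ℝ),
      (∀ x, 0 < r x) ∧
      (∀ l, (Sf l : Set (Rn n)).PairwiseDisjoint fun x => Metric.closedBall x (r x)) ∧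
      (Metric.closedBall 0 R ⊆ ⋃ l, ⋃ x ∈ Sf l, Metric.closedBall x (r x)) ∧
      ∀ x, μ (Metric.closedBall x (r x)) = ENNReal.ofReal (c0 n s * r x ^ (-(2 * s - n))) :=
    exists_cover hn μ hac hμ (a := 2 * s - n) (c₀ := c0 n s) (by linarith) hc0 R
  have hmass' : ∀ x, ∫⁻ y in Metric.closedBall x (r x), w y =
      ENNReal.ofReal (c0 n s * r x ^ (-(2 * s - n))) := by
    intro x
    rw [← hμA _ measurableSet_closedBall, hmass x]
  set B : Finset (Σ _ : Fin (Nm n), Rn n) := Finset.univ.sigma Sf with hB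
  set af : (Σ _ : Fin (Nm n), Rn n) → ℝ := fun b => K0 n s * r b.2 ^ (-(2 * s)) with haf
  have hhall := hall_sum (kCount n (Mord s)) B (fun i => |E i|) af (fun x => x ^ γ)
    (fun b _ => by
      have := hr b.2
      simp only [haf]; positivity)
    (fun i b _ hlt => Real.rpow_le_rpow (abs_nonneg _) hlt.le hγ0)
    (by
      intro i₀
      set lam := |E i₀| with hlam
      have hlam0 : 0 < lam := abs_pos.mpr (hE i₀).ne
      set Jf : Finset ι := Finset.univ.filter fun i' => lam ≤ |E i'| with hJf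
      set S' := B.filter fun b => lam < af b with hS'
      by_contra hcon
      push Not at hcon
      obtain ⟨a, ha0, ha⟩ := exists_moment_combination (ι := Jf) (Mord s) S' (fun b => b.2)
        (fun b => r b.2) (fun b _ => hr b.2)
        (fun j => ((𝓕 (u j) : L2 n) : Rn n → ℂ))
        (fun j => fourier_integrable hs (heig j).1) (by
          rw [Fintype.card_coe]; exact hcon)
      refine no_combination hn hs hV (ι := Jf) (fun j => u j)
        (hu.comp _ Subtype.val_injective) (fun j => E j) hlam0 ?_ (fun j => heig j) Sf r hr hdisj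
        hcov hmass' (Sg := Sg) ?_ (htail i₀) a ha0 ?_
      · intro j
        have h1 := (Finset.mem_filter.mp j.2).2
        rw [abs_of_neg (hE j)] at h1
        linarith
      · rw [hSg]
        calc ∑ i : Jf, (∫ ξ, ‖(𝓕 (u i) : L2 n) ξ‖) ^ 2
            = ∑ i ∈ Jf, (∫ ξ, ‖(𝓕 (u i) : L2 n) ξ‖) ^ 2 :=
              Finset.sum_coe_sort Jf (fun i => (∫ ξ, ‖(𝓕 (u i) : L2 n) ξ‖) ^ 2)
          _ ≤ _ := Finset.sum_le_sum_of_subset_of_nonneg (Finset.subset_univ _)
              fun i _ _ => by positivity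
      · intro l x hx hlt
        refine ha ⟨l, x⟩ (Finset.mem_filter.mpr ⟨?_, ?_⟩)
        · exact Finset.mem_sigma.mpr ⟨Finset.mem_univ _, hx⟩
        · -- lam < K r^(-2s)
          simp only [haf]
          have hrx := hr x
          have h1 : r x ^ (2 * s) < K0 n s / lam := by
            calc r x ^ (2 * s) < ((K0 n s / lam) ^ (1 / (2 * s))) ^ (2 * s) :=
                  Real.rpow_lt_rpow hrx.le hlt (by positivity)
              _ = K0 n s / lam := by
                  rw [← Real.rpow_mul (by positivity), one_div_mul_cancel (by positivity),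
                    Real.rpow_one]
          rw [Real.rpow_neg hrx.le, ← div_eq_mul_inv, lt_div_iff₀ (by positivity)]
          rw [lt_div_iff₀ hlam0] at h1
          linarith)
  refine hhall.trans ?_
  have hsumB : ∑ b ∈ B, (μ (Metric.closedBall b.2 (r b.2))).toReal ≤
      Nm n * ∫ x, max (V x) 0 := by
    rw [hB, Finset.sum_sigma]
    have h1 : ∀ l : Fin (Nm n), ∑ x ∈ Sf l, (μ (Metric.closedBall x (r x))).toReal ≤
        ∫ x, max (V x) 0 := by
      intro l
      rw [← ENNReal.toReal_sum fun x _ => measure_ne_top _ _,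
        ← measure_biUnion_finset (hdisj l) fun x _ => measurableSet_closedBall]
      calc (μ (⋃ x ∈ Sf l, Metric.closedBall x (r x))).toReal ≤ (μ Set.univ).toReal :=
            ENNReal.toReal_mono (measure_ne_top _ _) (measure_mono (Set.subset_univ _))
        _ = ∫ x, max (V x) 0 := by
            rw [hμA _ MeasurableSet.univ, setLIntegral_univ, hwI, ENNReal.toReal_ofReal hI0]
    calc ∑ l, ∑ x ∈ Sf l, (μ (Metric.closedBall x (r x))).toReal
        ≤ ∑ _l : Fin (Nm n), ∫ x, max (V x) 0 := Finset.sum_le_sum fun l _ => h1 l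
      _ = _ := by rw [Finset.sum_const, Finset.card_univ, Fintype.card_fin, nsmul_eq_mul]
  have hterm : ∀ b ∈ B, (af b) ^ γ = K0 n s ^ γ * (c0 n s)⁻¹ *
      (μ (Metric.closedBall b.2 (r b.2))).toReal := by
    intro b _
    have hrb := hr b.2
    simp only [haf]
    rw [hmass, ENNReal.toReal_ofReal (by positivity), Real.mul_rpow hK0.le (by positivity),
      ← Real.rpow_mul hrb.le]
    have h1 : -(2 * s) * γ = -(2 * s - n) := by
      rw [hγ]; field_simp
    rw [h1]
    field_simp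
  rw [Finset.sum_congr rfl hterm, ← Finset.mul_sum]
  unfold Lconst
  calc (kCount n (Mord s) : ℝ) * (K0 n s ^ γ * (c0 n s)⁻¹ *
        ∑ b ∈ B, (μ (Metric.closedBall b.2 (r b.2))).toReal)
      ≤ (kCount n (Mord s) : ℝ) * (K0 n s ^ γ * (c0 n s)⁻¹ * (Nm n * ∫ x, max (V x) 0)) := by
        gcongr
    _ = _ := by rw [← hγ]; ring

/-- negative eigenvalues have finite multiplicity -/
lemma finiteDimensional_eigenspace (hn : 0 < n) (hs : (n : ℝ) < 2 * s) (hV : Admissible V)
    {E : ℝ} (hE : E < 0) : FiniteDimensional ℂ (eigenspace s V E) := by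
  classical
  by_contra hinf
  have hrank : Cardinal.aleph0 ≤ Module.rank ℂ (eigenspace s V E) := by
    by_contra h
    exact hinf (Module.rank_lt_aleph0_iff.mp (not_le.mp h))
  set c : ℝ := |E| ^ (1 - n / (2 * s)) with hc
  have hc0 : 0 < c := Real.rpow_pos_of_pos (abs_pos.mpr hE.ne) _
  set b : ℝ := Lconst n s * ∫ x, max (V x) 0 with hb
  obtain ⟨m, hm⟩ := exists_nat_gt (b / c)
  have hmr : (m : Cardinal) ≤ Module.rank ℂ (eigenspace s V E) :=
    (Cardinal.natCast_lt_aleph0 (n := m)).le.trans hrank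
  obtain ⟨S, hScard, hSli⟩ := le_rank_iff_exists_linearIndependent_finset.mp hmr
  set W : Submodule ℂ (eigenspace s V E) := Submodule.span ℂ (S : Set (eigenspace s V E)) with hW
  have hWf : FiniteDimensional ℂ W := FiniteDimensional.span_finset ℂ S
  have hWr : Module.finrank ℂ W = m := by
    rw [hW, ← hScard]; exact finrank_span_finset_eq_card hSli
  set v := stdOrthonormalBasis ℂ W with hv
  have hon : Orthonormal ℂ fun i => ((v i : eigenspace s V E) : L2 n) := by
    have h1 := v.orthonormal.comp_linearIsometry W.subtypeₗᵢ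
    have h2 := h1.comp_linearIsometry (eigenspace s V E).subtypeₗᵢ
    exact h2
  have hfin := finite_family hn hs hV (fun i => ((v i : eigenspace s V E) : L2 n)) hon
    (fun _ => E) (fun _ => hE) (fun i => (mem_eigenspace_iff hs hV).mp (v i : eigenspace s V E).2)
  rw [Finset.sum_const, Finset.card_univ, Fintype.card_fin, hWr, nsmul_eq_mul, ← hb, ← hc] at hfin
  rw [div_lt_iff₀ hc0] at hm
  linarith

lemma multiplicity_eq (hn : 0 < n) (hs : (n : ℝ) < 2 * s) (hV : Admissible V)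
    {E : ℝ} (hE : E < 0) : multiplicity s V E = Module.finrank ℂ (eigenspace s V E) := by
  have := finiteDimensional_eigenspace hn hs hV hE
  unfold multiplicity
  rw [← Module.finrank_eq_rank]
  simp

theorem traceNeg_le (hn : 0 < n) (hs : (n : ℝ) < 2 * s) (hV : Admissible V) :
    traceNeg s V (1 - n / (2 * s)) ≤ ENNReal.ofReal (Lconst n s * ∫ x, max (V x) 0) := by
  classical
  unfold traceNeg
  rw [ENNReal.tsum_eq_iSup_sum]
  refine iSup_le fun F => ?_
  have hfd : ∀ E : F, FiniteDimensional ℂ (eigenspace s V (E : Set.Iio (0 : ℝ))) :=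
    fun E => finiteDimensional_eigenspace hn hs hV E.1.2
  set v := fun E : F => stdOrthonormalBasis ℂ (eigenspace s V ((E : Set.Iio (0 : ℝ)) : ℝ)) with hv
  have hOF : OrthogonalFamily ℂ (fun E : F => eigenspace s V ((E : Set.Iio (0 : ℝ)) : ℝ))
      (fun E => (eigenspace s V ((E : Set.Iio (0 : ℝ)) : ℝ)).subtypeₗᵢ) := by
    intro E E' hEE x y
    have hne : (((E' : Set.Iio (0 : ℝ))) : ℝ) ≠ ((E : Set.Iio (0 : ℝ)) : ℝ) := by
      intro h
      exact hEE (Subtype.ext (Subtype.ext h.symm))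
    exact orthogonal_of_ne hne ((mem_eigenspace_iff hs hV).mp y.2)
      ((mem_eigenspace_iff hs hV).mp x.2)
  have hon := hOF.orthonormal_sigma_orthonormal (fun E => (v E).orthonormal)
  have hfin := finite_family hn hs hV _ hon (fun a => ((a.1 : Set.Iio (0 : ℝ)) : ℝ))
    (fun a => a.1.1.2) (fun a => (mem_eigenspace_iff hs hV).mp (v a.1 a.2).2)
  have h0 : ∀ x : ℝ, 0 ≤ |x| ^ (1 - (n : ℝ) / (2 * s)) := fun x => Real.rpow_nonneg (abs_nonneg _) _
  calc ∑ E ∈ F, ((multiplicity s V (E : ℝ) : ℕ∞) : ℝ≥0∞) *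
        ENNReal.ofReal (|(E : ℝ)| ^ (1 - (n : ℝ) / (2 * s)))
      = ENNReal.ofReal (∑ a : (Σ E : F, Fin (Module.finrank ℂ
          (eigenspace s V ((E : Set.Iio (0 : ℝ)) : ℝ)))),
          |((a.1 : Set.Iio (0 : ℝ)) : ℝ)| ^ (1 - (n : ℝ) / (2 * s))) := by
        rw [Fintype.sum_sigma, ENNReal.ofReal_sum_of_nonneg (fun E _ =>
          Finset.sum_nonneg fun _ _ => h0 _), ← Finset.sum_coe_sort F]
        refine Finset.sum_congr rfl fun E _ => ?_
        simp only [Finset.sum_const, Finset.card_univ, Fintype.card_fin, nsmul_eq_mul]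
        rw [ENNReal.ofReal_mul (by positivity), multiplicity_eq hn hs hV E.1.2]
        simp
    _ ≤ _ := ENNReal.ofReal_le_ofReal hfin

end

/-- The inequality in terms of this file's definitions. -/
theorem final (n : ℕ) (hn : 1 ≤ n) (s : ℝ) (hs : (n : ℝ) / 2 < s) :
    ∃ L : NNReal, ∀ V : Rn n → ℝ, Admissible V →
      traceNeg s V (1 - n / (2 * s)) ≤ L * ∫⁻ x, ENNReal.ofReal (max (V x) 0) := by
  refine ⟨(Lconst n s).toNNReal, fun V hV => ?_⟩
  have hs' : (n : ℝ) < 2 * s := by linarith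
  have hL : 0 ≤ Lconst n s := by
    have hc0 := c0_pos (n := n) (s := s)
    have hK0 := K0_pos (n := n) (s := s)
    unfold Lconst; positivity
  refine (traceNeg_le (by omega) hs' hV).trans (le_of_eq ?_)
  rw [ENNReal.ofReal_mul hL, ofReal_integral_eq_lintegral_ofReal hV.pos
    (Eventually.of_forall fun x => le_max_right _ _)]
  rfl

end Pool.Agent.Helper47.LTFinal
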