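import Mathlib

open MeasureTheory FourierTransform Filter Topology Real
open scoped ENNReal SchwartzMap RealInnerProductSpace

namespace Pool.Agent.Helper47.LT

section General

variable {V : Type*} [NormedAddCommGroup V] [InnerProductSpace ℝ V] [FiniteDimensional ℝ V]
  [MeasurableSpace V] [BorelSpace V]

lemma fourierInv_continuous {g : V → ℂ} (h1 : Integrable g) : Continuous (𝓕⁻ g) := by
  have : 𝓕⁻ g = fun x => 𝓕 g (-x) := by
    ext x; exact fourierInv_eq_fourier_neg g x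
  rw [this]
  exact (VectorFourier.fourierIntegral_continuous Real.continuous_fourierChar
    (innerSL ℝ).continuous₂ h1).comp continuous_neg

lemma norm_fourierInv_le {g : V → ℂ} (x : V) : ‖𝓕⁻ g x‖ ≤ ∫ ξ, ‖g ξ‖ := by
  rw [fourierInv_eq]
  refine (norm_integral_le_integral_norm _).trans ?_
  simp

/-- self-adjointness of the inverse Fourier transform, integrable functions -/
lemma integral_fourierInv_mul {f g : V → ℂ} (hf : Integrable f) (hg : Integrable g) :
    ∫ x, 𝓕⁻ f x * g x = ∫ x, f x * 𝓕⁻ g x := by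
  have hc : Continuous fun p : V × V => (-innerₗ V) p.1 p.2 := by
    have h := (continuous_inner (𝕜 := ℝ) (E := V)).neg
    exact h
  have hflip : (-innerₗ V).flip = -innerₗ V := by
    ext x y; simp [real_inner_comm]
  have := VectorFourier.integral_fourierIntegral_smul_eq_flip (μ := (volume : Measure V))
    (ν := (volume : Measure V)) (L := -innerₗ V) (e := 𝐞) (f := f) (g := g)
    continuous_fourierChar hc hf hg
  rw [hflip] at this
  exact this

theorem fourierInv_toLp_ae {g : V → ℂ} (h1 : Integrable g) (h2 : MemLp g 2) :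
    ((𝓕⁻ (h2.toLp g) : Lp ℂ 2 (volume : Measure V)) : V → ℂ) =ᵐ[volume] 𝓕⁻ g := by
  set G : Lp ℂ 2 (volume : Measure V) := 𝓕⁻ (h2.toLp g) with hG
  have hc := fourierInv_continuous h1
  have key : ∀ φ : 𝓢(V, ℂ), ∫ x, φ x * G x = ∫ x, φ x * 𝓕⁻ g x := by
    intro φ
    have e1 := Lp.toTemperedDistribution_apply (μ := (volume : Measure V)) G φ
    have e2 := Lp.fourierInv_toTemperedDistribution_eq (h2.toLp g : Lp ℂ 2 (volume : Measure V))
    rw [← hG] at e2
    rw [← e2, TemperedDistribution.fourierInv_apply, Lp.toTemperedDistribution_apply] at e1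
    simp only [smul_eq_mul] at e1
    rw [← e1]
    have e3 : ∫ x, (𝓕⁻ φ) x * (h2.toLp g) x = ∫ x, 𝓕⁻ (φ : V → ℂ) x * g x := by
      apply integral_congr_ae
      filter_upwards [h2.coeFn_toLp] with x hx
      rw [hx, SchwartzMap.fourierInv_coe]
    rw [e3, integral_fourierInv_mul φ.integrable h1]
  have hsub : ∀ᵐ x ∂(volume : Measure V), G x - 𝓕⁻ g x = 0 := by
    apply ae_eq_zero_of_integral_contDiff_smul_eq_zero
    · exact ((Lp.memLp G).locallyIntegrable (by norm_num)).sub hc.locallyIntegrable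
    · intro φ φ_smooth φ_cpt
      have hg₁ : HasCompactSupport (Complex.ofRealCLM ∘ φ) := φ_cpt.comp_left rfl
      have hg₂ : ContDiff ℝ (⊤ : ℕ∞) (Complex.ofRealCLM ∘ φ) := by fun_prop
      have e := key (hg₁.toSchwartzMap hg₂)
      have hi1 : Integrable fun x => (φ x : ℂ) * G x := by
        have hl := ((Lp.memLp G).locallyIntegrable (by norm_num : (1 : ℝ≥0∞) ≤ 2))
        have := hl.integrable_smul_left_of_hasCompactSupport
          (show Continuous φ from φ_smooth.continuous) φ_cpt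
        simpa [Complex.real_smul] using this
      have hi2 : Integrable fun x => (φ x : ℂ) * 𝓕⁻ g x := by
        have := hc.locallyIntegrable (μ := (volume : Measure V)).integrable_smul_left_of_hasCompactSupport
          (show Continuous φ from φ_smooth.continuous) φ_cpt
        simpa [Complex.real_smul] using this
      have e' : ∫ x, (φ x : ℂ) * G x = ∫ x, (φ x : ℂ) * 𝓕⁻ g x := by
        simpa using e
      have : ∀ x, φ x • (G x - 𝓕⁻ g x) = (φ x : ℂ) * G x - (φ x : ℂ) * 𝓕⁻ g x := by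
        intro x; rw [Complex.real_smul]; ring
      simp_rw [this]
      rw [integral_sub hi1 hi2, e', sub_self]
  filter_upwards [hsub] with x hx
  exact sub_eq_zero.mp hx

/-- Plancherel for integrable square integrable functions -/
theorem lintegral_fourierInv_sq {g : V → ℂ} (h1 : Integrable g) (h2 : MemLp g 2) :
    ∫⁻ x, ‖𝓕⁻ g x‖ₑ ^ 2 = ∫⁻ ξ, ‖g ξ‖ₑ ^ 2 := by
  have key : ∀ f : Lp ℂ 2 (volume : Measure V), ∫⁻ x, ‖f x‖ₑ ^ 2 = ‖f‖ₑ ^ 2 := by
    intro f
    have := eLpNorm_nnreal_pow_eq_lintegral (μ := (volume : Measure V)) (f := (f : V → ℂ))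
      (p := 2) (by norm_num)
    simp only [NNReal.coe_ofNat, ENNReal.coe_ofNat, ENNReal.rpow_ofNat] at this
    rw [← this, Lp.enorm_def]
  have e1 : ∫⁻ x, ‖𝓕⁻ g x‖ₑ ^ 2 =
      ∫⁻ x, ‖((𝓕⁻ (h2.toLp g) : Lp ℂ 2 (volume : Measure V)) : V → ℂ) x‖ₑ ^ 2 := by
    apply lintegral_congr_ae
    filter_upwards [fourierInv_toLp_ae h1 h2] with x hx
    rw [hx]
  have e2 : ∫⁻ x, ‖g x‖ₑ ^ 2 = ∫⁻ x, ‖(h2.toLp g) x‖ₑ ^ 2 := by
    apply lintegral_congr_ae
    filter_upwards [h2.coeFn_toLp] with x hx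
    rw [hx]
  rw [e1, e2, key, key]
  congr 1
  have h3 : ‖(𝓕⁻ (h2.toLp g) : Lp ℂ 2 (volume : Measure V))‖ = ‖h2.toLp g‖ :=
    (Lp.fourierTransformₗᵢ V ℂ).symm.norm_map _
  rw [← ofReal_norm, ← ofReal_norm, h3]

/-- Cauchy-Schwarz against the constant one -/
lemma lintegral_sq_le {α : Type*} [MeasurableSpace α] (μ : Measure α) {f : α → ℝ≥0∞}
    (hf : AEMeasurable f μ) : (∫⁻ x, f x ∂μ) ^ 2 ≤ μ Set.univ * ∫⁻ x, f x ^ 2 ∂μ := by
  have h := ENNReal.lintegral_mul_le_Lp_mul_Lq μ (p := 2) (q := 2) Real.HolderConjugate.two_two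
    (f := fun _ => 1) (g := f) aemeasurable_const hf
  simp only [Pi.mul_apply, one_mul, lintegral_const, ENNReal.rpow_ofNat, one_pow] at h
  calc (∫⁻ x, f x ∂μ) ^ 2 ≤ (μ Set.univ ^ (1 / (2 : ℝ)) * (∫⁻ x, f x ^ 2 ∂μ) ^ (1 / (2 : ℝ))) ^ 2 := by
        gcongr
    _ = μ Set.univ * ∫⁻ x, f x ^ 2 ∂μ := by
        rw [mul_pow, ← ENNReal.rpow_natCast, ← ENNReal.rpow_natCast, ← ENNReal.rpow_mul,
          ← ENNReal.rpow_mul]
        norm_num

/-- The Fourier multiplier of the averaging over the ball of radius `δ`. -/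
noncomputable def K (δ : ℝ) (ξ : V) : ℂ :=
  ((volume (Metric.closedBall (0 : V) δ)).toReal : ℂ)⁻¹ *
    𝓕⁻ ((Metric.closedBall (0 : V) δ).indicator fun _ => (1 : ℂ)) ξ

lemma indicator_integrable (δ : ℝ) :
    Integrable ((Metric.closedBall (0 : V) δ).indicator fun _ => (1 : ℂ)) := by
  rw [integrable_indicator_iff measurableSet_closedBall]
  exact integrableOn_const (measure_closedBall_lt_top).ne

lemma K_continuous (δ : ℝ) : Continuous (K δ : V → ℂ) :=
  continuous_const.mul (fourierInv_continuous (indicator_integrable δ))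

lemma vol_pos {δ : ℝ} (hδ : 0 < δ) : 0 < (volume (Metric.closedBall (0 : V) δ)).toReal :=
  ENNReal.toReal_pos (Metric.measure_closedBall_pos _ _ hδ).ne' measure_closedBall_lt_top.ne

lemma K_sub_one {δ : ℝ} (hδ : 0 < δ) {ξ : V} (hξ : 4 * π * δ * ‖ξ‖ ≤ 1) :
    ‖K δ ξ - 1‖ ≤ 1 / 2 := by
  set v := (volume (Metric.closedBall (0 : V) δ)).toReal with hv
  have hv0 : 0 < v := vol_pos hδ
  have hv0' : (v : ℂ) ≠ 0 := by exact_mod_cast hv0.ne'
  have e1 : 𝓕⁻ ((Metric.closedBall (0 : V) δ).indicator fun _ => (1 : ℂ)) ξ =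
      ∫ y in Metric.closedBall (0 : V) δ, Complex.exp (((2 * π * ⟪y, ξ⟫ : ℝ) : ℂ) * Complex.I) := by
    rw [fourierInv_eq', ← integral_indicator measurableSet_closedBall]
    congr 1
    ext y
    by_cases hy : y ∈ Metric.closedBall (0 : V) δ <;> simp [hy]
  have hcont : Continuous fun y : V => Complex.exp (((2 * π * ⟪y, ξ⟫ : ℝ) : ℂ) * Complex.I) := by
    fun_prop
  have hint : IntegrableOn (fun y : V => Complex.exp (((2 * π * ⟪y, ξ⟫ : ℝ) : ℂ) * Complex.I))
      (Metric.closedBall (0 : V) δ) :=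
    hcont.continuousOn.integrableOn_compact (isCompact_closedBall _ _)
  have e2 : K δ ξ - 1 = (v : ℂ)⁻¹ * ∫ y in Metric.closedBall (0 : V) δ,
      (Complex.exp (((2 * π * ⟪y, ξ⟫ : ℝ) : ℂ) * Complex.I) - 1) := by
    rw [integral_sub hint (integrableOn_const (measure_closedBall_lt_top).ne), setIntegral_const,
      K, ← hv, e1, mul_sub]
    congr 1
    rw [measureReal_def, ← hv]
    simp [hv0']
  rw [e2, norm_mul]
  have h3 : ‖∫ y in Metric.closedBall (0 : V) δ,
      (Complex.exp (((2 * π * ⟪y, ξ⟫ : ℝ) : ℂ) * Complex.I) - 1)‖ ≤ 1 / 2 * v := by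
    refine norm_setIntegral_le_of_norm_le_const measure_closedBall_lt_top fun y hy => ?_
    rw [mul_comm _ Complex.I]
    refine (Real.norm_exp_I_mul_ofReal_sub_one_le).trans ?_
    rw [Real.norm_eq_abs, abs_mul, abs_of_pos (by positivity : (0 : ℝ) < 2 * π)]
    have hy' : ‖y‖ ≤ δ := by simpa using hy
    have := abs_real_inner_le_norm y ξ
    have h4 : |⟪y, ξ⟫| ≤ δ * ‖ξ‖ := this.trans (by gcongr)
    calc 2 * π * |⟪y, ξ⟫| ≤ 2 * π * (δ * ‖ξ‖) := by gcongr
      _ ≤ 1 / 2 := by linarith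
  rw [norm_inv, Complex.norm_real, Real.norm_of_nonneg hv0.le]
  calc v⁻¹ * _ ≤ v⁻¹ * (1 / 2 * v) := by gcongr
    _ = 1 / 2 := by field_simp

lemma K_norm_ge {δ : ℝ} (hδ : 0 < δ) {ξ : V} (hξ : 4 * π * δ * ‖ξ‖ ≤ 1) : 1 / 2 ≤ ‖K δ ξ‖ := by
  have h1 := K_sub_one hδ hξ
  have h2 : ‖(1 : ℂ)‖ ≤ ‖K δ ξ‖ + ‖K δ ξ - 1‖ := by
    have := norm_sub_le (K δ ξ) (K δ ξ - 1)
    simpa using this
  rw [norm_one] at h2
  linarith

/-- Local domination of a band limited function by the averages of an integrable function. -/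
theorem exists_dominating {δ : ℝ} (hδ : 0 < δ) {g : V → ℂ} (h1 : Integrable g) (h2 : MemLp g 2)
    (hsupp : ∀ ξ, g ξ ≠ 0 → 4 * π * δ * ‖ξ‖ ≤ 1) :
    ∃ W : V → ℝ≥0∞, Measurable W ∧ ∫⁻ x, W x ≤ 4 * ∫⁻ ξ, ‖g ξ‖ₑ ^ 2 ∧
      ∀ x, ‖𝓕⁻ g x‖ₑ ^ 2 ≤ (volume (Metric.closedBall x δ))⁻¹ *
        ∫⁻ y in Metric.closedBall x δ, W y := by
  set G : V → ℂ := fun ξ => g ξ / K δ ξ with hG
  have hGle : ∀ ξ, ‖G ξ‖ ≤ 2 * ‖g ξ‖ := by
    intro ξ
    by_cases h : g ξ = 0
    · simp [hG, h]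
    · have := K_norm_ge hδ (hsupp ξ h)
      rw [hG, norm_div, div_le_iff₀ (by linarith)]
      nlinarith [norm_nonneg (g ξ)]
  have hGK : ∀ ξ, K δ ξ * G ξ = g ξ := by
    intro ξ
    by_cases h : g ξ = 0
    · simp [hG, h]
    · have := K_norm_ge hδ (hsupp ξ h)
      have h0 : K δ ξ ≠ 0 := by
        intro h0; rw [h0, norm_zero] at this; linarith
      rw [hG]; field_simp
  have hGm : AEStronglyMeasurable G volume :=
    (h1.aestronglyMeasurable.aemeasurable.div (K_continuous δ).measurable.aemeasurable).aestronglyMeasurable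
  have hG1 : Integrable G :=
    (h1.norm.const_mul 2).mono' hGm (Eventually.of_forall hGle)
  have hG2 : MemLp G 2 := by
    refine (h2.norm.const_mul 2).mono hGm (Eventually.of_forall fun ξ => ?_)
    simpa using hGle ξ
  refine ⟨fun x => ‖𝓕⁻ G x‖ₑ ^ 2, ?_, ?_, ?_⟩
  · exact (fourierInv_continuous hG1).measurable.enorm.pow_const 2
  · rw [lintegral_fourierInv_sq hG1 hG2, ← lintegral_const_mul' _ _ (by norm_num)]
    refine lintegral_mono fun ξ => ?_
    have h := hGle ξ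
    have h' : ‖G ξ‖ₑ ≤ 2 * ‖g ξ‖ₑ := by
      rw [← ofReal_norm, ← ofReal_norm]
      calc ENNReal.ofReal ‖G ξ‖ ≤ ENNReal.ofReal (2 * ‖g ξ‖) := ENNReal.ofReal_le_ofReal h
        _ = 2 * ENNReal.ofReal ‖g ξ‖ := by rw [ENNReal.ofReal_mul (by norm_num)]; norm_num
    calc ‖G ξ‖ₑ ^ 2 ≤ (2 * ‖g ξ‖ₑ) ^ 2 := by gcongr
      _ = 4 * ‖g ξ‖ₑ ^ 2 := by rw [mul_pow]; norm_num
  · intro x
    set v := (volume (Metric.closedBall (0 : V) δ)).toReal with hv
    have hv0 : 0 < v := vol_pos hδ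
    have hv0' : (v : ℂ) ≠ 0 := by exact_mod_cast hv0.ne'
    have hvol : volume (Metric.closedBall x δ) = volume (Metric.closedBall (0 : V) δ) :=
      Measure.addHaar_closedBall_center volume x δ
    have hvol' : volume (Metric.closedBall (0 : V) δ) = ENNReal.ofReal v := by
      rw [hv, ENNReal.ofReal_toReal measure_closedBall_lt_top.ne]
    -- modulated function
    set Gx : V → ℂ := fun ξ => Complex.exp (((2 * π * ⟪ξ, x⟫ : ℝ) : ℂ) * Complex.I) * G ξ with hGx
    have hmod : Continuous fun ξ : V => Complex.exp (((2 * π * ⟪ξ, x⟫ : ℝ) : ℂ) * Complex.I) := by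
      fun_prop
    have hGx1 : Integrable Gx := by
      refine hG1.norm.mono' (hmod.aestronglyMeasurable.mul hGm) (Eventually.of_forall fun ξ => ?_)
      simp only [hGx, norm_mul, Complex.norm_exp_ofReal_mul_I, one_mul]
      exact le_rfl
    have hshift : ∀ z, 𝓕⁻ Gx z = 𝓕⁻ G (x + z) := by
      intro z
      rw [fourierInv_eq', fourierInv_eq']
      congr 1
      ext ξ
      simp only [hGx, smul_eq_mul, ← mul_assoc, ← Complex.exp_add]
      congr 2
      rw [inner_add_right]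
      push_cast
      ring
    have e1 : ∫ z, 𝓕⁻ Gx z * ((Metric.closedBall (0 : V) δ).indicator fun _ => (1 : ℂ)) z =
        v * 𝓕⁻ g x := by
      rw [integral_fourierInv_mul hGx1 (indicator_integrable δ), fourierInv_eq',
        ← integral_const_mul]
      congr 1
      ext ξ
      rw [← hGK ξ, K, ← hv]
      simp only [hGx, smul_eq_mul]
      field_simp
    have e2 : 𝓕⁻ g x = (v : ℂ)⁻¹ * ∫ z in Metric.closedBall (0 : V) δ, 𝓕⁻ G (x + z) := by
      rw [← integral_indicator measurableSet_closedBall]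
      have : ∫ z, (Metric.closedBall (0 : V) δ).indicator (fun z => 𝓕⁻ G (x + z)) z =
          v * 𝓕⁻ g x := by
        rw [← e1]
        congr 1
        ext z
        rw [hshift]
        by_cases hz : z ∈ Metric.closedBall (0 : V) δ
        · rw [Set.indicator_of_mem hz, Set.indicator_of_mem hz, mul_one]
        · rw [Set.indicator_of_notMem hz, Set.indicator_of_notMem hz, mul_zero]
      rw [this]
      field_simp
    have hcont := fourierInv_continuous hG1
    have e3 : ‖𝓕⁻ g x‖ₑ ≤ (ENNReal.ofReal v)⁻¹ *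
        ∫⁻ z in Metric.closedBall (0 : V) δ, ‖𝓕⁻ G (x + z)‖ₑ := by
      rw [e2, enorm_mul]
      gcongr
      · rw [← ofReal_norm, norm_inv, Complex.norm_real, Real.norm_of_nonneg hv0.le,
          ENNReal.ofReal_inv_of_pos hv0]
      · exact enorm_integral_le_lintegral_enorm _
    have e4 : ∫⁻ z in Metric.closedBall (0 : V) δ, ‖𝓕⁻ G (x + z)‖ₑ ^ 2 =
        ∫⁻ y in Metric.closedBall x δ, ‖𝓕⁻ G y‖ₑ ^ 2 := by
      rw [← lintegral_indicator measurableSet_closedBall,
        ← lintegral_indicator measurableSet_closedBall,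
        ← lintegral_add_left_eq_self
          (fun y => (Metric.closedBall x δ).indicator (fun y => ‖𝓕⁻ G y‖ₑ ^ 2) y) x]
      congr 1
      ext z
      by_cases hz : z ∈ Metric.closedBall (0 : V) δ
      · have hz' : x + z ∈ Metric.closedBall x δ := by simpa using hz
        rw [Set.indicator_of_mem hz, Set.indicator_of_mem hz']
      · have hz' : x + z ∉ Metric.closedBall x δ := by simpa using hz
        rw [Set.indicator_of_notMem hz, Set.indicator_of_notMem hz']
    have hvE : ENNReal.ofReal v ≠ 0 := by simpa using hv0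
    have hvE' : ENNReal.ofReal v ≠ ∞ := ENNReal.ofReal_ne_top
    calc ‖𝓕⁻ g x‖ₑ ^ 2 ≤ ((ENNReal.ofReal v)⁻¹ *
          ∫⁻ z in Metric.closedBall (0 : V) δ, ‖𝓕⁻ G (x + z)‖ₑ) ^ 2 := by gcongr
      _ = (ENNReal.ofReal v)⁻¹ ^ 2 *
          (∫⁻ z in Metric.closedBall (0 : V) δ, ‖𝓕⁻ G (x + z)‖ₑ) ^ 2 := by rw [mul_pow]
      _ ≤ (ENNReal.ofReal v)⁻¹ ^ 2 * (ENNReal.ofReal v *
          ∫⁻ z in Metric.closedBall (0 : V) δ, ‖𝓕⁻ G (x + z)‖ₑ ^ 2) := by
          gcongr
          have := lintegral_sq_le (volume.restrict (Metric.closedBall (0 : V) δ))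
            (f := fun z => ‖𝓕⁻ G (x + z)‖ₑ)
            (hcont.comp (continuous_const.add continuous_id)).measurable.enorm.aemeasurable
          rwa [Measure.restrict_apply_univ, hvol'] at this
      _ = (volume (Metric.closedBall x δ))⁻¹ *
          ∫⁻ y in Metric.closedBall x δ, ‖𝓕⁻ G y‖ₑ ^ 2 := by
          rw [e4, hvol, hvol', ← mul_assoc]
          congr 1
          rw [sq, mul_assoc, ENNReal.inv_mul_cancel hvE hvE', mul_one]

end General

end Pool.Agent.Helper47.LT
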