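import Pool.Agent.Helper47.LTFourier

open MeasureTheory FourierTransform Filter Topology Real
open scoped ENNReal RealInnerProductSpace

namespace Pool.Agent.Helper47.LT

variable {n : ℕ}

/-- monomials indexed by words -/
def wd {k : ℕ} (w : Fin k → Fin n) (ξ : EuclideanSpace ℝ (Fin n)) : ℝ := ∏ l, ξ (w l)

lemma wd_continuous {k : ℕ} (w : Fin k → Fin n) : Continuous (wd w) := by
  unfold wd
  fun_prop

lemma sum_wd_mul (k : ℕ) (ξ h : EuclideanSpace ℝ (Fin n)) :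
    ∑ w : Fin k → Fin n, wd w ξ * wd w h = ⟪ξ, h⟫ ^ k := by
  have : ⟪ξ, h⟫ = ∑ i, ξ i * h i := by
    rw [PiLp.inner_apply]
    refine Finset.sum_congr rfl fun i _ => ?_
    simp [mul_comm]
  rw [this, Fintype.sum_pow]
  refine Finset.sum_congr rfl fun w _ => ?_
  unfold wd
  rw [Finset.prod_mul_distrib]

lemma sum_wd_sq (k : ℕ) (ξ : EuclideanSpace ℝ (Fin n)) :
    ∑ w : Fin k → Fin n, (wd w ξ) ^ 2 = ‖ξ‖ ^ (2 * k) := by
  have := sum_wd_mul k ξ ξ
  rw [real_inner_self_eq_norm_sq, ← pow_mul] at this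
  rw [← this]
  refine Finset.sum_congr rfl fun w _ => by ring

/-- Cauchy-Schwarz for sums in `[0,∞]` with weights -/
lemma tsum_cs (c d : ℕ → ℝ≥0∞) : (∑' k, c k * d k) ^ 2 ≤ (∑' k, c k) * ∑' k, c k * d k ^ 2 := by
  have h := ENNReal.lintegral_mul_le_Lp_mul_Lq (Measure.count : Measure ℕ) (p := 2) (q := 2)
    Real.HolderConjugate.two_two
    (f := fun k => c k ^ (1 / 2 : ℝ)) (g := fun k => c k ^ (1 / 2 : ℝ) * d k)
    (measurable_of_countable _).aemeasurable (measurable_of_countable _).aemeasurable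
  simp only [Pi.mul_apply, lintegral_count] at h
  have hc : ∀ x : ℝ≥0∞, x ^ (1 / 2 : ℝ) * x ^ (1 / 2 : ℝ) = x := by
    intro x
    rw [← ENNReal.rpow_add_of_nonneg _ _ (by norm_num) (by norm_num)]
    norm_num
  have hc2 : ∀ x : ℝ≥0∞, (x ^ (1 / 2 : ℝ)) ^ (2 : ℝ) = x := by
    intro x
    rw [← ENNReal.rpow_mul]; norm_num
  have e1 : ∀ k, c k ^ (1 / 2 : ℝ) * (c k ^ (1 / 2 : ℝ) * d k) = c k * d k := by
    intro k; rw [← mul_assoc, hc]
  have e2 : ∀ k, (c k ^ (1 / 2 : ℝ) * d k) ^ (2 : ℝ) = c k * d k ^ 2 := by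
    intro k
    rw [ENNReal.mul_rpow_of_nonneg _ _ (by norm_num), hc2, ENNReal.rpow_ofNat]
  simp only [e1, e2, hc2] at h
  calc (∑' k, c k * d k) ^ 2
      ≤ ((∑' k, c k) ^ (1 / 2 : ℝ) * (∑' k, c k * d k ^ 2) ^ (1 / 2 : ℝ)) ^ 2 := by gcongr
    _ = (∑' k, c k) * ∑' k, c k * d k ^ 2 := by
        rw [mul_pow, ← ENNReal.rpow_ofNat, ← ENNReal.rpow_ofNat, hc2, hc2]

/-- The exponential remainder. -/
noncomputable def R (M : ℕ) (z : ℂ) : ℂ :=
  Complex.exp z - ∑ k ∈ Finset.range M, z ^ k / (k.factorial : ℂ)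

lemma R_hasSum (M : ℕ) (z : ℂ) :
    HasSum (fun k : ℕ => z ^ (k + M) / ((k + M).factorial : ℂ)) (R M z) := by
  have h : HasSum (fun k : ℕ => z ^ k / (k.factorial : ℂ)) (Complex.exp z) := by
    rw [Complex.exp_eq_exp_ℂ]
    exact NormedSpace.expSeries_div_hasSum_exp z
  exact (hasSum_nat_add_iff' M).mpr h

/-- complex phase -/
noncomputable def ph (ξ x : EuclideanSpace ℝ (Fin n)) : ℂ :=
  Complex.exp (((2 * π * ⟪ξ, x⟫ : ℝ) : ℂ) * Complex.I)

lemma ph_norm (ξ x : EuclideanSpace ℝ (Fin n)) : ‖ph ξ x‖ = 1 := by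
  unfold ph; exact Complex.norm_exp_ofReal_mul_I _

lemma ph_continuous (x : EuclideanSpace ℝ (Fin n)) : Continuous fun ξ => ph ξ x := by
  unfold ph; fun_prop

/-- the `k`-th Taylor term: `∫ g(ξ) e^{2πi⟨ξ,x⟩} ⟨ξ,h⟩^k dξ` is controlled by the words -/
lemma taylor_term (k : ℕ) (g : EuclideanSpace ℝ (Fin n) → ℂ) (x h : EuclideanSpace ℝ (Fin n))
    (hg : ∀ w : Fin k → Fin n, Integrable fun ξ => (wd w ξ : ℂ) * g ξ) :
    ‖∫ ξ, g ξ * ph ξ x * ((⟪ξ, h⟫ : ℝ) : ℂ) ^ k‖ₑ ^ 2 ≤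
      ENNReal.ofReal (‖h‖ ^ (2 * k)) *
        ∑ w : Fin k → Fin n, ‖𝓕⁻ (fun ξ => (wd w ξ : ℂ) * g ξ) x‖ₑ ^ 2 := by
  have e1 : ∫ ξ, g ξ * ph ξ x * ((⟪ξ, h⟫ : ℝ) : ℂ) ^ k =
      ∑ w : Fin k → Fin n, (wd w h : ℂ) * 𝓕⁻ (fun ξ => (wd w ξ : ℂ) * g ξ) x := by
    have e2 : ∀ ξ, g ξ * ph ξ x * ((⟪ξ, h⟫ : ℝ) : ℂ) ^ k =
        ∑ w : Fin k → Fin n, (wd w h : ℂ) * (ph ξ x * ((wd w ξ : ℂ) * g ξ)) := by
      intro ξ
      rw [← Complex.ofReal_pow, ← sum_wd_mul, Complex.ofReal_sum, Finset.mul_sum]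
      refine Finset.sum_congr rfl fun w _ => ?_
      push_cast
      ring
    simp_rw [e2]
    rw [integral_finsetSum]
    · refine Finset.sum_congr rfl fun w _ => ?_
      rw [integral_const_mul, fourierInv_eq']
      rfl
    · intro w _
      refine Integrable.const_mul ?_ _
      refine (hg w).norm.mono' ((ph_continuous x).aestronglyMeasurable.mul
        (hg w).aestronglyMeasurable) (Eventually.of_forall fun ξ => ?_)
      rw [norm_mul, ph_norm, one_mul]
  rw [e1]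
  have e3 : ‖∑ w : Fin k → Fin n, (wd w h : ℂ) * 𝓕⁻ (fun ξ => (wd w ξ : ℂ) * g ξ) x‖ ^ 2 ≤
      ‖h‖ ^ (2 * k) * ∑ w : Fin k → Fin n, ‖𝓕⁻ (fun ξ => (wd w ξ : ℂ) * g ξ) x‖ ^ 2 := by
    calc _ ≤ (∑ w : Fin k → Fin n, |wd w h| * ‖𝓕⁻ (fun ξ => (wd w ξ : ℂ) * g ξ) x‖) ^ 2 := by
          gcongr
          refine (norm_sum_le _ _).trans (le_of_eq ?_)
          refine Finset.sum_congr rfl fun w _ => ?_
          rw [norm_mul, Complex.norm_real, Real.norm_eq_abs]
      _ ≤ (∑ w : Fin k → Fin n, |wd w h| ^ 2) *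
            ∑ w : Fin k → Fin n, ‖𝓕⁻ (fun ξ => (wd w ξ : ℂ) * g ξ) x‖ ^ 2 :=
          Finset.sum_mul_sq_le_sq_mul_sq _ _ _
      _ = _ := by
          congr 1
          rw [← sum_wd_sq]
          simp
  have e4 := ENNReal.ofReal_le_ofReal e3
  rw [ENNReal.ofReal_mul (by positivity), ENNReal.ofReal_pow (norm_nonneg _), ofReal_norm,
    ENNReal.ofReal_sum_of_nonneg (fun w _ => by positivity)] at e4
  simpa [ENNReal.ofReal_pow (norm_nonneg _)] using e4

lemma abs_wd_le {k : ℕ} (w : Fin k → Fin n) (ξ : EuclideanSpace ℝ (Fin n)) :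
    |wd w ξ| ≤ ‖ξ‖ ^ k := by
  have h1 : (wd w ξ) ^ 2 ≤ ∑ w : Fin k → Fin n, (wd w ξ) ^ 2 :=
    Finset.single_le_sum (f := fun w : Fin k → Fin n => (wd w ξ) ^ 2)
      (fun w _ => sq_nonneg _) (Finset.mem_univ w)
  rw [sum_wd_sq, mul_comm, pow_mul] at h1
  exact abs_le_of_sq_le_sq h1 (by positivity)

lemma tsum_inv_factorial_le (M : ℕ) :
    ∑' k : ℕ, ENNReal.ofReal (1 / ((k + M).factorial : ℝ)) ≤ 3 := by
  have hs : HasSum (fun k : ℕ => (1 : ℝ) / (k.factorial : ℝ)) (Real.exp 1) := by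
    have := NormedSpace.expSeries_div_hasSum_exp (1 : ℝ)
    rw [← Real.exp_eq_exp_ℝ] at this
    simpa using this
  have h1 : ∑' k : ℕ, ENNReal.ofReal (1 / (k.factorial : ℝ)) = ENNReal.ofReal (Real.exp 1) := by
    rw [← hs.tsum_eq, ENNReal.ofReal_tsum_of_nonneg (fun k => by positivity) hs.summable]
  have h2 : ∑' k : ℕ, ENNReal.ofReal (1 / ((k + M).factorial : ℝ)) ≤
      ∑' k : ℕ, ENNReal.ofReal (1 / (k.factorial : ℝ)) :=
    ENNReal.tsum_comp_le_tsum_of_injective (add_left_injective M) _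
  refine h2.trans ?_
  rw [h1]
  have : Real.exp 1 ≤ 3 := by linarith [Real.exp_one_lt_d9]
  calc ENNReal.ofReal (Real.exp 1) ≤ ENNReal.ofReal 3 := ENNReal.ofReal_le_ofReal this
    _ = 3 := by norm_num

lemma tsum_quarter_factorial_le :
    ∑' k : ℕ, ENNReal.ofReal ((1 / 4) ^ k / (k.factorial : ℝ)) ≤ 2 := by
  have hs : HasSum (fun k : ℕ => (1 / 4 : ℝ) ^ k / (k.factorial : ℝ)) (Real.exp (1 / 4)) := by
    have := NormedSpace.expSeries_div_hasSum_exp (1 / 4 : ℝ)
    rw [← Real.exp_eq_exp_ℝ] at this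
    exact this
  rw [← ENNReal.ofReal_tsum_of_nonneg (fun k => by positivity) hs.summable, hs.tsum_eq]
  have : Real.exp (1 / 4) ≤ 2 := by
    have h1 : Real.exp (1 / 4) ^ 4 = Real.exp 1 := by
      rw [← Real.exp_nat_mul]; norm_num
    have h2 : Real.exp 1 ≤ 2 ^ 4 := by linarith [Real.exp_one_lt_d9]
    rw [← h1] at h2
    exact le_of_pow_le_pow_left₀ (by norm_num) (by norm_num) h2
  calc ENNReal.ofReal (Real.exp (1 / 4)) ≤ ENNReal.ofReal 2 := ENNReal.ofReal_le_ofReal this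
    _ = 2 := by norm_num

section

variable {δ : ℝ} {g : EuclideanSpace ℝ (Fin n) → ℂ}

lemma wd_mul_bound (hδ : 0 < δ) (hsupp : ∀ ξ, g ξ ≠ 0 → 4 * π * δ * ‖ξ‖ ≤ 1) {k : ℕ}
    (w : Fin k → Fin n) (ξ : EuclideanSpace ℝ (Fin n)) :
    ‖(wd w ξ : ℂ) * g ξ‖ ≤ ((4 * π * δ)⁻¹) ^ k * ‖g ξ‖ := by
  by_cases h : g ξ = 0
  · simp [h]
  · rw [norm_mul, Complex.norm_real, Real.norm_eq_abs]
    have h1 := hsupp ξ h
    have h2 : ‖ξ‖ ≤ (4 * π * δ)⁻¹ := by
      rw [← one_div, le_div_iff₀ (by positivity)]; linarith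
    gcongr
    exact (abs_wd_le w ξ).trans (by gcongr)

lemma wd_mul_integrable (hδ : 0 < δ) (h1 : Integrable g)
    (hsupp : ∀ ξ, g ξ ≠ 0 → 4 * π * δ * ‖ξ‖ ≤ 1) {k : ℕ} (w : Fin k → Fin n) :
    Integrable fun ξ => (wd w ξ : ℂ) * g ξ := by
  refine (h1.norm.const_mul (((4 * π * δ)⁻¹) ^ k)).mono' ?_
    (Eventually.of_forall (wd_mul_bound hδ hsupp w))
  exact (Complex.continuous_ofReal.comp (wd_continuous w)).aestronglyMeasurable.mul
    h1.aestronglyMeasurable

lemma wd_mul_memLp (hδ : 0 < δ) (h2 : MemLp g 2)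
    (hsupp : ∀ ξ, g ξ ≠ 0 → 4 * π * δ * ‖ξ‖ ≤ 1) {k : ℕ} (w : Fin k → Fin n) :
    MemLp (fun ξ => (wd w ξ : ℂ) * g ξ) 2 := by
  refine (h2.norm.const_mul (((4 * π * δ)⁻¹) ^ k)).mono ?_ (Eventually.of_forall fun ξ => ?_)
  · exact (Complex.continuous_ofReal.comp (wd_continuous w)).aestronglyMeasurable.mul
      h2.aestronglyMeasurable
  · have := wd_mul_bound hδ hsupp w ξ
    refine this.trans (le_of_eq ?_)
    rw [norm_mul, norm_norm, Real.norm_of_nonneg (by positivity)]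

/-- Local domination, with the Taylor remainders. -/
theorem exists_dominating_taylor (hδ : 0 < δ) (h1 : Integrable g) (h2 : MemLp g 2)
    (hsupp : ∀ ξ, g ξ ≠ 0 → 4 * π * δ * ‖ξ‖ ≤ 1) :
    ∃ W : EuclideanSpace ℝ (Fin n) → ℝ≥0∞, Measurable W ∧ ∫⁻ x, W x ≤ 8 * ∫⁻ ξ, ‖g ξ‖ₑ ^ 2 ∧
      (∀ x, ‖𝓕⁻ g x‖ₑ ^ 2 ≤ (volume (Metric.closedBall x δ))⁻¹ *
        ∫⁻ y in Metric.closedBall x δ, W y) ∧
      ∀ (M : ℕ) (r : ℝ) (x₀ x : EuclideanSpace ℝ (Fin n)), 0 < r → r ≤ δ →
        x ∈ Metric.closedBall x₀ r →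
        ‖∫ ξ, g ξ * ph ξ x₀ * R M (((2 * π * ⟪ξ, x - x₀⟫ : ℝ) : ℂ) * Complex.I)‖ₑ ^ 2 ≤
          3 * ENNReal.ofReal ((r / δ) ^ (2 * M)) * ((volume (Metric.closedBall x₀ δ))⁻¹ *
            ∫⁻ y in Metric.closedBall x₀ δ, W y) := by
  choose U hUm hUint hU using fun (k : ℕ) (w : Fin k → Fin n) =>
    exists_dominating hδ (wd_mul_integrable hδ h1 hsupp w) (wd_mul_memLp hδ h2 hsupp w) (by
      intro ξ hξ
      apply hsupp
      intro h0
      simp [h0] at hξ)
  set c : ℕ → ℝ≥0∞ := fun k => ENNReal.ofReal ((2 * π * δ) ^ (2 * k) / (k.factorial : ℝ)) with hc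
  set Wk : ℕ → EuclideanSpace ℝ (Fin n) → ℝ≥0∞ := fun k x => ∑ w : Fin k → Fin n, U k w x with hWk
  have hWkm : ∀ k, Measurable (Wk k) := fun k => Finset.measurable_sum _ fun w _ => hUm k w
  -- masses
  have hmass : ∀ k, ∫⁻ x, Wk k x ≤
      4 * ENNReal.ofReal (((4 * π * δ)⁻¹) ^ (2 * k)) * ∫⁻ ξ, ‖g ξ‖ₑ ^ 2 := by
    intro k
    rw [hWk, lintegral_finsetSum _ fun w _ => hUm k w]
    calc ∑ w : Fin k → Fin n, ∫⁻ x, U k w x
        ≤ ∑ w : Fin k → Fin n, 4 * ∫⁻ ξ, ‖(wd w ξ : ℂ) * g ξ‖ₑ ^ 2 :=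
          Finset.sum_le_sum fun w _ => hUint k w
      _ = 4 * ∫⁻ ξ, ∑ w : Fin k → Fin n, ‖(wd w ξ : ℂ) * g ξ‖ₑ ^ 2 := by
          rw [← Finset.mul_sum, lintegral_finsetSum']
          intro w _
          exact ((wd_mul_memLp hδ h2 hsupp w).aestronglyMeasurable.enorm).pow_const 2
      _ ≤ 4 * ∫⁻ ξ, ENNReal.ofReal (((4 * π * δ)⁻¹) ^ (2 * k)) * ‖g ξ‖ₑ ^ 2 := by
          gcongr with ξ
          by_cases h : g ξ = 0
          · simp [h]
          · have e1 : ∀ w : Fin k → Fin n, ‖(wd w ξ : ℂ) * g ξ‖ₑ ^ 2 =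
                ENNReal.ofReal ((wd w ξ) ^ 2) * ‖g ξ‖ₑ ^ 2 := by
              intro w
              rw [enorm_mul, mul_pow, ← ofReal_norm, Complex.norm_real, Real.norm_eq_abs,
                ← ENNReal.ofReal_pow (abs_nonneg _), sq_abs]
            simp_rw [e1]
            rw [← Finset.sum_mul, ← ENNReal.ofReal_sum_of_nonneg (fun w _ => sq_nonneg _),
              sum_wd_sq]
            gcongr
            have h3 := hsupp ξ h
            rw [← one_div, le_div_iff₀ (by positivity)]; linarith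
      _ = 4 * ENNReal.ofReal (((4 * π * δ)⁻¹) ^ (2 * k)) * ∫⁻ ξ, ‖g ξ‖ₑ ^ 2 := by
          rw [lintegral_const_mul' _ _ ENNReal.ofReal_ne_top, ← mul_assoc]
  -- pointwise
  have hpt : ∀ (k : ℕ) x, ∑ w : Fin k → Fin n, ‖𝓕⁻ (fun ξ => (wd w ξ : ℂ) * g ξ) x‖ₑ ^ 2 ≤
      (volume (Metric.closedBall x δ))⁻¹ * ∫⁻ y in Metric.closedBall x δ, Wk k y := by
    intro k x
    rw [hWk, lintegral_finsetSum _ fun w _ => hUm k w, Finset.mul_sum]
    exact Finset.sum_le_sum fun w _ => hU k w x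
  refine ⟨fun x => ∑' k, c k * Wk k x, ?_, ?_, ?_, ?_⟩
  · exact Measurable.tsum fun k => (hWkm k).const_mul _
  · rw [lintegral_tsum fun k => ((hWkm k).const_mul _).aemeasurable]
    calc ∑' k, ∫⁻ x, c k * Wk k x
        ≤ ∑' k, (4 * ∫⁻ ξ, ‖g ξ‖ₑ ^ 2) * ENNReal.ofReal ((1 / 4) ^ k / (k.factorial : ℝ)) := by
          refine ENNReal.tsum_le_tsum fun k => ?_
          rw [lintegral_const_mul' _ _ ENNReal.ofReal_ne_top]
          calc c k * ∫⁻ x, Wk k x ≤ c k *
                (4 * ENNReal.ofReal (((4 * π * δ)⁻¹) ^ (2 * k)) * ∫⁻ ξ, ‖g ξ‖ₑ ^ 2) := by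
                gcongr
                exact hmass k
            _ = (4 * ∫⁻ ξ, ‖g ξ‖ₑ ^ 2) * (c k * ENNReal.ofReal (((4 * π * δ)⁻¹) ^ (2 * k))) := by
                ring
            _ = _ := by
                congr 1
                rw [hc]
                simp only
                rw [← ENNReal.ofReal_mul (by positivity)]
                congr 1
                have : (4 * π * δ)⁻¹ = (1 / 2) * (2 * π * δ)⁻¹ := by
                  field_simp; ring
                rw [this, mul_pow (1 / 2 : ℝ)]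
                have h5 : (2 * π * δ) ^ (2 * k) * ((2 * π * δ)⁻¹) ^ (2 * k) = 1 := by
                  rw [← mul_pow, mul_inv_cancel₀ (by positivity), one_pow]
                have h6 : ((1 : ℝ) / 2) ^ (2 * k) = (1 / 4) ^ k := by
                  rw [pow_mul]; norm_num
                rw [h6]
                calc (2 * π * δ) ^ (2 * k) / (k.factorial : ℝ) *
                      ((1 / 4) ^ k * ((2 * π * δ)⁻¹) ^ (2 * k)) =
                      ((2 * π * δ) ^ (2 * k) * ((2 * π * δ)⁻¹) ^ (2 * k)) *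
                        ((1 / 4) ^ k / (k.factorial : ℝ)) := by ring
                  _ = _ := by rw [h5, one_mul]
      _ = (4 * ∫⁻ ξ, ‖g ξ‖ₑ ^ 2) * ∑' k : ℕ, ENNReal.ofReal ((1 / 4) ^ k / (k.factorial : ℝ)) := by
          rw [ENNReal.tsum_mul_left]
      _ ≤ (4 * ∫⁻ ξ, ‖g ξ‖ₑ ^ 2) * 2 := by
          gcongr
          exact tsum_quarter_factorial_le
      _ = 8 * ∫⁻ ξ, ‖g ξ‖ₑ ^ 2 := by ring
  · intro x
    have h0 := hpt 0 x
    have e0 : ∑ w : Fin 0 → Fin n, ‖𝓕⁻ (fun ξ => (wd w ξ : ℂ) * g ξ) x‖ₑ ^ 2 =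
        ‖𝓕⁻ g x‖ₑ ^ 2 := by
      simp [wd]
    rw [e0] at h0
    refine h0.trans ?_
    gcongr with y
    calc Wk 0 y = c 0 * Wk 0 y := by simp [hc]
      _ ≤ ∑' k, c k * Wk k y := ENNReal.le_tsum 0
  · intro M r x₀ x hr hrδ hx
    set h : EuclideanSpace ℝ (Fin n) := x - x₀ with hh
    have hhr : ‖h‖ ≤ r := by
      rw [hh, ← dist_eq_norm]; exact Metric.mem_closedBall.mp hx
    set A : ℕ → ℂ := fun k => ∫ ξ, g ξ * ph ξ x₀ * ((⟪ξ, h⟫ : ℝ) : ℂ) ^ k with hA
    -- expansion of the remainder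
    have hexp : ‖∫ ξ, g ξ * ph ξ x₀ * R M (((2 * π * ⟪ξ, h⟫ : ℝ) : ℂ) * Complex.I)‖ₑ ≤
        ∑' k : ℕ, ENNReal.ofReal (1 / ((k + M).factorial : ℝ)) *
          (ENNReal.ofReal ((2 * π) ^ (k + M)) * ‖A (k + M)‖ₑ) := by
      set z : EuclideanSpace ℝ (Fin n) → ℂ :=
        fun ξ => ((2 * π * ⟪ξ, h⟫ : ℝ) : ℂ) * Complex.I with hz
      have hzc : Continuous z := by rw [hz]; fun_prop
      set F : ℕ → EuclideanSpace ℝ (Fin n) → ℂ := fun k ξ =>
        g ξ * ph ξ x₀ * (z ξ ^ (k + M) / ((k + M).factorial : ℂ)) with hF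
      have hFm : ∀ k, AEStronglyMeasurable (F k) volume := by
        intro k
        refine (h1.aestronglyMeasurable.mul (ph_continuous x₀).aestronglyMeasurable).mul ?_
        exact ((hzc.pow _).div_const _).aestronglyMeasurable
      have hFb : ∀ k ξ, ‖F k ξ‖ ≤ (1 / 2) ^ k * ‖g ξ‖ := by
        intro k ξ
        by_cases hgξ : g ξ = 0
        · simp [hF, hgξ]
        · have h3 := hsupp ξ hgξ
          have hzn : ‖z ξ‖ ≤ 1 / 2 := by
            rw [hz]
            simp only [norm_mul, Complex.norm_real, Complex.norm_I, mul_one, Real.norm_eq_abs]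
            have h4 : |⟪ξ, h⟫| ≤ ‖ξ‖ * δ :=
              (abs_real_inner_le_norm ξ h).trans (by gcongr; exact hhr.trans hrδ)
            rw [abs_two, abs_of_pos Real.pi_pos]
            calc 2 * π * |⟪ξ, h⟫| ≤ 2 * π * (‖ξ‖ * δ) := by gcongr
              _ ≤ 1 / 2 := by linarith
          rw [hF]
          simp only [norm_mul, ph_norm, mul_one, norm_div, norm_pow, Complex.norm_natCast]
          rw [mul_comm]
          gcongr
          calc ‖z ξ‖ ^ (k + M) / ((k + M).factorial : ℝ) ≤ (1 / 2) ^ (k + M) / 1 := by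
                gcongr
                exact_mod_cast Nat.one_le_iff_ne_zero.mpr (Nat.factorial_ne_zero _)
            _ ≤ (1 / 2) ^ k := by
                rw [div_one, pow_add]
                have : (1 / 2 : ℝ) ^ M ≤ 1 := pow_le_one₀ (by norm_num) (by norm_num)
                nlinarith [pow_pos (show (0 : ℝ) < 1 / 2 by norm_num) k]
      have hFi : ∀ k, Integrable (F k) := fun k =>
        (h1.norm.const_mul _).mono' (hFm k) (Eventually.of_forall (hFb k))
      have hFs : Summable fun k => ∫ ξ, ‖F k ξ‖ := by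
        refine Summable.of_nonneg_of_le (fun k => integral_nonneg fun ξ => norm_nonneg _)
          (fun k => ?_) (summable_geometric_two.mul_right (∫ ξ, ‖g ξ‖))
        rw [← integral_const_mul]
        exact integral_mono (hFi k).norm (h1.norm.const_mul _) (hFb k)
      have hs := hasSum_integral_of_summable_integral_norm hFi hFs
      have e1 : ∫ ξ, ∑' k, F k ξ = ∫ ξ, g ξ * ph ξ x₀ * R M (z ξ) := by
        congr 1
        ext ξ
        exact ((R_hasSum M (z ξ)).mul_left (g ξ * ph ξ x₀)).tsum_eq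
      rw [e1] at hs
      rw [← hs.tsum_eq]
      refine enorm_tsum_le_tsum_enorm.trans (ENNReal.tsum_le_tsum fun k => le_of_eq ?_)
      have e2 : ∫ ξ, F k ξ =
          (((2 * π : ℝ) : ℂ) * Complex.I) ^ (k + M) / ((k + M).factorial : ℂ) * A (k + M) := by
        rw [hA, ← integral_const_mul]
        congr 1
        ext ξ
        simp only [hF, hz]
        push_cast
        ring
      rw [e2, enorm_mul, ← mul_assoc]
      congr 1
      rw [← ENNReal.ofReal_mul (by positivity), ← ofReal_norm]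
      congr 1
      rw [norm_div, norm_pow, norm_mul, Complex.norm_I, Complex.norm_real, Complex.norm_natCast,
        Real.norm_of_nonneg (by positivity), mul_one]
      ring
    calc _ ≤ (∑' k : ℕ, ENNReal.ofReal (1 / ((k + M).factorial : ℝ)) *
          (ENNReal.ofReal ((2 * π) ^ (k + M)) * ‖A (k + M)‖ₑ)) ^ 2 := by gcongr
      _ ≤ (∑' k : ℕ, ENNReal.ofReal (1 / ((k + M).factorial : ℝ))) *
          ∑' k : ℕ, ENNReal.ofReal (1 / ((k + M).factorial : ℝ)) *
          (ENNReal.ofReal ((2 * π) ^ (k + M)) * ‖A (k + M)‖ₑ) ^ 2 := tsum_cs _ _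
      _ ≤ 3 * ∑' k : ℕ, ENNReal.ofReal ((r / δ) ^ (2 * M)) *
          (c (k + M) * ((volume (Metric.closedBall x₀ δ))⁻¹ *
            ∫⁻ y in Metric.closedBall x₀ δ, Wk (k + M) y)) := by
          refine mul_le_mul' (tsum_inv_factorial_le M) (ENNReal.tsum_le_tsum fun k => ?_)
          · have hAk := taylor_term (k + M) g x₀ h
              (fun w => wd_mul_integrable hδ h1 hsupp w)
            have hAk' : ‖A (k + M)‖ₑ ^ 2 ≤ ENNReal.ofReal (r ^ (2 * (k + M))) *
                ((volume (Metric.closedBall x₀ δ))⁻¹ *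
                  ∫⁻ y in Metric.closedBall x₀ δ, Wk (k + M) y) := by
              refine hAk.trans ?_
              gcongr
              exact hpt (k + M) x₀
            calc _ = ENNReal.ofReal (1 / ((k + M).factorial : ℝ)) *
                  ENNReal.ofReal ((2 * π) ^ (k + M)) ^ 2 * ‖A (k + M)‖ₑ ^ 2 := by ring
              _ ≤ ENNReal.ofReal (1 / ((k + M).factorial : ℝ)) *
                  ENNReal.ofReal ((2 * π) ^ (k + M)) ^ 2 * (ENNReal.ofReal (r ^ (2 * (k + M))) *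
                ((volume (Metric.closedBall x₀ δ))⁻¹ *
                  ∫⁻ y in Metric.closedBall x₀ δ, Wk (k + M) y)) := by gcongr
              _ = (ENNReal.ofReal (1 / ((k + M).factorial : ℝ)) *
                  ENNReal.ofReal ((2 * π) ^ (k + M)) ^ 2 * ENNReal.ofReal (r ^ (2 * (k + M)))) *
                ((volume (Metric.closedBall x₀ δ))⁻¹ *
                  ∫⁻ y in Metric.closedBall x₀ δ, Wk (k + M) y) := by ring
              _ ≤ (ENNReal.ofReal ((r / δ) ^ (2 * M)) * c (k + M)) *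
                ((volume (Metric.closedBall x₀ δ))⁻¹ *
                  ∫⁻ y in Metric.closedBall x₀ δ, Wk (k + M) y) := by
                  refine mul_le_mul' ?_ le_rfl
                  rw [hc]
                  simp only
                  rw [← ENNReal.ofReal_pow (by positivity), ← ENNReal.ofReal_mul (by positivity),
                    ← ENNReal.ofReal_mul (by positivity), ← ENNReal.ofReal_mul (by positivity)]
                  apply ENNReal.ofReal_le_ofReal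
                  have hrd : r / δ ≤ 1 := by rw [div_le_one hδ]; exact hrδ
                  have e5 : (r / δ) ^ (2 * (k + M)) ≤ (r / δ) ^ (2 * M) :=
                    pow_le_pow_of_le_one (by positivity) hrd (by omega)
                  have e6 : r ^ (2 * (k + M)) = (r / δ) ^ (2 * (k + M)) * δ ^ (2 * (k + M)) := by
                    rw [div_pow]; field_simp
                  calc 1 / ((k + M).factorial : ℝ) * ((2 * π) ^ (k + M)) ^ 2 * r ^ (2 * (k + M))
                      = (r / δ) ^ (2 * (k + M)) *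
                        ((2 * π * δ) ^ (2 * (k + M)) / ((k + M).factorial : ℝ)) := by
                        rw [e6, mul_pow (2 * π) δ, ← pow_mul, mul_comm (k + M) 2]; ring
                    _ ≤ _ := by gcongr
              _ = _ := by ring
      _ ≤ 3 * (ENNReal.ofReal ((r / δ) ^ (2 * M)) *
          ∑' k : ℕ, (c k * ((volume (Metric.closedBall x₀ δ))⁻¹ *
            ∫⁻ y in Metric.closedBall x₀ δ, Wk k y))) := by
          rw [ENNReal.tsum_mul_left]
          refine mul_le_mul' le_rfl (mul_le_mul' le_rfl ?_)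
          exact ENNReal.tsum_comp_le_tsum_of_injective (add_left_injective M)
            (fun k => c k * ((volume (Metric.closedBall x₀ δ))⁻¹ *
              ∫⁻ y in Metric.closedBall x₀ δ, Wk k y))
      _ = 3 * ENNReal.ofReal ((r / δ) ^ (2 * M)) * ((volume (Metric.closedBall x₀ δ))⁻¹ *
            ∫⁻ y in Metric.closedBall x₀ δ, ∑' k, c k * Wk k y) := by
          rw [lintegral_tsum fun k => ((hWkm k).const_mul _).aemeasurable, mul_assoc]
          congr 2
          rw [← ENNReal.tsum_mul_left]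
          congr 1
          ext k
          rw [lintegral_const_mul' _ _ ENNReal.ofReal_ne_top]
          ring

end

end Pool.Agent.Helper47.LT
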