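import Pool.Agent.Helper47.LTCore

open MeasureTheory FourierTransform Filter Topology Real
open scoped ENNReal RealInnerProductSpace

namespace Pool.Agent.Helper47.LT

variable {n : ℕ}

/-- the real inequality behind the weights -/
lemma weight_ineq {s : ℝ} {M : ℕ} {ε : ℝ} (hε1 : ε ≤ 2 * s - n) (hε2 : ε ≤ 2 * M - 2 * s)
    (h2sn : 0 ≤ 2 * s - n) (h2Ms : 0 ≤ 2 * (M : ℝ) - 2 * s) {r : ℝ} {j j₀ : ℤ} (hj1 : (2 : ℝ) ^ j₀ ≤ r)
    (hj2 : r < (2 : ℝ) ^ (j₀ + 1)) :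
    r ^ ((n : ℝ) - 2 * s) * (if r < (2 : ℝ) ^ j then (r / (2 : ℝ) ^ j) ^ (2 * M) else 1) *
      (((2 : ℝ) ^ j) ^ n)⁻¹ ≤
    (2 : ℝ) ^ (2 * M) * (2 : ℝ) ^ (-ε * |(j : ℝ) - j₀|) * ((2 : ℝ) ^ j) ^ (-2 * s - n) *
      (min r ((2 : ℝ) ^ j)) ^ n := by
  have hr : 0 < r := lt_of_lt_of_le (by positivity) hj1
  set ρ := Real.logb 2 r with hρ
  have hrρ : r = (2 : ℝ) ^ ρ := (Real.rpow_logb (by norm_num) (by norm_num) hr).symm
  have hz : ∀ k : ℤ, (2 : ℝ) ^ k = (2 : ℝ) ^ (k : ℝ) := fun k => (Real.rpow_intCast 2 k).symm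
  have h1 : (j₀ : ℝ) ≤ ρ := by
    rw [hrρ, hz] at hj1
    exact (Real.rpow_le_rpow_left_iff (by norm_num)).mp hj1
  have h2 : ρ < (j₀ : ℝ) + 1 := by
    rw [hrρ, hz] at hj2
    have := (Real.rpow_lt_rpow_left_iff (by norm_num)).mp hj2
    push_cast at this
    exact this
  have two_pos : (0 : ℝ) < 2 := by norm_num
  by_cases h : r < (2 : ℝ) ^ j
  · rw [if_pos h, min_eq_left h.le]
    have h3 : ρ < (j : ℝ) := by
      rw [hrρ, hz] at h
      exact (Real.rpow_lt_rpow_left_iff (by norm_num)).mp h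
    have hjj : (j₀ : ℤ) + 1 ≤ j := by
      have : (j₀ : ℝ) < j := by linarith
      exact_mod_cast this
    have hjj' : (j₀ : ℝ) + 1 ≤ j := by exact_mod_cast hjj
    rw [abs_of_nonneg (by linarith : (0 : ℝ) ≤ (j : ℝ) - j₀), hrρ, hz j]
    rw [← Real.rpow_sub two_pos, ← Real.rpow_mul two_pos.le, ← Real.rpow_natCast,
      ← Real.rpow_natCast, ← Real.rpow_natCast, ← Real.rpow_natCast, ← Real.rpow_mul two_pos.le,
      ← Real.rpow_mul two_pos.le, ← Real.rpow_mul two_pos.le, ← Real.rpow_mul two_pos.le,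
      ← Real.rpow_neg two_pos.le, ← Real.rpow_add two_pos, ← Real.rpow_add two_pos,
      ← Real.rpow_add two_pos, ← Real.rpow_add two_pos, ← Real.rpow_add two_pos]
    apply Real.rpow_le_rpow_of_exponent_le (by norm_num)
    push_cast
    have e1 : (2 * (M : ℝ) - 2 * s) * (ρ - j) ≤ 2 * M - ε * (j - j₀) := by
      have hρj : ρ - j ≤ 1 - (j - j₀ : ℝ) := by linarith
      have h4 : (2 * (M : ℝ) - 2 * s) * (ρ - j) ≤ (2 * (M : ℝ) - 2 * s) * (1 - (j - j₀ : ℝ)) := by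
        gcongr
      have h5 : ε * (j - j₀ : ℝ) ≤ (2 * (M : ℝ) - 2 * s) * (j - j₀ : ℝ) :=
        mul_le_mul_of_nonneg_right hε2 (by linarith)
      have hs0 : 0 ≤ s := by
        have : (0 : ℝ) ≤ n := by positivity
        linarith
      linarith
    nlinarith
  · rw [if_neg h]
    push Not at h
    rw [min_eq_right h]
    have h3 : (j : ℝ) ≤ ρ := by
      rw [hrρ, hz] at h
      exact (Real.rpow_le_rpow_left_iff (by norm_num)).mp h
    have hjj : j ≤ (j₀ : ℤ) := by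
      have : (j : ℝ) < (j₀ : ℝ) + 1 := by linarith
      have : (j : ℤ) < j₀ + 1 := by exact_mod_cast this
      omega
    have hjj' : (j : ℝ) ≤ j₀ := by exact_mod_cast hjj
    rw [abs_of_nonpos (by linarith : (j : ℝ) - j₀ ≤ 0), hrρ, hz j, mul_one]
    rw [← Real.rpow_mul two_pos.le, ← Real.rpow_natCast,
      ← Real.rpow_natCast, ← Real.rpow_mul two_pos.le, ← Real.rpow_mul two_pos.le,
      ← Real.rpow_neg two_pos.le, ← Real.rpow_add two_pos, ← Real.rpow_add two_pos,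
      ← Real.rpow_add two_pos, ← Real.rpow_add two_pos]
    apply Real.rpow_le_rpow_of_exponent_le (by norm_num)
    push_cast
    have hM0 : (0 : ℝ) ≤ 2 * M := by positivity
    have h4 : (2 * s - n) * (j₀ : ℝ) ≤ (2 * s - n) * ρ := by gcongr
    have h5 : ε * (j₀ - j : ℝ) ≤ (2 * s - n) * (j₀ - j : ℝ) :=
      mul_le_mul_of_nonneg_right hε1 (by linarith)
    nlinarith

/-- the geometric weights -/
noncomputable def dw (ε : ℝ) (m : ℤ) : ℝ≥0∞ := ENNReal.ofReal ((2 : ℝ) ^ (-ε * |(m : ℝ)|))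

lemma dw_pos (ε : ℝ) (m : ℤ) : dw ε m ≠ 0 := by
  unfold dw
  rw [Ne, ENNReal.ofReal_eq_zero, not_le]
  positivity

lemma dw_ne_top (ε : ℝ) (m : ℤ) : dw ε m ≠ ∞ := ENNReal.ofReal_ne_top

lemma tsum_dw_ne_top {ε : ℝ} (hε : 0 < ε) : ∑' m : ℤ, dw ε m ≠ ∞ := by
  have hq0 : (0 : ℝ) ≤ (2 : ℝ) ^ (-ε) := by positivity
  have hq : (2 : ℝ) ^ (-ε) < 1 := Real.rpow_lt_one_of_one_lt_of_neg (by norm_num) (by linarith)
  have hs : Summable fun m : ℤ => (2 : ℝ) ^ (-ε * |(m : ℝ)|) := by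
    apply Summable.of_nat_of_neg
    · refine (summable_geometric_of_lt_one hq0 hq).congr fun k => ?_
      rw [← Real.rpow_natCast, ← Real.rpow_mul (by norm_num)]
      simp
    · refine (summable_geometric_of_lt_one hq0 hq).congr fun k => ?_
      rw [← Real.rpow_natCast, ← Real.rpow_mul (by norm_num)]
      simp
  unfold dw
  rw [← ENNReal.ofReal_tsum_of_nonneg (fun m => by positivity) hs]
  exact ENNReal.ofReal_ne_top

lemma tsum_dw_shift (ε : ℝ) (j₀ : ℤ) : ∑' j : ℤ, dw ε (j - j₀) = ∑' m : ℤ, dw ε m :=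
  (Equiv.subRight j₀).tsum_eq (dw ε)

/-- volume of a ball in terms of the unit ball -/
lemma vol_ball (x : EuclideanSpace ℝ (Fin n)) {ρ : ℝ} (hρ : 0 ≤ ρ) :
    volume (Metric.closedBall x ρ) = ENNReal.ofReal (ρ ^ n) *
      volume (Metric.ball (0 : EuclideanSpace ℝ (Fin n)) 1) := by
  rw [Measure.addHaar_closedBall volume x hρ, finrank_euclideanSpace_fin]

lemma omega_ne_zero : volume (Metric.ball (0 : EuclideanSpace ℝ (Fin n)) 1) ≠ 0 :=
  (Metric.measure_ball_pos _ _ (by norm_num)).ne'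

lemma omega_ne_top : volume (Metric.ball (0 : EuclideanSpace ℝ (Fin n)) 1) ≠ ∞ :=
  measure_ball_lt_top.ne

/-- the constant in the core bound -/
noncomputable def coreC (n : ℕ) (s : ℝ) (M : ℕ) (ε : ℝ) : ℝ≥0∞ :=
  (∑' m : ℤ, dw ε m) * (3 * (ENNReal.ofReal ((2 : ℝ) ^ (2 * M)) *
    (volume (Metric.ball (0 : EuclideanSpace ℝ (Fin n)) 1))⁻¹ ^ 2)) *
    (ENNReal.ofReal (3 ^ n) * volume (Metric.ball (0 : EuclideanSpace ℝ (Fin n)) 1)) * 8 *
    ENNReal.ofReal (4 ^ (2 * s))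

lemma coreC_ne_top {n : ℕ} {s : ℝ} {M : ℕ} {ε : ℝ} (hε : 0 < ε) : coreC n s M ε ≠ ∞ := by
  unfold coreC
  have h1 := tsum_dw_ne_top hε
  have h2 := omega_ne_zero (n := n)
  have h3 := omega_ne_top (n := n)
  finiteness

theorem core_bound (hn : 0 < n) {s : ℝ} {M : ℕ} {ε : ℝ} (hε : 0 < ε) (hε1 : ε ≤ 2 * s - n)
    (hε2 : ε ≤ 2 * M - 2 * s) {g : EuclideanSpace ℝ (Fin n) → ℂ} (h1 : Integrable g)
    (h2 : MemLp g 2) {ι : Type*} (t : Finset ι) (c : ι → EuclideanSpace ℝ (Fin n))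
    (r : ι → ℝ) (hr : ∀ i ∈ t, 0 < r i)
    (hdisj : (t : Set ι).PairwiseDisjoint fun i => Metric.closedBall (c i) (r i))
    (hz : ∀ i ∈ t, MomentZero M g (c i) (r i)) :
    ∃ b : ι → ℝ≥0∞, (∀ i ∈ t, ∀ x ∈ Metric.closedBall (c i) (r i), ‖𝓕⁻ g x‖ₑ ^ 2 ≤ b i) ∧
      ∑ i ∈ t, ENNReal.ofReal (r i ^ ((n : ℝ) - 2 * s)) * b i ≤
        coreC n s M ε * ∫⁻ ξ, ENNReal.ofReal ((2 * π * ‖ξ‖) ^ (2 * s)) * ‖g ξ‖ₑ ^ 2 := by
  classical
  have hnt : Nontrivial (EuclideanSpace ℝ (Fin n)) := by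
    have : NeZero n := ⟨hn.ne'⟩
    infer_instance
  have hs0 : 0 < s := by
    have : (0 : ℝ) ≤ n := by positivity
    linarith
  set ω := volume (Metric.ball (0 : EuclideanSpace ℝ (Fin n)) 1) with hω
  have hω0 : ω ≠ 0 := omega_ne_zero
  have hωt : ω ≠ ∞ := omega_ne_top
  -- the pieces
  set gj : ℤ → EuclideanSpace ℝ (Fin n) → ℂ := fun j => (shell n j).indicator g with hgj
  have hgj1 : ∀ j, Integrable (gj j) := fun j => h1.indicator (measurableSet_shell j)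
  have hgj2 : ∀ j, MemLp (gj j) 2 := fun j => h2.indicator (measurableSet_shell j)
  have hδ : ∀ j : ℤ, (0 : ℝ) < 2 ^ j := fun j => by positivity
  have hsupp : ∀ j ξ, gj j ξ ≠ 0 → 4 * π * (2 : ℝ) ^ j * ‖ξ‖ ≤ 1 := by
    intro j ξ h
    have hmem : ξ ∈ shell n j := by
      by_contra hc
      exact h (Set.indicator_of_notMem hc _)
    have := hmem.2
    linarith
  choose W hWm hWmass hWpt hWtay using fun j =>
    exists_dominating_taylor (hδ j) (hgj1 j) (hgj2 j) (hsupp j)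
  -- base scales
  have hj0 : ∀ i, ∃ j₀ : ℤ, i ∈ t → (2 : ℝ) ^ j₀ ≤ r i ∧ r i < (2 : ℝ) ^ (j₀ + 1) := by
    intro i
    by_cases hi : i ∈ t
    · obtain ⟨j₀, h⟩ := exists_zpow_near (hr i hi)
      exact ⟨j₀, fun _ => h⟩
    · exact ⟨0, fun h => absurd h hi⟩
  choose j₀ hj₀ using hj0
  set κ : ι → ℤ → ℝ := fun i j => if r i < (2 : ℝ) ^ j then (r i / (2 : ℝ) ^ j) ^ (2 * M) else 1
    with hκ
  set β : ι → ℤ → ℝ≥0∞ := fun i j => 3 * ENNReal.ofReal (κ i j) *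
    ((ENNReal.ofReal (((2 : ℝ) ^ j) ^ n) * ω)⁻¹ *
      ∫⁻ y in Metric.closedBall (c i) (r i + (2 : ℝ) ^ j), W j y) with hβ
  -- pointwise bound for each piece
  have hpiece : ∀ i ∈ t, ∀ x ∈ Metric.closedBall (c i) (r i), ∀ j : ℤ,
      ‖∫ ξ in shell n j, Gmod M g (c i) x (r i) ξ‖ₑ ^ 2 ≤ β i j := by
    intro i hi x hx j
    have hri := hr i hi
    by_cases hlt : r i < (2 : ℝ) ^ j
    · have e1 : ∫ ξ in shell n j, Gmod M g (c i) x (r i) ξ =
          ∫ ξ, gj j ξ * ph ξ (c i) * R M (((2 * π * ⟪ξ, x - c i⟫ : ℝ) : ℂ) * Complex.I) := by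
        rw [← integral_indicator (measurableSet_shell j)]
        congr 1
        ext ξ
        by_cases hξ : ξ ∈ shell n j
        · rw [Set.indicator_of_mem hξ, Gmod_of_mem ((mem_low_iff hξ).mpr hlt), hgj]
          simp only [Set.indicator_of_mem hξ]
        · rw [Set.indicator_of_notMem hξ, hgj]
          simp only [Set.indicator_of_notMem hξ, zero_mul]
      rw [e1]
      refine (hWtay j M (r i) (c i) x hri hlt.le hx).trans ?_
      rw [hβ]
      simp only [hκ, if_pos hlt]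
      rw [vol_ball _ (hδ j).le]
      gcongr
      linarith
    · have e1 : ∫ ξ in shell n j, Gmod M g (c i) x (r i) ξ = 𝓕⁻ (gj j) x := by
        rw [fourierInv_eq_ph, ← integral_indicator (measurableSet_shell j)]
        congr 1
        ext ξ
        by_cases hξ : ξ ∈ shell n j
        · rw [Set.indicator_of_mem hξ, Gmod_of_notMem (fun h => hlt ((mem_low_iff hξ).mp h)), hgj]
          simp only [Set.indicator_of_mem hξ]
        · rw [Set.indicator_of_notMem hξ, hgj]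
          simp only [Set.indicator_of_notMem hξ, zero_mul]
      rw [e1]
      refine (hWpt j x).trans ?_
      rw [hβ]
      simp only [hκ, if_neg hlt, ENNReal.ofReal_one, mul_one]
      rw [vol_ball _ (hδ j).le]
      calc (ENNReal.ofReal (((2 : ℝ) ^ j) ^ n) * ω)⁻¹ *
            ∫⁻ y in Metric.closedBall x ((2 : ℝ) ^ j), W j y
          ≤ (ENNReal.ofReal (((2 : ℝ) ^ j) ^ n) * ω)⁻¹ *
            ∫⁻ y in Metric.closedBall (c i) (r i + (2 : ℝ) ^ j), W j y := by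
            gcongr
            rw [Metric.mem_closedBall] at hx
            refine Metric.closedBall_subset_closedBall' ?_
            linarith
        _ ≤ 3 * ((ENNReal.ofReal (((2 : ℝ) ^ j) ^ n) * ω)⁻¹ *
            ∫⁻ y in Metric.closedBall (c i) (r i + (2 : ℝ) ^ j), W j y) := by
            refine le_mul_of_one_le_left (by positivity) (by norm_num)
  -- the bounds
  set D := ∑' m : ℤ, dw ε m with hD
  refine ⟨fun i => D * ∑' j : ℤ, (dw ε (j - j₀ i))⁻¹ * β i j, ?_, ?_⟩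
  · intro i hi x hx
    have hint := Gmod_integrable (M := M) h1 (hr i hi) hx
    have hun : (⋃ j, shell n j) =ᵐ[volume] (Set.univ : Set (EuclideanSpace ℝ (Fin n))) := by
      rw [ae_eq_univ]
      refine measure_mono_null (t := {0}) ?_ (measure_singleton _)
      intro ξ hξ
      by_contra h0
      obtain ⟨j, hj⟩ := mem_shell_of_ne h0
      exact hξ (Set.mem_iUnion.mpr ⟨j, hj⟩)
    have hsum := hasSum_integral_iUnion (μ := volume) (fun j => measurableSet_shell (n := n) j)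
      shell_disjoint (hint.integrableOn)
    rw [setIntegral_congr_set hun, setIntegral_univ, integral_Gmod h1 (hr i hi) hx (hz i hi)]
      at hsum
    have hle : ‖𝓕⁻ g x‖ₑ ≤ ∑' j : ℤ, ‖∫ ξ in shell n j, Gmod M g (c i) x (r i) ξ‖ₑ := by
      rw [← hsum.tsum_eq]
      exact enorm_tsum_le_tsum_enorm
    calc ‖𝓕⁻ g x‖ₑ ^ 2 ≤ (∑' j : ℤ, ‖∫ ξ in shell n j, Gmod M g (c i) x (r i) ξ‖ₑ) ^ 2 := by
          gcongr
      _ = (∑' j : ℤ, dw ε (j - j₀ i) * ((dw ε (j - j₀ i))⁻¹ *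
            ‖∫ ξ in shell n j, Gmod M g (c i) x (r i) ξ‖ₑ)) ^ 2 := by
          congr 2
          ext j
          rw [← mul_assoc, ENNReal.mul_inv_cancel (dw_pos _ _) (dw_ne_top _ _), one_mul]
      _ ≤ (∑' j : ℤ, dw ε (j - j₀ i)) * ∑' j : ℤ, dw ε (j - j₀ i) * ((dw ε (j - j₀ i))⁻¹ *
            ‖∫ ξ in shell n j, Gmod M g (c i) x (r i) ξ‖ₑ) ^ 2 := tsum_cs' _ _
      _ ≤ D * ∑' j : ℤ, (dw ε (j - j₀ i))⁻¹ * β i j := by
          rw [tsum_dw_shift]
          refine mul_le_mul' le_rfl (ENNReal.tsum_le_tsum fun j => ?_)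
          rw [mul_pow, sq (dw ε (j - j₀ i))⁻¹, ← mul_assoc, ← mul_assoc,
            ENNReal.mul_inv_cancel (dw_pos _ _) (dw_ne_top _ _), one_mul]
          exact mul_le_mul' le_rfl (hpiece i hi x hx j)
  · -- the sum
    set C₂ : ℝ≥0∞ := 3 * (ENNReal.ofReal ((2 : ℝ) ^ (2 * M)) * ω⁻¹ ^ 2) with hC₂
    have hkey : ∀ i ∈ t, ∀ j : ℤ, ENNReal.ofReal (r i ^ ((n : ℝ) - 2 * s)) *
        ((dw ε (j - j₀ i))⁻¹ * β i j) ≤ C₂ * ENNReal.ofReal (((2 : ℝ) ^ j) ^ (-2 * s - n)) *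
          (volume (Metric.closedBall (0 : EuclideanSpace ℝ (Fin n)) (min (r i) ((2 : ℝ) ^ j))) *
            ∫⁻ y in Metric.closedBall (c i) (r i + (2 : ℝ) ^ j), W j y) := by
      intro i hi j
      have hri := hr i hi
      obtain ⟨hja, hjb⟩ := hj₀ i hi
      have hreal := weight_ineq (n := n) (s := s) (M := M) (ε := ε) hε1 hε2 (by linarith)
        (by linarith) (r := r i) (j := j) (j₀ := j₀ i) hja hjb
      have hκ0 : 0 ≤ κ i j := by
        rw [hκ]; simp only; split_ifs <;> positivity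
      have hreal' := ENNReal.ofReal_le_ofReal hreal
      rw [ENNReal.ofReal_mul (by positivity), ENNReal.ofReal_mul (by positivity),
        ENNReal.ofReal_mul (by positivity), ENNReal.ofReal_mul (by positivity),
        ENNReal.ofReal_mul (by positivity)] at hreal'
      have hdw : ENNReal.ofReal ((2 : ℝ) ^ (-ε * |(j : ℝ) - (j₀ i)|)) = dw ε (j - j₀ i) := by
        unfold dw; push_cast; rfl
      rw [hdw, ENNReal.ofReal_inv_of_pos (by positivity)] at hreal'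
      have hlhs : ENNReal.ofReal (r i ^ ((n : ℝ) - 2 * s)) * ((dw ε (j - j₀ i))⁻¹ * β i j) =
          (ENNReal.ofReal (r i ^ ((n : ℝ) - 2 * s)) * ENNReal.ofReal (κ i j) *
            (ENNReal.ofReal (((2 : ℝ) ^ j) ^ n))⁻¹) * ((dw ε (j - j₀ i))⁻¹ * 3 * ω⁻¹ *
            ∫⁻ y in Metric.closedBall (c i) (r i + (2 : ℝ) ^ j), W j y) := by
        rw [hβ]
        simp only
        rw [ENNReal.mul_inv (Or.inr hωt) (Or.inr hω0)]
        ring
      rw [hlhs]
      refine (mul_le_mul' hreal' le_rfl).trans (le_of_eq ?_)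
      rw [vol_ball _ (by positivity), ← hω, hC₂]
      have hcan : dw ε (j - j₀ i) * (dw ε (j - j₀ i))⁻¹ = 1 :=
        ENNReal.mul_inv_cancel (dw_pos _ _) (dw_ne_top _ _)
      have hcan2 : ω⁻¹ * ω = 1 := ENNReal.inv_mul_cancel hω0 hωt
      calc _ = (dw ε (j - j₀ i) * (dw ε (j - j₀ i))⁻¹) * (3 * ω⁻¹ *
            ENNReal.ofReal ((2 : ℝ) ^ (2 * M)) * ENNReal.ofReal (((2 : ℝ) ^ j) ^ (-2 * s - n)) *
            ENNReal.ofReal ((min (r i) ((2 : ℝ) ^ j)) ^ n) *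
            ∫⁻ y in Metric.closedBall (c i) (r i + (2 : ℝ) ^ j), W j y) := by ring
        _ = 3 * ω⁻¹ *
            ENNReal.ofReal ((2 : ℝ) ^ (2 * M)) * ENNReal.ofReal (((2 : ℝ) ^ j) ^ (-2 * s - n)) *
            ENNReal.ofReal ((min (r i) ((2 : ℝ) ^ j)) ^ n) *
            ∫⁻ y in Metric.closedBall (c i) (r i + (2 : ℝ) ^ j), W j y := by rw [hcan, one_mul]
        _ = 3 * ω⁻¹ * (ω⁻¹ * ω) *
            ENNReal.ofReal ((2 : ℝ) ^ (2 * M)) * ENNReal.ofReal (((2 : ℝ) ^ j) ^ (-2 * s - n)) *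
            ENNReal.ofReal ((min (r i) ((2 : ℝ) ^ j)) ^ n) *
            ∫⁻ y in Metric.closedBall (c i) (r i + (2 : ℝ) ^ j), W j y := by rw [hcan2, mul_one]
        _ = _ := by ring
    have hT : ∑' j : ℤ, ENNReal.ofReal (((2 : ℝ) ^ j) ^ (-2 * s)) * ∫⁻ ξ, ‖gj j ξ‖ₑ ^ 2 ≤
        ENNReal.ofReal (4 ^ (2 * s)) *
          ∫⁻ ξ, ENNReal.ofReal ((2 * π * ‖ξ‖) ^ (2 * s)) * ‖g ξ‖ₑ ^ 2 := by
      calc ∑' j : ℤ, ENNReal.ofReal (((2 : ℝ) ^ j) ^ (-2 * s)) * ∫⁻ ξ, ‖gj j ξ‖ₑ ^ 2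
          ≤ ∑' j : ℤ, ∫⁻ ξ in shell n j, ENNReal.ofReal (4 ^ (2 * s)) *
              (ENNReal.ofReal ((2 * π * ‖ξ‖) ^ (2 * s)) * ‖g ξ‖ₑ ^ 2) := by
            refine ENNReal.tsum_le_tsum fun j => ?_
            rw [← lintegral_const_mul' _ _ ENNReal.ofReal_ne_top,
              ← lintegral_indicator (measurableSet_shell j)]
            refine lintegral_mono fun ξ => ?_
            by_cases hξ : ξ ∈ shell n j
            · rw [Set.indicator_of_mem hξ, hgj]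
              simp only [Set.indicator_of_mem hξ]
              rw [← mul_assoc, ← ENNReal.ofReal_mul (by positivity)]
              gcongr
              have h3 := hξ.1
              have h4 : ((2 : ℝ) ^ j)⁻¹ ≤ 4 * (2 * π * ‖ξ‖) := by
                rw [← one_div, div_le_iff₀ (hδ j)]
                linarith
              rw [neg_mul, Real.rpow_neg (hδ j).le, ← Real.inv_rpow (hδ j).le,
                ← Real.mul_rpow (by norm_num) (by positivity)]
              gcongr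
            · rw [Set.indicator_of_notMem hξ, hgj]
              simp only [Set.indicator_of_notMem hξ]
              simp
        _ = ∫⁻ ξ in ⋃ j, shell n j, ENNReal.ofReal (4 ^ (2 * s)) *
              (ENNReal.ofReal ((2 * π * ‖ξ‖) ^ (2 * s)) * ‖g ξ‖ₑ ^ 2) := by
            rw [lintegral_iUnion (fun j => measurableSet_shell j) shell_disjoint]
        _ ≤ ∫⁻ ξ, ENNReal.ofReal (4 ^ (2 * s)) *
              (ENNReal.ofReal ((2 * π * ‖ξ‖) ^ (2 * s)) * ‖g ξ‖ₑ ^ 2) :=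
            setLIntegral_le_lintegral _ _
        _ = _ := by rw [lintegral_const_mul' _ _ ENNReal.ofReal_ne_top]
    calc ∑ i ∈ t, ENNReal.ofReal (r i ^ ((n : ℝ) - 2 * s)) *
          (D * ∑' j : ℤ, (dw ε (j - j₀ i))⁻¹ * β i j)
        = D * ∑ i ∈ t, ∑' j : ℤ, ENNReal.ofReal (r i ^ ((n : ℝ) - 2 * s)) *
            ((dw ε (j - j₀ i))⁻¹ * β i j) := by
          rw [Finset.mul_sum]
          refine Finset.sum_congr rfl fun i _ => ?_
          rw [ENNReal.tsum_mul_left]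
          ring
      _ ≤ D * ∑ i ∈ t, ∑' j : ℤ, C₂ * ENNReal.ofReal (((2 : ℝ) ^ j) ^ (-2 * s - n)) *
          (volume (Metric.closedBall (0 : EuclideanSpace ℝ (Fin n)) (min (r i) ((2 : ℝ) ^ j))) *
            ∫⁻ y in Metric.closedBall (c i) (r i + (2 : ℝ) ^ j), W j y) :=
          mul_le_mul' le_rfl (Finset.sum_le_sum fun i hi =>
            ENNReal.tsum_le_tsum fun j => hkey i hi j)
      _ = D * ∑' j : ℤ, C₂ * ENNReal.ofReal (((2 : ℝ) ^ j) ^ (-2 * s - n)) * ∑ i ∈ t,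
          (volume (Metric.closedBall (0 : EuclideanSpace ℝ (Fin n)) (min (r i) ((2 : ℝ) ^ j))) *
            ∫⁻ y in Metric.closedBall (c i) (r i + (2 : ℝ) ^ j), W j y) := by
          rw [← Summable.tsum_finsetSum fun _ _ => ENNReal.summable]
          congr 2
          ext j
          rw [Finset.mul_sum]
      _ ≤ D * ∑' j : ℤ, C₂ * ENNReal.ofReal (((2 : ℝ) ^ j) ^ (-2 * s - n)) *
          (volume (Metric.closedBall (0 : EuclideanSpace ℝ (Fin n)) (3 * (2 : ℝ) ^ j)) *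
            ∫⁻ y, W j y) :=
          mul_le_mul' le_rfl (ENNReal.tsum_le_tsum fun j => mul_le_mul' le_rfl
            (counting t c r hr hdisj (hδ j) (W j) (hWm j)))
      _ ≤ D * ∑' j : ℤ, C₂ * ENNReal.ofReal (((2 : ℝ) ^ j) ^ (-2 * s - n)) *
          (volume (Metric.closedBall (0 : EuclideanSpace ℝ (Fin n)) (3 * (2 : ℝ) ^ j)) *
            (8 * ∫⁻ ξ, ‖gj j ξ‖ₑ ^ 2)) :=
          mul_le_mul' le_rfl (ENNReal.tsum_le_tsum fun j => mul_le_mul' le_rfl
            (mul_le_mul' le_rfl (hWmass j)))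
      _ = D * ∑' j : ℤ, (C₂ * (ENNReal.ofReal (3 ^ n) * ω) * 8) *
            (ENNReal.ofReal (((2 : ℝ) ^ j) ^ (-2 * s)) * ∫⁻ ξ, ‖gj j ξ‖ₑ ^ 2) := by
          congr 2
          ext j
          rw [vol_ball _ (by positivity), ← hω]
          have e1 : ENNReal.ofReal (((2 : ℝ) ^ j) ^ (-2 * s - n)) *
              ENNReal.ofReal ((3 * (2 : ℝ) ^ j) ^ n) =
              ENNReal.ofReal (3 ^ n) * ENNReal.ofReal (((2 : ℝ) ^ j) ^ (-2 * s)) := by
            rw [← ENNReal.ofReal_mul (by positivity), ← ENNReal.ofReal_mul (by positivity)]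
            congr 1
            rw [mul_pow, Real.rpow_sub (hδ j), Real.rpow_natCast]
            field_simp
          calc _ = C₂ * (ENNReal.ofReal (((2 : ℝ) ^ j) ^ (-2 * s - n)) *
              ENNReal.ofReal ((3 * (2 : ℝ) ^ j) ^ n)) * ω * 8 * ∫⁻ ξ, ‖gj j ξ‖ₑ ^ 2 := by ring
            _ = _ := by rw [e1]; ring
      _ = D * (C₂ * (ENNReal.ofReal (3 ^ n) * ω) * 8) *
            ∑' j : ℤ, (ENNReal.ofReal (((2 : ℝ) ^ j) ^ (-2 * s)) * ∫⁻ ξ, ‖gj j ξ‖ₑ ^ 2) := by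
          rw [ENNReal.tsum_mul_left]; ring
      _ ≤ D * (C₂ * (ENNReal.ofReal (3 ^ n) * ω) * 8) * (ENNReal.ofReal (4 ^ (2 * s)) *
          ∫⁻ ξ, ENNReal.ofReal ((2 * π * ‖ξ‖) ^ (2 * s)) * ‖g ξ‖ₑ ^ 2) :=
          mul_le_mul' le_rfl hT
      _ = _ := by
          rw [coreC, ← hD, ← hω, hC₂]
          ring

/-- the constant of the low frequency part -/
noncomputable def lowC (n : ℕ) : ℝ≥0∞ :=
  8 * ENNReal.ofReal (3 ^ n) * (volume (Metric.ball (0 : EuclideanSpace ℝ (Fin n)) 1))⁻¹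

lemma lowC_ne_top : lowC n ≠ ∞ := by
  unfold lowC
  have h2 := omega_ne_zero (n := n)
  finiteness

lemma enorm_add_sq_le (a b : ℂ) : ‖a + b‖ₑ ^ 2 ≤ 2 * (‖a‖ₑ ^ 2 + ‖b‖ₑ ^ 2) := by
  have h : ‖a + b‖ ^ 2 ≤ 2 * (‖a‖ ^ 2 + ‖b‖ ^ 2) := by
    have := norm_add_le a b
    nlinarith [norm_nonneg (a + b), norm_nonneg a, norm_nonneg b, sq_nonneg (‖a‖ - ‖b‖)]
  have h' := ENNReal.ofReal_le_ofReal h
  rw [ENNReal.ofReal_mul (by norm_num), ENNReal.ofReal_add (by positivity) (by positivity),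
    ENNReal.ofReal_pow (norm_nonneg _), ENNReal.ofReal_pow (norm_nonneg _),
    ENNReal.ofReal_pow (norm_nonneg _), ofReal_norm, ofReal_norm, ofReal_norm] at h'
  simpa using h'

theorem form_bound (hn : 0 < n) {s : ℝ} {M : ℕ} {ε : ℝ} (hε : 0 < ε) (hε1 : ε ≤ 2 * s - n)
    (hε2 : ε ≤ 2 * M - 2 * s) {g : EuclideanSpace ℝ (Fin n) → ℂ} (h1 : Integrable g)
    (h2 : MemLp g 2) {ι : Type*} (t : Finset ι) (c : ι → EuclideanSpace ℝ (Fin n))
    (r : ι → ℝ) (hr : ∀ i ∈ t, 0 < r i)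
    (hdisj : (t : Set ι).PairwiseDisjoint fun i => Metric.closedBall (c i) (r i))
    {ρ : ℝ} (hρ : 0 < ρ) (hz : ∀ i ∈ t, r i < ρ → MomentZero M g (c i) (r i)) :
    ∃ b : ι → ℝ≥0∞, (∀ i ∈ t, ∀ x ∈ Metric.closedBall (c i) (r i), ‖𝓕⁻ g x‖ₑ ^ 2 ≤ b i) ∧
      ∑ i ∈ t, ENNReal.ofReal (r i ^ ((n : ℝ) - 2 * s)) * b i ≤
        3 * coreC n s M ε * (∫⁻ ξ, ENNReal.ofReal ((2 * π * ‖ξ‖) ^ (2 * s)) * ‖g ξ‖ₑ ^ 2) +
        lowC n * ENNReal.ofReal (ρ ^ (-2 * s)) * ∫⁻ ξ, ‖g ξ‖ₑ ^ 2 := by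
  classical
  set T := ∫⁻ ξ, ENNReal.ofReal ((2 * π * ‖ξ‖) ^ (2 * s)) * ‖g ξ‖ₑ ^ 2 with hT
  set Q := ∫⁻ ξ, ‖g ξ‖ₑ ^ 2 with hQ
  set ω := volume (Metric.ball (0 : EuclideanSpace ℝ (Fin n)) 1) with hω
  have hω0 : ω ≠ 0 := omega_ne_zero
  have hωt : ω ≠ ∞ := omega_ne_top
  set ts := t.filter fun i => r i < ρ with hts
  set tb := t.filter fun i => ¬ r i < ρ with htb
  have hts_sub : ts ⊆ t := Finset.filter_subset _ _
  have htb_sub : tb ⊆ t := Finset.filter_subset _ _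
  obtain ⟨b1, hb1, hb1s⟩ := core_bound hn hε hε1 hε2 h1 h2 ts c r (fun i hi => hr i (hts_sub hi))
    (hdisj.subset (by exact_mod_cast hts_sub))
    (fun i hi => hz i (hts_sub hi) (Finset.mem_filter.mp hi).2)
  -- high part
  set H : Set (EuclideanSpace ℝ (Fin n)) := {ξ | 1 < 4 * π * ‖ξ‖ * ρ} with hH
  have hHm : MeasurableSet H := by
    have hc : Continuous fun ξ : EuclideanSpace ℝ (Fin n) => 4 * π * ‖ξ‖ * ρ := by fun_prop
    exact measurableSet_lt measurable_const hc.measurable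
  set gh := H.indicator g with hgh
  set gl := Hᶜ.indicator g with hgl
  have hgh1 : Integrable gh := h1.indicator hHm
  have hgh2 : MemLp gh 2 := h2.indicator hHm
  have hgl1 : Integrable gl := h1.indicator hHm.compl
  have hgl2 : MemLp gl 2 := h2.indicator hHm.compl
  have hsum : ∀ x, 𝓕⁻ g x = 𝓕⁻ gh x + 𝓕⁻ gl x := by
    intro x
    rw [fourierInv_eq_ph, fourierInv_eq_ph, fourierInv_eq_ph, ← integral_add
      (g_ph_integrable hgh1 x) (g_ph_integrable hgl1 x)]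
    congr 1
    ext ξ
    rw [← add_mul, hgh, hgl]
    congr 1
    exact (congrFun (Set.indicator_self_add_compl H g) ξ).symm
  have hzb : ∀ i ∈ tb, MomentZero M gh (c i) (r i) := by
    intro i hi k _ w
    have hρi : ρ ≤ r i := not_lt.mp (Finset.mem_filter.mp hi).2
    rw [setIntegral_eq_zero_of_forall_eq_zero]
    intro ξ hξ
    have h3 := low_bound (lt_of_lt_of_le hρ hρi) hξ
    have h4 : ξ ∉ H := by
      intro h5
      have h5' : 1 < 4 * π * ‖ξ‖ * ρ := h5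
      have : 4 * π * ‖ξ‖ * ρ ≤ 4 * π * ‖ξ‖ * r i := by gcongr
      linarith
    rw [hgh, Set.indicator_of_notMem h4, zero_mul, zero_mul]
  obtain ⟨b2, hb2, hb2s⟩ := core_bound hn hε hε1 hε2 hgh1 hgh2 tb c r
    (fun i hi => hr i (htb_sub hi)) (hdisj.subset (by exact_mod_cast htb_sub)) hzb
  have hTh : ∫⁻ ξ, ENNReal.ofReal ((2 * π * ‖ξ‖) ^ (2 * s)) * ‖gh ξ‖ₑ ^ 2 ≤ T := by
    refine lintegral_mono fun ξ => ?_
    gcongr
    rw [hgh]
    exact enorm_indicator_le_enorm_self _ _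
  -- low part
  obtain ⟨W, hWm, hWmass, hWpt⟩ := exists_dominating hρ hgl1 hgl2 (by
    intro ξ hξ
    have h4 : ξ ∉ H := by
      intro h5
      apply hξ
      rw [hgl, Set.indicator_of_notMem (by simpa using h5)]
    have h5 : ¬ (1 < 4 * π * ‖ξ‖ * ρ) := h4
    push Not at h5
    linarith)
  have hQl : ∫⁻ ξ, ‖gl ξ‖ₑ ^ 2 ≤ Q := by
    refine lintegral_mono fun ξ => ?_
    gcongr
    rw [hgl]
    exact enorm_indicator_le_enorm_self _ _
  set vρ := volume (Metric.closedBall (0 : EuclideanSpace ℝ (Fin n)) ρ) with hvρ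
  have hvρ0 : vρ ≠ 0 := (Metric.measure_closedBall_pos _ _ hρ).ne'
  have hvρt : vρ ≠ ∞ := measure_closedBall_lt_top.ne
  set b3 : ι → ℝ≥0∞ := fun i => vρ⁻¹ * ∫⁻ y in Metric.closedBall (c i) (r i + ρ), W y with hb3
  have hb3p : ∀ i ∈ tb, ∀ x ∈ Metric.closedBall (c i) (r i), ‖𝓕⁻ gl x‖ₑ ^ 2 ≤ b3 i := by
    intro i hi x hx
    refine (hWpt x).trans ?_
    rw [Measure.addHaar_closedBall_center volume x ρ, hb3]
    refine mul_le_mul' le_rfl ?_
    refine lintegral_mono_set ?_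
    rw [Metric.mem_closedBall] at hx
    refine Metric.closedBall_subset_closedBall' ?_
    linarith
  have hb3s : ∑ i ∈ tb, ENNReal.ofReal (r i ^ ((n : ℝ) - 2 * s)) * b3 i ≤
      4 * ENNReal.ofReal (3 ^ n) * ω⁻¹ * ENNReal.ofReal (ρ ^ (-2 * s)) * Q := by
    have hcount := counting tb c r (fun i hi => hr i (htb_sub hi))
      (hdisj.subset (by exact_mod_cast htb_sub)) hρ W hWm
    have hmin : ∀ i ∈ tb, min (r i) ρ = ρ := fun i hi =>
      min_eq_right (not_lt.mp (Finset.mem_filter.mp hi).2)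
    have hcount' : vρ * ∑ i ∈ tb, ∫⁻ y in Metric.closedBall (c i) (r i + ρ), W y ≤
        volume (Metric.closedBall (0 : EuclideanSpace ℝ (Fin n)) (3 * ρ)) * ∫⁻ y, W y := by
      rw [Finset.mul_sum]
      refine le_trans (le_of_eq (Finset.sum_congr rfl fun i hi => ?_)) hcount
      rw [hmin i hi]
    calc ∑ i ∈ tb, ENNReal.ofReal (r i ^ ((n : ℝ) - 2 * s)) * b3 i
        ≤ ∑ i ∈ tb, ENNReal.ofReal (ρ ^ ((n : ℝ) - 2 * s)) * b3 i := by
          refine Finset.sum_le_sum fun i hi => mul_le_mul' (ENNReal.ofReal_le_ofReal ?_) le_rfl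
          have hρi : ρ ≤ r i := not_lt.mp (Finset.mem_filter.mp hi).2
          exact Real.rpow_le_rpow_of_nonpos hρ hρi (by linarith)
      _ = ENNReal.ofReal (ρ ^ ((n : ℝ) - 2 * s)) * (vρ⁻¹ * vρ⁻¹) *
            (vρ * ∑ i ∈ tb, ∫⁻ y in Metric.closedBall (c i) (r i + ρ), W y) := by
          rw [← Finset.mul_sum, hb3, ← Finset.mul_sum]
          calc _ = ENNReal.ofReal (ρ ^ ((n : ℝ) - 2 * s)) * vρ⁻¹ * 1 *
                ∑ i ∈ tb, ∫⁻ y in Metric.closedBall (c i) (r i + ρ), W y := by ring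
            _ = ENNReal.ofReal (ρ ^ ((n : ℝ) - 2 * s)) * vρ⁻¹ * (vρ⁻¹ * vρ) *
                ∑ i ∈ tb, ∫⁻ y in Metric.closedBall (c i) (r i + ρ), W y := by
                rw [ENNReal.inv_mul_cancel hvρ0 hvρt]
            _ = _ := by ring
      _ ≤ ENNReal.ofReal (ρ ^ ((n : ℝ) - 2 * s)) * (vρ⁻¹ * vρ⁻¹) *
            (volume (Metric.closedBall (0 : EuclideanSpace ℝ (Fin n)) (3 * ρ)) * (4 * Q)) := by
          refine mul_le_mul' le_rfl (hcount'.trans ?_)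
          refine mul_le_mul' le_rfl (hWmass.trans ?_)
          gcongr
      _ = _ := by
          have hv1 : vρ⁻¹ = ENNReal.ofReal ((ρ ^ n)⁻¹) * ω⁻¹ := by
            rw [hvρ, vol_ball _ hρ.le, ENNReal.mul_inv (Or.inr hωt) (Or.inr hω0),
              ENNReal.ofReal_inv_of_pos (by positivity)]
          have hv2 : volume (Metric.closedBall (0 : EuclideanSpace ℝ (Fin n)) (3 * ρ)) =
              ENNReal.ofReal ((3 * ρ) ^ n) * ω := vol_ball _ (by positivity)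
          rw [hv1, hv2]
          have hcan2 : ω⁻¹ * ω = 1 := ENNReal.inv_mul_cancel hω0 hωt
          have e1 : ENNReal.ofReal (ρ ^ ((n : ℝ) - 2 * s)) * ENNReal.ofReal ((ρ ^ n)⁻¹) *
              ENNReal.ofReal ((ρ ^ n)⁻¹) * ENNReal.ofReal ((3 * ρ) ^ n) =
              ENNReal.ofReal (3 ^ n) * ENNReal.ofReal (ρ ^ (-2 * s)) := by
            rw [← ENNReal.ofReal_mul (by positivity), ← ENNReal.ofReal_mul (by positivity),
              ← ENNReal.ofReal_mul (by positivity), ← ENNReal.ofReal_mul (by positivity)]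
            congr 1
            have e2 : ρ ^ ((n : ℝ) - 2 * s) = ρ ^ (-2 * s) * ρ ^ n := by
              rw [← Real.rpow_natCast, ← Real.rpow_add hρ]; congr 1; ring
            rw [e2, mul_pow]
            field_simp
          calc _ = (ENNReal.ofReal (ρ ^ ((n : ℝ) - 2 * s)) * ENNReal.ofReal ((ρ ^ n)⁻¹) *
              ENNReal.ofReal ((ρ ^ n)⁻¹) * ENNReal.ofReal ((3 * ρ) ^ n)) * (ω⁻¹ * ω) * ω⁻¹ *
                (4 * Q) := by ring
            _ = _ := by rw [e1, hcan2]; ring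
  refine ⟨fun i => if r i < ρ then b1 i else 2 * (b2 i + b3 i), ?_, ?_⟩
  · intro i hi x hx
    by_cases h : r i < ρ
    · simp only [if_pos h]
      exact hb1 i (Finset.mem_filter.mpr ⟨hi, h⟩) x hx
    · simp only [if_neg h]
      rw [hsum x]
      refine (enorm_add_sq_le _ _).trans ?_
      have hi' : i ∈ tb := Finset.mem_filter.mpr ⟨hi, h⟩
      gcongr
      · exact hb2 i hi' x hx
      · exact hb3p i hi' x hx
  · rw [← Finset.sum_filter_add_sum_filter_not t (fun i => r i < ρ)]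
    have e1 : ∑ i ∈ ts, ENNReal.ofReal (r i ^ ((n : ℝ) - 2 * s)) *
        (if r i < ρ then b1 i else 2 * (b2 i + b3 i)) =
        ∑ i ∈ ts, ENNReal.ofReal (r i ^ ((n : ℝ) - 2 * s)) * b1 i := by
      refine Finset.sum_congr rfl fun i hi => ?_
      rw [if_pos (Finset.mem_filter.mp hi).2]
    have e2 : ∑ i ∈ tb, ENNReal.ofReal (r i ^ ((n : ℝ) - 2 * s)) *
        (if r i < ρ then b1 i else 2 * (b2 i + b3 i)) =
        2 * (∑ i ∈ tb, ENNReal.ofReal (r i ^ ((n : ℝ) - 2 * s)) * b2 i) +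
        2 * (∑ i ∈ tb, ENNReal.ofReal (r i ^ ((n : ℝ) - 2 * s)) * b3 i) := by
      rw [Finset.mul_sum, Finset.mul_sum, ← Finset.sum_add_distrib]
      refine Finset.sum_congr rfl fun i hi => ?_
      rw [if_neg (Finset.mem_filter.mp hi).2]
      ring
    rw [← hts, ← htb, e1, e2]
    calc _ ≤ coreC n s M ε * T + (2 * (coreC n s M ε * T) +
          2 * (4 * ENNReal.ofReal (3 ^ n) * ω⁻¹ * ENNReal.ofReal (ρ ^ (-2 * s)) * Q)) := by
          gcongr
          refine hb2s.trans ?_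
          gcongr
      _ = _ := by
          rw [lowC, ← hω]; ring

end Pool.Agent.Helper47.LT
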